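import Mathlib

/-!
# Compact completion of a totally bounded (in particular, countably compact) topological group
-/

open scoped Topology Pointwise
open Filter Set

universe u

namespace Pool.Agent.Work.MP_55ec57_gt.Completion

section tb

variable {G : Type*} [Group G] [TopologicalSpace G] [IsTopologicalGroup G]

/-- A countably compact group is totally bounded. -/
theorem totallyBounded_of_countablyCompact [CountablyCompactSpace G] (U : Set G)
    (hU : U ∈ 𝓝 (1 : G)) : ∃ F : Set G, F.Finite ∧ F * U = Set.univ := by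
  by_contra hcon
  push Not at hcon
  obtain ⟨f, -, hf⟩ := exists_seq_of_forall_finset_exists (fun _ : G => True)
    (fun x y => x⁻¹ * y ∉ U) (by
      intro s _
      have h1 := hcon (s : Set G) s.finite_toSet
      rw [Set.ne_univ_iff_exists_notMem] at h1
      obtain ⟨y, hy⟩ := h1
      refine ⟨y, trivial, fun x hx hxy => hy ?_⟩
      exact Set.mem_mul.2 ⟨x, hx, x⁻¹ * y, hxy, by group⟩)
  obtain ⟨a, -, ha⟩ := (CountablyCompactSpace.isCountablyCompact_univ (E := G)).seq_clusterPt f
    (Filter.Eventually.of_forall fun _ => trivial)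
  -- a neighbourhood `V` of `1` with `V⁻¹ * V ⊆ U`
  have h2 : Tendsto (fun p : G × G => p.1⁻¹ * p.2) (𝓝 (a, a)) (𝓝 1) := by
    have : Continuous (fun p : G × G => p.1⁻¹ * p.2) := by fun_prop
    have h3 := this.tendsto (a, a)
    simpa using h3
  have h4 := h2 hU
  rw [nhds_prod_eq] at h4
  obtain ⟨W, hW, W', hW', hWW⟩ := Filter.mem_prod_iff.1 h4
  have hfreq := ha.frequently (Filter.inter_mem hW hW')
  obtain ⟨m, hm⟩ := hfreq.exists
  obtain ⟨n, hn, hmn⟩ := (hfreq.and_eventually (Filter.eventually_gt_atTop m)).exists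
  exact hf m n hmn (hWW (Set.mk_mem_prod hm.1 hn.2))

/-- In a totally bounded group, every neighbourhood of `1` contains all conjugates of some
neighbourhood of `1`. -/
theorem exists_conj_subset
    (htb : ∀ U ∈ 𝓝 (1 : G), ∃ F : Set G, F.Finite ∧ F * U = Set.univ)
    (U : Set G) (hU : U ∈ 𝓝 (1 : G)) :
    ∃ V ∈ 𝓝 (1 : G), ∀ g : G, ∀ v ∈ V, g * v * g⁻¹ ∈ U := by
  have h1 : Tendsto (fun p : G × G => p.1⁻¹ * p.2 * p.1) (𝓝 (1, 1)) (𝓝 1) := by
    have : Continuous (fun p : G × G => p.1⁻¹ * p.2 * p.1) := by fun_prop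
    have h3 := this.tendsto (1, 1)
    simpa using h3
  have h2 := h1 hU
  rw [nhds_prod_eq] at h2
  obtain ⟨W, hW, W', hW', hWW⟩ := Filter.mem_prod_iff.1 h2
  -- G = F * W, hence every `g` is `w⁻¹ * f⁻¹`
  obtain ⟨F, hF, hFW⟩ := htb W hW
  refine ⟨⋂ f ∈ F, {v | f⁻¹ * v * f ∈ W'}, ?_, ?_⟩
  · rw [Filter.biInter_mem hF]
    intro f _
    have : Continuous (fun v : G => f⁻¹ * v * f) := by fun_prop
    have h3 := this.tendsto 1
    rw [mul_one, inv_mul_cancel] at h3
    exact h3 hW'
  · intro g v hv
    have hg : g⁻¹ ∈ F * W := by rw [hFW]; trivial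
    obtain ⟨f, hf, w, hw, hfw⟩ := Set.mem_mul.1 hg
    have h4 : f⁻¹ * v * f ∈ W' := by
      have := Set.mem_iInter₂.1 hv f hf
      exact this
    have h5 : w⁻¹ * (f⁻¹ * v * f) * w ∈ U := hWW (Set.mk_mem_prod hw h4)
    have h6 : g * v * g⁻¹ = w⁻¹ * (f⁻¹ * v * f) * w := by
      have hg' : g = w⁻¹ * f⁻¹ := by
        rw [← mul_inv_rev, hfw, inv_inv]
      rw [hg']
      group
    rw [h6]
    exact h5

end tb

/-- **Compact completion.** A totally bounded Hausdorff group embeds densely in a compact
Hausdorff group. -/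
theorem completion_of_totallyBounded (G : Type u) [Group G] [TopologicalSpace G]
    [IsTopologicalGroup G] [T2Space G]
    (htb : ∀ U ∈ 𝓝 (1 : G), ∃ F : Set G, F.Finite ∧ F * U = Set.univ) :
    ∃ (K : Type u) (_ : Group K) (_ : TopologicalSpace K) (_ : IsTopologicalGroup K)
      (_ : CompactSpace K) (_ : T2Space K) (ι : G →* K),
      Topology.IsEmbedding ι ∧ DenseRange ι := by
  let _ : UniformSpace G := IsTopologicalGroup.rightUniformSpace G
  have hunif : uniformity G = comap (fun p : G × G => p.2 * p.1⁻¹) (𝓝 1) := rfl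
  have hright : IsRightUniformGroup G := ⟨hunif⟩
  have hleft : IsLeftUniformGroup G := by
    refine ⟨?_⟩
    rw [hunif]
    apply le_antisymm
    · rw [← tendsto_iff_comap]
      intro U hU
      obtain ⟨V, hV, hVU⟩ := exists_conj_subset htb U hU
      refine ⟨V, hV, ?_⟩
      intro p hp
      have h1 := hVU p.1⁻¹ _ hp
      show p.1⁻¹ * p.2 ∈ U
      have h2 : p.1⁻¹ * (p.2 * p.1⁻¹) * p.1⁻¹⁻¹ = p.1⁻¹ * p.2 := by group
      rwa [h2] at h1
    · rw [← tendsto_iff_comap]
      intro U hU
      obtain ⟨V, hV, hVU⟩ := exists_conj_subset htb U hU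
      refine ⟨V, hV, ?_⟩
      intro p hp
      have h1 := hVU p.1 _ hp
      show p.2 * p.1⁻¹ ∈ U
      have h2 : p.1 * (p.1⁻¹ * p.2) * p.1⁻¹ = p.2 * p.1⁻¹ := by group
      rwa [h2] at h1
  have hG : IsUniformGroup G := IsUniformGroup.of_left_right
  have hA : IsUniformAddGroup (Additive G) := ⟨hG.uniformContinuous_div⟩
  have hTB : TotallyBounded (Set.univ : Set (Additive G)) := by
    intro d hd
    obtain ⟨U, hU, hUd⟩ := hd
    obtain ⟨F, hF, hFU⟩ := htb U hU
    refine ⟨(fun f : G => (Additive.ofMul f⁻¹ : Additive G)) '' F, hF.image _, ?_⟩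
    intro x _
    have hx : (Additive.toMul x)⁻¹ ∈ F * U := by rw [hFU]; trivial
    obtain ⟨f, hf, u, hu, hfu⟩ := Set.mem_mul.1 hx
    refine Set.mem_iUnion₂.2 ⟨_, ⟨f, hf, rfl⟩, ?_⟩
    apply hUd
    show f⁻¹ * (Additive.toMul x)⁻¹ ∈ U
    rw [← hfu, inv_mul_cancel_left]
    exact hu
  have hcomp : CompactSpace (UniformSpace.Completion (Additive G)) := by
    have h1 : TotallyBounded (Set.range ((↑) : Additive G → UniformSpace.Completion (Additive G))) := by
      rw [← Set.image_univ]
      exact hTB.image (UniformSpace.Completion.uniformContinuous_coe _)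
    have h2 := h1.closure
    rw [UniformSpace.Completion.denseRange_coe.closure_range] at h2
    exact ⟨isCompact_iff_totallyBounded_isComplete.2 ⟨h2, isComplete_univ⟩⟩
  refine ⟨Multiplicative (UniformSpace.Completion (Additive G)), inferInstance, inferInstance,
    inferInstance, ?_, ?_, ?_, ?_, ?_⟩
  · exact hcomp
  · exact (inferInstance : T2Space (UniformSpace.Completion (Additive G)))
  · exact AddMonoidHom.toMultiplicativeRight
      (UniformSpace.Completion.toCompl : Additive G →+ UniformSpace.Completion (Additive G))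
  · have hT0 : T0Space (Additive G) := (inferInstance : T0Space G)
    exact (UniformSpace.Completion.isUniformEmbedding_coe (Additive G)).isEmbedding
  · exact UniformSpace.Completion.denseRange_coe (α := Additive G)

/-- **Compact completion** of a countably compact group. -/
theorem completion_of_countablyCompact (G : Type u) [Group G] [TopologicalSpace G]
    [IsTopologicalGroup G] [T2Space G] [CountablyCompactSpace G] :
    ∃ (K : Type u) (_ : Group K) (_ : TopologicalSpace K) (_ : IsTopologicalGroup K)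
      (_ : CompactSpace K) (_ : T2Space K) (ι : G →* K),
      Topology.IsEmbedding ι ∧ DenseRange ι :=
  completion_of_totallyBounded G fun U hU => totallyBounded_of_countablyCompact U hU

end Pool.Agent.Work.MP_55ec57_gt.Completion
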