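import Mathlib

/-!
Closed subgroups of the unitary group of a finite dimensional C*-algebra.
-/

set_option autoImplicit false
set_option linter.unusedSectionVars false
set_option linter.style.haveILetI false

open Filter Topology NormedSpace

namespace Pool.Agent.MP55

section Abstract

variable {A : Type*} [NormedRing A] [StarRing A] [CStarRing A] [NormedAlgebra ℝ A]
  [StarModule ℝ A]

/-- Powers of unitaries: `‖a ^ k - b ^ k‖ ≤ k * ‖a - b‖`. -/
lemma norm_pow_sub_pow_le (a b : unitary A) (k : ℕ) :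
    ‖((a ^ k : unitary A) : A) - ((b ^ k : unitary A) : A)‖ ≤ k * ‖(a : A) - (b : A)‖ := by
  induction k with
  | zero => simp
  | succ k ih =>
    have h : ((a ^ (k + 1) : unitary A) : A) - ((b ^ (k + 1) : unitary A) : A)
        = ((a ^ k : unitary A) : A) * ((a : A) - (b : A))
          + (((a ^ k : unitary A) : A) - ((b ^ k : unitary A) : A)) * (b : A) := by
      rw [pow_succ, pow_succ]
      push_cast
      noncomm_ring
    rw [h]
    refine (norm_add_le _ _).trans ?_
    rw [CStarRing.norm_coe_unitary_mul, CStarRing.norm_mul_coe_unitary]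
    rw [Nat.cast_succ, add_mul, one_mul, add_comm]
    gcongr

variable [CompleteSpace A]

lemma exp_add_smul (X : A) (s t : ℝ) :
    NormedSpace.exp ((s + t) • X) = NormedSpace.exp (s • X) * NormedSpace.exp (t • X) := by
  letI : NormedAlgebra ℚ A := NormedAlgebra.restrictScalars ℚ ℝ A
  rw [add_smul]
  exact NormedSpace.exp_add_of_commute (((Commute.refl X).smul_left s).smul_right t)

lemma exp_nsmul_smul (X : A) (k : ℕ) (t : ℝ) :
    NormedSpace.exp (((k : ℝ) * t) • X) = NormedSpace.exp (t • X) ^ k := by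
  induction k with
  | zero => simp
  | succ k ih =>
    rw [pow_succ, ← ih, ← exp_add_smul]
    congr 2
    push_cast
    ring

lemma star_exp' (X : A) : star (NormedSpace.exp X) = NormedSpace.exp (star X) := by
  letI : NormedAlgebra ℚ A := NormedAlgebra.restrictScalars ℚ ℝ A
  exact (NormedSpace.star_exp X)

lemma exp_smul_mem_unitary {X : A} (hX : star X = -X) (t : ℝ) :
    NormedSpace.exp (t • X) ∈ unitary A := by
  have h1 : star (NormedSpace.exp (t • X)) = NormedSpace.exp ((-t) • X) := by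
    rw [star_exp', star_smul, hX]
    simp
  rw [Unitary.mem_iff, h1, ← exp_add_smul, ← exp_add_smul]
  simp

lemma continuous_exp_smul (X : A) : Continuous (fun t : ℝ => NormedSpace.exp (t • X)) := by
  letI : NormedAlgebra ℚ A := NormedAlgebra.restrictScalars ℚ ℝ A
  exact NormedSpace.exp_continuous.comp (continuous_id.smul continuous_const)

lemma slope_exp (X : A) {ε : ℕ → ℝ} (hε : ∀ j, 0 < ε j) (hε0 : Tendsto ε atTop (𝓝 0)) :
    Tendsto (fun j => (ε j)⁻¹ • (NormedSpace.exp (ε j • X) - 1)) atTop (𝓝 X) := by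
  have h := hasDerivAt_exp_smul_const (𝕂 := ℝ) X (0 : ℝ)
  rw [hasDerivAt_iff_tendsto_slope_zero] at h
  have h2 : Tendsto ε atTop (𝓝[≠] 0) := by
    rw [tendsto_nhdsWithin_iff]
    exact ⟨hε0, Eventually.of_forall fun j => (hε j).ne'⟩
  have h3 := h.comp h2
  simp only [zero_add, zero_smul, NormedSpace.exp_zero, one_mul] at h3
  exact h3

/-- one parameter subgroups contained in a subgroup of the unitary group -/
def oneParam (H : Subgroup (unitary A)) : Set A :=
  {X | ∀ t : ℝ, ∃ h ∈ H, ((h : unitary A) : A) = NormedSpace.exp (t • X)}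

lemma tendsto_of_slope {y : ℕ → A} {ε : ℕ → ℝ} (hε0 : Tendsto ε atTop (𝓝 0))
    (hε : ∀ j, 0 < ε j) {X : A}
    (hX : Tendsto (fun j => (ε j)⁻¹ • (y j - 1)) atTop (𝓝 X)) :
    Tendsto y atTop (𝓝 1) := by
  have h := hε0.smul hX
  simp only [zero_smul] at h
  have h2 : Tendsto (fun j => ε j • ((ε j)⁻¹ • (y j - 1)) + 1) atTop (𝓝 (0 + 1)) :=
    h.add tendsto_const_nhds
  simp only [zero_add] at h2
  refine h2.congr fun j => ?_
  rw [smul_smul, mul_inv_cancel₀ (hε j).ne', one_smul, sub_add_cancel]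

lemma skew_of_slope {y : ℕ → unitary A} {ε : ℕ → ℝ} (hε0 : Tendsto ε atTop (𝓝 0))
    (hε : ∀ j, 0 < ε j) {X : A}
    (hX : Tendsto (fun j => (ε j)⁻¹ • ((y j : A) - 1)) atTop (𝓝 X)) :
    star X = -X := by
  have h1 : Tendsto (fun j => star ((ε j)⁻¹ • ((y j : A) - 1))) atTop (𝓝 (star X)) :=
    hX.star
  have hy := tendsto_of_slope hε0 hε hX
  have h2 : Tendsto (fun j => - (star (y j : A) * ((ε j)⁻¹ • ((y j : A) - 1)))) atTop
      (𝓝 (-(star (1 : A) * X))) := ((hy.star).mul hX).neg
  rw [star_one, one_mul] at h2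
  refine tendsto_nhds_unique h1 (h2.congr fun j => ?_)
  rw [star_smul, star_sub, star_one, mul_smul_comm, mul_sub, mul_one,
    Unitary.coe_star_mul_self, ← smul_neg, neg_sub]
  simp

/-- Limit directions of a closed subgroup are one parameter subgroups. -/
lemma mem_oneParam_of_slope {H : Subgroup (unitary A)} (hH : IsClosed (H : Set (unitary A)))
    {y : ℕ → unitary A} (hy : ∀ j, y j ∈ H) {ε : ℕ → ℝ} (hε : ∀ j, 0 < ε j)
    (hε0 : Tendsto ε atTop (𝓝 0)) {X : A}
    (hX : Tendsto (fun j => (ε j)⁻¹ • ((y j : A) - 1)) atTop (𝓝 X)) :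
    X ∈ oneParam H := by
  have hsk := skew_of_slope hε0 hε hX
  -- the case t ≥ 0
  have key : ∀ t : ℝ, 0 ≤ t → ∃ h ∈ H, ((h : unitary A) : A) = NormedSpace.exp (t • X) := by
    intro t ht
    let u : unitary A := ⟨NormedSpace.exp (t • X), exp_smul_mem_unitary hsk t⟩
    refine ⟨u, ?_, rfl⟩
    let k : ℕ → ℕ := fun j => ⌊t / ε j⌋₊
    have hk : Tendsto (fun j => (k j : ℝ) * ε j) atTop (𝓝 t) := by
      have hlow : ∀ j, t - ε j ≤ (k j : ℝ) * ε j := by
        intro j
        have h1 : t / ε j < k j + 1 := Nat.lt_floor_add_one _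
        rw [div_lt_iff₀ (hε j)] at h1
        nlinarith
      have hup : ∀ j, (k j : ℝ) * ε j ≤ t := by
        intro j
        have h1 : (k j : ℝ) ≤ t / ε j := Nat.floor_le (div_nonneg ht (hε j).le)
        rwa [le_div_iff₀ (hε j)] at h1
      refine tendsto_of_tendsto_of_tendsto_of_le_of_le ?_ tendsto_const_nhds hlow hup
      simpa using (tendsto_const_nhds (x := t)).sub hε0
    have hlim : Tendsto (fun j => (y j) ^ (k j)) atTop (𝓝 u) := by
      rw [tendsto_subtype_rng]
      have hexp : Tendsto (fun j => NormedSpace.exp (((k j : ℝ) * ε j) • X)) atTop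
          (𝓝 (NormedSpace.exp (t • X))) :=
        ((continuous_exp_smul X).tendsto t).comp hk
      have hdiff : Tendsto (fun j => ((y j ^ k j : unitary A) : A)
          - NormedSpace.exp (((k j : ℝ) * ε j) • X)) atTop (𝓝 0) := by
        have hb : ∀ j, ‖((y j ^ k j : unitary A) : A)
          - NormedSpace.exp (((k j : ℝ) * ε j) • X)‖ ≤
            t * ‖(ε j)⁻¹ • ((y j : A) - 1) - (ε j)⁻¹ • (NormedSpace.exp (ε j • X) - 1)‖ := by
          intro j
          let b : unitary A := ⟨NormedSpace.exp (ε j • X), exp_smul_mem_unitary hsk (ε j)⟩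
          have h1 := norm_pow_sub_pow_le (y j) b (k j)
          have h2 : ((b ^ k j : unitary A) : A) = NormedSpace.exp (((k j : ℝ) * ε j) • X) := by
            rw [exp_nsmul_smul]; rfl
          rw [h2] at h1
          refine h1.trans ?_
          have h3 : (ε j)⁻¹ • ((y j : A) - 1) - (ε j)⁻¹ • (NormedSpace.exp (ε j • X) - 1)
              = (ε j)⁻¹ • ((y j : A) - (b : A)) := by
            rw [← smul_sub]
            congr 1
            simp [b]
          rw [h3, norm_smul, norm_inv, Real.norm_eq_abs, abs_of_pos (hε j), ← mul_assoc]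
          gcongr
          have h4 : (k j : ℝ) ≤ t / ε j := Nat.floor_le (div_nonneg ht (hε j).le)
          simpa [div_eq_mul_inv] using h4
        have hz : Tendsto (fun j => t * ‖(ε j)⁻¹ • ((y j : A) - 1)
            - (ε j)⁻¹ • (NormedSpace.exp (ε j • X) - 1)‖) atTop (𝓝 (t * ‖X - X‖)) :=
          ((hX.sub (slope_exp X hε hε0)).norm).const_mul t
        rw [sub_self, norm_zero, mul_zero] at hz
        exact squeeze_zero_norm hb hz
      have := hdiff.add hexp
      simpa [u] using this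
    exact hH.mem_of_tendsto hlim (Eventually.of_forall fun j => H.pow_mem (hy j) _)
  intro t
  rcases le_total 0 t with ht | ht
  · exact key t ht
  · obtain ⟨h, hhH, hh⟩ := key (-t) (by linarith)
    refine ⟨h⁻¹, H.inv_mem hhH, ?_⟩
    have h1 : ((h⁻¹ : unitary A) : A) = star (h : A) := rfl
    rw [h1, hh, star_exp', star_smul, hsk]
    simp

lemma star_eq_neg_of_mem_oneParam {H : Subgroup (unitary A)} {X : A} (hX : X ∈ oneParam H) :
    star X = -X := by
  choose h hH hh using hX
  have hε : ∀ j : ℕ, (0 : ℝ) < 1 / ((j : ℝ) + 1) := fun j => Nat.one_div_pos_of_nat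
  have hs := slope_exp X hε tendsto_one_div_add_atTop_nhds_zero_nat
  refine skew_of_slope (y := fun j => h (1 / ((j : ℝ) + 1)))
    tendsto_one_div_add_atTop_nhds_zero_nat hε (hs.congr fun j => ?_)
  rw [hh]

lemma zero_mem_oneParam (H : Subgroup (unitary A)) : (0 : A) ∈ oneParam H := by
  intro t
  exact ⟨1, H.one_mem, by simp⟩

lemma smul_mem_oneParam {H : Subgroup (unitary A)} {X : A} (hX : X ∈ oneParam H) (c : ℝ) :
    c • X ∈ oneParam H := by
  intro t
  obtain ⟨h, hh, he⟩ := hX (t * c)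
  exact ⟨h, hh, by rw [he, smul_smul]⟩

lemma add_mem_oneParam {H : Subgroup (unitary A)} (hH : IsClosed (H : Set (unitary A)))
    {X Y : A} (hX : X ∈ oneParam H) (hY : Y ∈ oneParam H) :
    X + Y ∈ oneParam H := by
  choose h hhH hh using hX
  choose g hgH hg using hY
  let ε : ℕ → ℝ := fun j => 1 / ((j : ℝ) + 1)
  have hε : ∀ j : ℕ, (0 : ℝ) < ε j := fun j => Nat.one_div_pos_of_nat
  have hε0 : Tendsto ε atTop (𝓝 0) := tendsto_one_div_add_atTop_nhds_zero_nat
  refine mem_oneParam_of_slope hH (y := fun j => h (ε j) * g (ε j))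
    (fun j => H.mul_mem (hhH _) (hgH _)) hε hε0 ?_
  have h1 := slope_exp X hε hε0
  have h2 := slope_exp Y hε hε0
  have h3 : Tendsto (fun j => NormedSpace.exp (ε j • Y)) atTop (𝓝 1) := by
    have := ((continuous_exp_smul Y).tendsto 0).comp hε0
    simpa [Function.comp_def] using this
  have h4 := (h1.mul h3).add h2
  rw [mul_one] at h4
  refine h4.congr fun j => ?_
  push_cast
  rw [hh, hg, smul_mul_assoc, ← smul_add]
  congr 1
  noncomm_ring

/-- the Lie algebra of a closed subgroup -/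
def lieAlg (H : Subgroup (unitary A)) (hH : IsClosed (H : Set (unitary A))) :
    Submodule ℝ A where
  carrier := oneParam H
  zero_mem' := zero_mem_oneParam H
  add_mem' := add_mem_oneParam hH
  smul_mem' := fun c _ hX => smul_mem_oneParam hX c

@[simp] lemma mem_lieAlg {H : Subgroup (unitary A)} {hH : IsClosed (H : Set (unitary A))}
    {X : A} : X ∈ lieAlg H hH ↔ X ∈ oneParam H := Iff.rfl

end Abstract

section FinDim

variable {A : Type*} [NormedRing A] [StarRing A] [CStarRing A] [NormedAlgebra ℝ A]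
  [StarModule ℝ A] [FiniteDimensional ℝ A]

lemma isCompact_unitary_set : IsCompact ((unitary A : Submonoid A) : Set A) := by
  haveI : ProperSpace A := FiniteDimensional.proper ℝ A
  refine Metric.isCompact_of_isClosed_isBounded ?_ ?_
  · have h : ((unitary A : Submonoid A) : Set A) = {x | star x * x = 1} ∩ {x | x * star x = 1} := by
      ext x
      simp [Unitary.mem_iff]
    rw [h]
    refine IsClosed.inter ?_ ?_
    · exact isClosed_eq (continuous_star.mul continuous_id) continuous_const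
    · exact isClosed_eq (continuous_id.mul continuous_star) continuous_const
  · rw [isBounded_iff_forall_norm_le]
    refine ⟨‖(1 : A)‖, fun x hx => ?_⟩
    have h := CStarRing.norm_coe_unitary_mul (⟨x, hx⟩ : unitary A) 1
    simp only [mul_one] at h
    exact h.le

instance : CompactSpace (unitary A) :=
  isCompact_iff_compactSpace.mp isCompact_unitary_set

/-- If a closed subgroup `Q` of the closed group `H` contains all one parameter subgroups of `H`,
then `Q` is open in `H`. -/
lemma exists_nhds_of_oneParam_subset {H Q : Subgroup (unitary A)}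
    (hH : IsClosed (H : Set (unitary A))) (hQ : IsClosed (Q : Set (unitary A))) (hQH : Q ≤ H)
    (hexp : ∀ X ∈ oneParam H, X ∈ oneParam Q) :
    ∃ V ∈ 𝓝 (1 : unitary A), ∀ x ∈ V, x ∈ H → x ∈ Q := by
  haveI : ProperSpace A := FiniteDimensional.proper ℝ A
  haveI : CompleteSpace A := FiniteDimensional.complete ℝ A
  by_contra hcon
  push Not at hcon
  have hx : ∀ j : ℕ, ∃ x : unitary A, x ∈ Metric.ball (1 : unitary A) (1 / ((j : ℝ) + 1)) ∧
      x ∈ H ∧ x ∉ Q := fun j =>
    hcon _ (Metric.ball_mem_nhds _ Nat.one_div_pos_of_nat)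
  choose x hxb hxH hxQ using hx
  have hQc : IsCompact (Q : Set (unitary A)) := hQ.isCompact
  have hq : ∀ j : ℕ, ∃ q ∈ (Q : Set (unitary A)), IsMinOn (fun q : unitary A => ‖(x j : A) - q‖) Q q :=
    fun j => hQc.exists_isMinOn ⟨1, Q.one_mem⟩ (by fun_prop)
  choose q hqQ hqmin using hq
  let y : ℕ → unitary A := fun j => (q j)⁻¹ * x j
  have hyH : ∀ j, y j ∈ H := fun j => H.mul_mem (H.inv_mem (hQH (hqQ j))) (hxH j)
  have hyQ : ∀ j, y j ∉ Q := by
    intro j hj
    apply hxQ j
    have := Q.mul_mem (hqQ j) hj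
    simpa [y] using this
  have hdist : ∀ j (r : unitary A), ‖(y j : A) - r‖ = ‖(x j : A) - ((q j * r : unitary A) : A)‖ := by
    intro j r
    have h1 : (x j : A) - ((q j * r : unitary A) : A) = (q j : A) * ((y j : A) - r) := by
      have : (x j : A) = (q j : A) * (y j : A) := by
        have h2 : x j = q j * y j := by simp [y]
        rw [h2]
        rfl
      rw [this, mul_sub]
      rfl
    rw [h1, CStarRing.norm_coe_unitary_mul]
  have hmin : ∀ j, ∀ r ∈ Q, ‖(y j : A) - 1‖ ≤ ‖(y j : A) - r‖ := by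
    intro j r hr
    have h1 := hdist j 1
    have h2 := hdist j r
    have h3 := hqmin j (Q.mul_mem (hqQ j) hr)
    simp only [Set.mem_ofPred_eq] at h3
    rw [h2]
    simp only [mul_one, OneMemClass.coe_one] at h1
    rw [h1]
    exact h3
  have hyx : ∀ j, ‖(y j : A) - 1‖ ≤ 1 / ((j : ℝ) + 1) := by
    intro j
    have h1 := hdist j 1
    simp only [mul_one, OneMemClass.coe_one] at h1
    rw [h1]
    have h3 := hqmin j Q.one_mem
    simp only [Set.mem_ofPred_eq, OneMemClass.coe_one] at h3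
    refine h3.trans ?_
    have h4 := hxb j
    rw [Metric.mem_ball, Subtype.dist_eq, dist_eq_norm] at h4
    exact h4.le
  let ε : ℕ → ℝ := fun j => ‖(y j : A) - 1‖
  have hε : ∀ j, 0 < ε j := by
    intro j
    rw [norm_pos_iff, sub_ne_zero]
    intro h
    apply hyQ j
    have : y j = 1 := Subtype.ext h
    rw [this]
    exact Q.one_mem
  have hε0 : Tendsto ε atTop (𝓝 0) :=
    squeeze_zero (fun j => norm_nonneg _) hyx tendsto_one_div_add_atTop_nhds_zero_nat
  have hsph : ∀ j, (ε j)⁻¹ • ((y j : A) - 1) ∈ Metric.sphere (0 : A) 1 := by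
    intro j
    rw [mem_sphere_zero_iff_norm, norm_smul, norm_inv, Real.norm_eq_abs, abs_of_pos (hε j)]
    exact inv_mul_cancel₀ (hε j).ne'
  obtain ⟨X, -, φ, hφ, hlim⟩ := (isCompact_sphere (0 : A) 1).tendsto_subseq hsph
  have hlim' : Tendsto (fun j => (ε (φ j))⁻¹ • ((y (φ j) : A) - 1)) atTop (𝓝 X) := hlim
  have hε' : Tendsto (fun j => ε (φ j)) atTop (𝓝 0) := hε0.comp hφ.tendsto_atTop
  have hXH : X ∈ oneParam H :=
    mem_oneParam_of_slope hH (y := fun j => y (φ j)) (fun j => hyH _) (fun j => hε _) hε' hlim'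
  have hXQ := hexp X hXH
  have hs := slope_exp X (fun j => hε (φ j)) hε'
  have hd := (hlim'.sub hs).norm
  rw [sub_self, norm_zero] at hd
  have hge : ∀ j, 1 ≤ ‖(ε (φ j))⁻¹ • ((y (φ j) : A) - 1)
      - (ε (φ j))⁻¹ • (NormedSpace.exp (ε (φ j) • X) - 1)‖ := by
    intro j
    obtain ⟨r, hrQ, hr⟩ := hXQ (ε (φ j))
    rw [← hr, ← smul_sub, sub_sub_sub_cancel_right, norm_smul, norm_inv, Real.norm_eq_abs,
      abs_of_pos (hε _), inv_mul_eq_div, le_div_iff₀ (hε _), one_mul]
    exact hmin _ r hrQ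
  have := ge_of_tendsto' hd hge
  linarith

end FinDim

section Involution

variable {A : Type*} [NormedRing A] [StarRing A] [CStarRing A] [NormedAlgebra ℝ A]
  [StarModule ℝ A] [FiniteDimensional ℝ A]

/-- a closed subgroup in which one is isolated is finite -/
lemma finite_of_nhds {H : Subgroup (unitary A)} (hH : IsClosed (H : Set (unitary A)))
    {V : Set (unitary A)} (hV : V ∈ 𝓝 (1 : unitary A)) (h : ∀ x ∈ V, x ∈ H → x = 1) :
    (H : Set (unitary A)).Finite := by
  haveI : DiscreteTopology H := by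
    apply discreteTopology_of_isOpen_singleton_one
    rw [isOpen_singleton_iff_nhds_eq_pure]
    apply le_antisymm _ (pure_le_nhds _)
    rw [nhds_subtype_eq_comap]
    intro S hS
    rw [mem_pure] at hS
    rw [mem_comap]
    refine ⟨V, hV, ?_⟩
    intro x hx
    have : x = 1 := Subtype.ext (h x hx x.2)
    rwa [this]
  haveI : CompactSpace H := isCompact_iff_compactSpace.mp hH.isCompact
  haveI : Finite H := finite_of_compact_of_discrete
  exact Set.toFinite _

lemma exists_oneParam_of_infinite {H : Subgroup (unitary A)}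
    (hH : IsClosed (H : Set (unitary A))) (hinf : (H : Set (unitary A)).Infinite) :
    ∃ X ∈ oneParam H, ∃ t : ℝ, NormedSpace.exp (t • X) ≠ 1 := by
  by_contra hcon
  push Not at hcon
  obtain ⟨V, hV, hVH⟩ := exists_nhds_of_oneParam_subset (H := H) (Q := ⊥) hH
    (by simp) bot_le (fun X hX t => ⟨1, Subgroup.one_mem _, by
      rw [hcon X hX t]; rfl⟩)
  exact hinf (finite_of_nhds hH hV (fun x hx hxH => by simpa using hVH x hx hxH))

/-- A closed totally disconnected subgroup is finite -/
lemma finite_of_isTotallyDisconnected {H : Subgroup (unitary A)}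
    (hH : IsClosed (H : Set (unitary A))) (htd : IsTotallyDisconnected (H : Set (unitary A))) :
    (H : Set (unitary A)).Finite := by
  haveI : CompleteSpace A := FiniteDimensional.complete ℝ A
  by_contra hinf
  obtain ⟨X, hX, t, ht⟩ := exists_oneParam_of_infinite hH hinf
  have hsk := star_eq_neg_of_mem_oneParam hX
  let φ : ℝ → unitary A := fun t => ⟨NormedSpace.exp (t • X), exp_smul_mem_unitary hsk t⟩
  have hφ : Continuous φ := by
    rw [continuous_induced_rng]
    exact continuous_exp_smul X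
  have hr : Set.range φ ⊆ H := by
    rintro _ ⟨s, rfl⟩
    obtain ⟨h, hh, he⟩ := hX s
    have : φ s = h := Subtype.ext he.symm
    rw [this]
    exact hh
  have hsub := htd (Set.range φ) hr (isPreconnected_range hφ)
  apply ht
  have h1 : φ t = φ 0 := hsub ⟨t, rfl⟩ ⟨0, rfl⟩
  have h2 := congrArg Subtype.val h1
  simpa [φ] using h2

/-- an infinite closed subgroup of the unitary group contains an involution. -/
lemma exists_involution {H : Subgroup (unitary A)}
    (hH : IsClosed (H : Set (unitary A))) (hinf : (H : Set (unitary A)).Infinite) :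
    ∃ h ∈ H, h ≠ 1 ∧ h ^ 2 = 1 := by
  haveI : CompleteSpace A := FiniteDimensional.complete ℝ A
  obtain ⟨X, hX, t₀, ht₀⟩ := exists_oneParam_of_infinite hH hinf
  have hsk := star_eq_neg_of_mem_oneParam hX
  let φ : ℝ → unitary A := fun t => ⟨NormedSpace.exp (t • X), exp_smul_mem_unitary hsk t⟩
  have hφ : Continuous φ := by
    rw [continuous_induced_rng]
    exact continuous_exp_smul X
  have hφadd : ∀ s t, φ (s + t) = φ s * φ t := fun s t => Subtype.ext (exp_add_smul X s t)
  have hr : Set.range φ ⊆ H := by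
    rintro _ ⟨s, rfl⟩
    obtain ⟨h, hh, he⟩ := hX s
    have : φ s = h := Subtype.ext he.symm
    rw [this]
    exact hh
  -- the range of `φ` as a subgroup
  let R : Subgroup (unitary A) :=
    { carrier := Set.range φ
      one_mem' := ⟨0, Subtype.ext (by simp [φ])⟩
      mul_mem' := by
        rintro _ _ ⟨s, rfl⟩ ⟨t, rfl⟩
        exact ⟨s + t, hφadd s t⟩
      inv_mem' := by
        rintro _ ⟨s, rfl⟩
        refine ⟨-s, ?_⟩
        rw [eq_inv_iff_mul_eq_one, ← hφadd]
        simp [φ] }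
  let S : Subgroup (unitary A) := R.topologicalClosure
  have hScl : IsClosed (S : Set (unitary A)) := R.isClosed_topologicalClosure
  have hSH : S ≤ H := R.topologicalClosure_minimal hr hH
  have hRS : R ≤ S := R.le_topologicalClosure
  have hScomm : ∀ a ∈ S, ∀ b ∈ S, a * b = b * a := by
    have hRcomm : ∀ x y : R, x * y = y * x := by
      rintro ⟨_, s, rfl⟩ ⟨_, t, rfl⟩
      apply Subtype.ext
      change φ s * φ t = φ t * φ s
      rw [← hφadd, ← hφadd, add_comm]
    intro a ha b hb
    letI := R.commGroupTopologicalClosure hRcomm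
    exact congrArg Subtype.val (mul_comm (⟨a, ha⟩ : S) ⟨b, hb⟩)
  have hSc : IsCompact (S : Set (unitary A)) := hScl.isCompact
  -- square roots
  have hroot : ∀ s ∈ S, ∃ r ∈ S, r ^ 2 = s := by
    intro s hs
    have himg : IsClosed ((fun r : unitary A => r ^ 2) '' (S : Set (unitary A))) :=
      (hSc.image (by fun_prop)).isClosed
    have hsub : (S : Set (unitary A)) ⊆ ((fun r : unitary A => r ^ 2) '' (S : Set (unitary A))) := by
      change closure (R : Set (unitary A)) ⊆ _
      refine closure_minimal ?_ himg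
      rintro _ ⟨t, rfl⟩
      refine ⟨φ (t / 2), hRS ⟨t / 2, rfl⟩, ?_⟩
      change φ (t / 2) ^ 2 = φ t
      rw [pow_two, ← hφadd]
      congr 1
      ring
    obtain ⟨r, hr, hrs⟩ := hsub hs
    exact ⟨r, hr, hrs⟩
  have hrootk : ∀ k : ℕ, ∀ s ∈ S, ∃ r ∈ S, r ^ (2 ^ k) = s := by
    intro k
    induction k with
    | zero => intro s hs; exact ⟨s, hs, by simp⟩
    | succ k ih =>
      intro s hs
      obtain ⟨r, hr, hrs⟩ := ih s hs
      obtain ⟨q, hq, hqr⟩ := hroot r hr
      refine ⟨q, hq, ?_⟩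
      rw [pow_succ', pow_mul, hqr, hrs]
  by_contra hno
  push Not at hno
  have hno' : ∀ s ∈ S, s ^ 2 = 1 → s = 1 := by
    intro s hs h2
    by_contra h1
    exact hno s (hSH hs) h1 h2
  -- (a)
  obtain ⟨δ, hδ, hδ'⟩ : ∃ δ : ℝ, 0 < δ ∧ ∀ s ∈ S, ‖((s ^ 2 : unitary A) : A) - 1‖ < δ →
      ‖(s : A) - 1‖ < 1 / 2 := by
    let T : Set (unitary A) := (S : Set (unitary A)) ∩ {s | 1 / 2 ≤ ‖(s : A) - 1‖}
    have hT : IsCompact T := by
      apply hSc.inter_right
      exact isClosed_le continuous_const (by fun_prop)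
    rcases T.eq_empty_or_nonempty with hTe | hTn
    · refine ⟨1, one_pos, fun s hs _ => ?_⟩
      by_contra hlt
      have : s ∈ T := ⟨hs, not_lt.mp hlt⟩
      rw [hTe] at this
      exact this
    · obtain ⟨s₀, hs₀, hmin⟩ := hT.exists_isMinOn hTn
        (f := fun s : unitary A => ‖((s ^ 2 : unitary A) : A) - 1‖) (by fun_prop)
      refine ⟨‖((s₀ ^ 2 : unitary A) : A) - 1‖, ?_, fun s hs hlt => ?_⟩
      · rw [norm_pos_iff, sub_ne_zero]
        intro h
        have h1 : s₀ ^ 2 = 1 := Subtype.ext h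
        have h2 := hno' s₀ hs₀.1 h1
        have h3 : (1 : ℝ) / 2 ≤ ‖(s₀ : A) - 1‖ := hs₀.2
        rw [h2] at h3
        simp only [OneMemClass.coe_one, sub_self, norm_zero] at h3
        linarith
      · by_contra hge
        have h1 : s ∈ T := ⟨hs, not_lt.mp hge⟩
        have h2 := hmin h1
        simp only [Set.mem_ofPred_eq] at h2
        linarith
  -- (b)
  have hb : ∀ s ∈ S, ‖((s ^ 2 : unitary A) : A) - 1‖ < δ →
      ‖(s : A) - 1‖ ≤ 2 / 3 * ‖((s ^ 2 : unitary A) : A) - 1‖ := by
    intro s hs hlt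
    have h1 := hδ' s hs hlt
    have h2 : (2 : ℝ) • ((s : A) - 1) = (((s ^ 2 : unitary A) : A) - 1) - ((s : A) - 1) * ((s : A) - 1) := by
      push_cast
      rw [two_smul]
      noncomm_ring
    have h3 : 2 * ‖(s : A) - 1‖ ≤ ‖((s ^ 2 : unitary A) : A) - 1‖
        + ‖(s : A) - 1‖ * ‖(s : A) - 1‖ := by
      calc 2 * ‖(s : A) - 1‖ = ‖(2 : ℝ) • ((s : A) - 1)‖ := by rw [norm_smul]; simp
        _ = _ := by rw [h2]
        _ ≤ _ := (norm_sub_le _ _).trans (by gcongr; exact norm_mul_le _ _)
    nlinarith [norm_nonneg ((s : A) - 1)]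
  -- (c)
  have hc : ∀ k : ℕ, ∀ s ∈ S, ‖((s ^ (2 ^ k) : unitary A) : A) - 1‖ < δ →
      ‖(s : A) - 1‖ ≤ (2 / 3 : ℝ) ^ k * δ := by
    intro k
    induction k with
    | zero => intro s _ hlt; simpa using hlt.le
    | succ k ih =>
      intro s hs hlt
      have h1 : ‖(((s ^ 2) ^ (2 ^ k) : unitary A) : A) - 1‖ < δ := by
        rw [← pow_mul, ← pow_succ']
        exact hlt
      have h2 := ih (s ^ 2) (S.pow_mem hs 2) h1
      have h3 : (2 / 3 : ℝ) ^ k ≤ 1 := pow_le_one₀ (by norm_num) (by norm_num)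
      rcases lt_or_ge ‖((s ^ 2 : unitary A) : A) - 1‖ δ with h4 | h4
      · have h5 := hb s hs h4
        calc ‖(s : A) - 1‖ ≤ 2 / 3 * ‖((s ^ 2 : unitary A) : A) - 1‖ := h5
          _ ≤ 2 / 3 * ((2 / 3 : ℝ) ^ k * δ) := by gcongr
          _ = (2 / 3 : ℝ) ^ (k + 1) * δ := by ring
      · -- then equality forces k = 0-like situation; use strict bound
        exfalso
        rcases Nat.eq_zero_or_pos k with hk | hk
        · subst hk
          simp only [pow_zero, pow_one, zero_add] at h1 hlt h4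
          exact absurd h1 (not_lt.mpr (by simpa using h4))
        · have h6 : (2 / 3 : ℝ) ^ k < 1 := pow_lt_one₀ (by norm_num) (by norm_num) hk.ne'
          nlinarith
  -- (d) covering
  obtain ⟨F, hFS, hF⟩ : ∃ F : Finset (unitary A), (∀ f ∈ F, f ∈ S) ∧
      ∀ s ∈ S, ∃ f ∈ F, ‖(s : A) - f‖ < δ := by
    obtain ⟨F, hFS, hcov⟩ := hSc.elim_nhds_subcover (fun x => Metric.ball x δ)
      (fun x _ => Metric.ball_mem_nhds x hδ)
    refine ⟨F, hFS, fun s hs => ?_⟩
    have := hcov hs
    simp only [Set.mem_iUnion, Metric.mem_ball, Subtype.dist_eq, dist_eq_norm] at this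
    obtain ⟨f, hf, hsf⟩ := this
    exact ⟨f, hf, hsf⟩
  have hd : ∀ k : ℕ, ∃ c : unitary A → unitary A, (∀ s ∈ S, c s ∈ F) ∧
      ∀ s ∈ S, ∀ s' ∈ S, c s = c s' → ‖(s : A) - s'‖ ≤ 2 * ((2 / 3 : ℝ) ^ k * δ) := by
    intro k
    choose! r hrS hr using hrootk k
    choose! c hcF hc' using hF
    refine ⟨fun s => c (s ^ (2 ^ k)), fun s hs => hcF _ (S.pow_mem hs _), ?_⟩
    have hclose : ∀ s ∈ S, ‖(s : A) - r (c (s ^ (2 ^ k)))‖ ≤ (2 / 3 : ℝ) ^ k * δ := by
      intro s hs
      set f := c (s ^ (2 ^ k)) with hf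
      have hfS : f ∈ S := hFS _ (hcF _ (S.pow_mem hs _))
      have hfr : (r f) ^ (2 ^ k) = f := hr f hfS
      have hrfS := hrS f hfS
      have h1 : ‖((s ^ (2 ^ k) : unitary A) : A) - f‖ < δ := hc' _ (S.pow_mem hs _)
      have hcomm : Commute s (r f)⁻¹ := hScomm _ hs _ (S.inv_mem hrfS)
      have h2 : (s * (r f)⁻¹) ^ (2 ^ k) = s ^ (2 ^ k) * f⁻¹ := by
        rw [hcomm.mul_pow, inv_pow, hfr]
      have h3 : ‖(((s * (r f)⁻¹) ^ (2 ^ k) : unitary A) : A) - 1‖ < δ := by
        rw [h2]
        have h4 : ((s ^ (2 ^ k) * f⁻¹ : unitary A) : A) - 1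
            = (((s ^ (2 ^ k) : unitary A) : A) - f) * ((f⁻¹ : unitary A) : A) := by
          rw [sub_mul]
          have : (f : A) * ((f⁻¹ : unitary A) : A) = 1 := by
            rw [← Submonoid.coe_mul, mul_inv_cancel, OneMemClass.coe_one]
          rw [this]
          rfl
        rw [h4, CStarRing.norm_mul_coe_unitary]
        exact h1
      have h5 := hc k _ (S.mul_mem hs (S.inv_mem hrfS)) h3
      have h6 : (s : A) - r f = (((s * (r f)⁻¹ : unitary A) : A) - 1) * (r f : A) := by
        rw [sub_mul, one_mul, ← Submonoid.coe_mul, inv_mul_cancel_right]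
      rw [h6, CStarRing.norm_mul_coe_unitary]
      exact h5
    intro s hs s' hs' hss'
    have h1 := hclose s hs
    have h2 := hclose s' hs'
    simp only at hss'
    rw [← hss'] at h2
    calc ‖(s : A) - s'‖ = ‖((s : A) - r (c (s ^ (2 ^ k)))) - ((s' : A) - r (c (s ^ (2 ^ k))))‖ := by
          congr 1; abel
      _ ≤ _ := norm_sub_le _ _
      _ ≤ _ := by linarith
  -- S is finite
  have hSfin : (S : Set (unitary A)).Finite := by
    by_contra hSinf
    obtain ⟨T, hTS, hTcard⟩ := Set.Infinite.exists_subset_card_eq hSinf (F.card + 1)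
    have hev : ∀ p ∈ T ×ˢ T, p.1 ≠ p.2 →
        ∀ᶠ k : ℕ in atTop, 2 * ((2 / 3 : ℝ) ^ k * δ) < ‖(p.1 : A) - p.2‖ := by
      intro p _ hp
      have h1 : Tendsto (fun k : ℕ => 2 * ((2 / 3 : ℝ) ^ k * δ)) atTop (𝓝 (2 * (0 * δ))) :=
        ((tendsto_pow_atTop_nhds_zero_of_lt_one (by norm_num) (by norm_num)).mul_const δ).const_mul 2
      simp only [zero_mul, mul_zero] at h1
      refine h1.eventually (gt_mem_nhds ?_)
      rw [norm_pos_iff, sub_ne_zero]
      exact fun h => hp (Subtype.ext h)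
    have hev' : ∀ᶠ k : ℕ in atTop, ∀ p ∈ T ×ˢ T, p.1 ≠ p.2 →
        2 * ((2 / 3 : ℝ) ^ k * δ) < ‖(p.1 : A) - p.2‖ := by
      rw [Filter.eventually_all_finset]
      intro p hp
      by_cases hpp : p.1 = p.2
      · exact Eventually.of_forall fun k h => absurd hpp h
      · exact (hev p hp hpp).mono fun k hk _ => hk
    obtain ⟨k, hk⟩ := hev'.exists
    obtain ⟨c, hcF, hcd⟩ := hd k
    obtain ⟨s, hs, s', hs', hne, hcc⟩ := Finset.exists_ne_map_eq_of_card_lt_of_maps_to
      (s := T) (t := F) (by omega) (f := c) (fun s hs => hcF s (hTS hs))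
    have h1 := hcd s (hTS hs) s' (hTS hs') hcc
    have h2 := hk (s, s') (Finset.mk_mem_product hs hs') hne
    simp only at h2
    linarith
  -- but S contains the nonconstant path φ
  have hφfin : (Set.range φ).Finite := hSfin.subset hRS
  have hconst : (Set.range φ).Subsingleton := by
    by_contra hns
    exact (isPreconnected_range hφ).infinite_of_nontrivial
      (Set.not_subsingleton_iff.mp hns) hφfin
  apply ht₀
  have h1 : φ t₀ = φ 0 := hconst ⟨t₀, rfl⟩ ⟨0, rfl⟩
  have h2 := congrArg Subtype.val h1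
  simpa [φ] using h2

end Involution

end Pool.Agent.MP55
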