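import Mathlib
import Pool.Agent.Work.MP_55ec57_gt.Linear

/-!
For a closed connected subgroup `H` of a unitary group and a closed subgroup `M` normalised by `H`,
every element of `H` is a product of an element of `M` and an element centralising `M`.
-/

set_option autoImplicit false
set_option linter.unusedSectionVars false
set_option linter.style.haveILetI false

open Filter Topology NormedSpace

namespace Pool.Agent.MP55

section Abstract

variable {A : Type*} [NormedRing A] [StarRing A] [CStarRing A] [NormedAlgebra ℝ A]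
  [StarModule ℝ A] [FiniteDimensional ℝ A]

lemma conj_exp (u : unitary A) (X : A) (t : ℝ) :
    NormedSpace.exp (t • ((u : A) * X * star (u : A))) = u * NormedSpace.exp (t • X) * star (u : A) := by
  haveI : CompleteSpace A := FiniteDimensional.complete ℝ A
  letI : NormedAlgebra ℚ A := NormedAlgebra.restrictScalars ℚ ℝ A
  have h := NormedSpace.exp_units_conj (Unitary.toUnits u) (t • X)
  have h1 : ((Unitary.toUnits u : Aˣ) : A) = u := rfl
  have h2 : (((Unitary.toUnits u)⁻¹ : Aˣ) : A) = star (u : A) := rfl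
  rw [h1, h2] at h
  rw [← h]
  congr 1
  simp

lemma conj_mem_oneParam {H : Subgroup (unitary A)} {u : unitary A}
    (hu : ∀ h ∈ H, u * h * u⁻¹ ∈ H) {X : A} (hX : X ∈ oneParam H) :
    (u : A) * X * star (u : A) ∈ oneParam H := by
  intro t
  obtain ⟨h, hh, he⟩ := hX t
  refine ⟨u * h * u⁻¹, hu h hh, ?_⟩
  rw [conj_exp, ← he]
  rfl

/-- The key statement, for algebras with an invariant positive definite form. -/
theorem exists_mul_centralizer {H M : Subgroup (unitary A)}
    (B : LinearMap.BilinForm ℝ A) (hBs : B.IsSymm) (hBpos : ∀ X : A, X ≠ 0 → 0 < B X X)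
    (hBinv : ∀ (u : unitary A) (X Y : A), B (u * X * star (u : A)) (u * Y * star (u : A)) = B X Y)
    (hH : IsClosed (H : Set (unitary A))) (hM : IsClosed (M : Set (unitary A))) (hMH : M ≤ H)
    (hnorm : ∀ h ∈ H, ∀ m ∈ M, h * m * h⁻¹ ∈ M) (hconn : IsPreconnected (H : Set (unitary A)))
    {x : unitary A} (hx : x ∈ H) : ∃ m ∈ M, ∀ m' ∈ M, (m⁻¹ * x) * m' = m' * (m⁻¹ * x) := by
  haveI : CompleteSpace A := FiniteDimensional.complete ℝ A
  -- the centraliser
  let C : Subgroup (unitary A) := H ⊓ Subgroup.centralizer (M : Set (unitary A))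
  have hCcl : IsClosed (C : Set (unitary A)) :=
    hH.inter (Set.isClosed_centralizer _)
  have hMC : ∀ c ∈ C, ∀ m ∈ M, c * m * c⁻¹ ∈ M := fun c hc m hm => hnorm c hc.1 m hm
  let Q : Subgroup (unitary A) :=
    { carrier := {y | ∃ m ∈ M, ∃ c ∈ C, m * c = y}
      one_mem' := ⟨1, M.one_mem, 1, C.one_mem, by simp⟩
      mul_mem' := by
        rintro _ _ ⟨m, hm, c, hc, rfl⟩ ⟨m', hm', c', hc', rfl⟩
        refine ⟨m * (c * m' * c⁻¹), M.mul_mem hm (hMC c hc m' hm'), c * c', C.mul_mem hc hc', ?_⟩
        group
      inv_mem' := by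
        rintro _ ⟨m, hm, c, hc, rfl⟩
        refine ⟨c⁻¹ * m⁻¹ * c⁻¹⁻¹, hMC _ (C.inv_mem hc) _ (M.inv_mem hm), c⁻¹, C.inv_mem hc, ?_⟩
        group }
  have hQcl : IsClosed (Q : Set (unitary A)) := by
    have h1 : (Q : Set (unitary A)) = (fun p : unitary A × unitary A => p.1 * p.2) ''
        ((M : Set (unitary A)) ×ˢ (C : Set (unitary A))) := by
      ext y
      constructor
      · rintro ⟨m, hm, c, hc, rfl⟩
        exact ⟨(m, c), ⟨hm, hc⟩, rfl⟩
      · rintro ⟨⟨m, c⟩, ⟨hm, hc⟩, rfl⟩
        exact ⟨m, hm, c, hc, rfl⟩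
    rw [h1]
    exact ((hM.isCompact.prod hCcl.isCompact).image continuous_mul).isClosed
  have hQH : Q ≤ H := by
    rintro _ ⟨m, hm, c, hc, rfl⟩
    exact H.mul_mem (hMH hm) hc.1
  -- one parameter groups of H lie in Q
  have hexp : ∀ X ∈ oneParam H, X ∈ oneParam Q := by
    intro X hX
    let m := lieAlg M hM
    have hdisj : Disjoint m (B.orthogonal m) := by
      rw [Submodule.disjoint_def]
      intro Y hY hY'
      by_contra hne
      have h1 := hBpos Y hne
      rw [LinearMap.BilinForm.mem_orthogonal_iff] at hY'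
      have h2 : B Y Y = 0 := hY' Y hY
      linarith
    have hcompl := (LinearMap.BilinForm.isCompl_orthogonal_iff_disjoint hBs.isRefl).mpr hdisj
    obtain ⟨Y, hY, W, hW, hYW⟩ := Submodule.mem_sup.mp
      (hcompl.sup_eq_top ▸ Submodule.mem_top : X ∈ m ⊔ B.orthogonal m)
    have hYH : Y ∈ oneParam H := by
      intro t
      obtain ⟨h, hh, he⟩ := hY t
      exact ⟨h, hMH hh, he⟩
    have hWH : W ∈ oneParam H := by
      have : W = X + (-1 : ℝ) • Y := by
        rw [← hYW]; simp
      rw [this]
      exact add_mem_oneParam hH hX (smul_mem_oneParam hYH _)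
    -- W commutes with M
    have hWm : ∀ u ∈ M, (u : A) * W * star (u : A) = W := by
      intro u hu
      have horth : (u : A) * W * star (u : A) ∈ B.orthogonal m := by
        rw [LinearMap.BilinForm.mem_orthogonal_iff]
        intro Z hZ
        have hZ' : star (u : A) * Z * (u : A) ∈ m := by
          have h1 := conj_mem_oneParam (H := M) (u := u⁻¹)
            (fun h hh => M.mul_mem (M.mul_mem (M.inv_mem hu) hh) (M.inv_mem (M.inv_mem hu))) hZ
          have h2 : ((u⁻¹ : unitary A) : A) = star (u : A) := rfl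
          rw [h2, star_star] at h1
          exact h1
        rw [LinearMap.BilinForm.mem_orthogonal_iff] at hW
        have h3 : B (star (u : A) * Z * (u : A)) W = 0 := hW _ hZ'
        have h4 := hBinv u (star (u : A) * Z * (u : A)) W
        rw [h3] at h4
        have h5 : (u : A) * (star (u : A) * Z * (u : A)) * star (u : A) = Z := by
          have h6 : (u : A) * star (u : A) = 1 := Unitary.coe_mul_star_self u
          calc (u : A) * (star (u : A) * Z * (u : A)) * star (u : A)
              = ((u : A) * star (u : A)) * Z * ((u : A) * star (u : A)) := by noncomm_ring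
            _ = Z := by rw [h6]; simp
        rw [h5] at h4
        exact h4
      have hdiff : W - (u : A) * W * star (u : A) ∈ m := by
        choose h hhH hh using hWH
        have hε : ∀ j : ℕ, (0 : ℝ) < 1 / ((j : ℝ) + 1) := fun j => Nat.one_div_pos_of_nat
        refine mem_oneParam_of_slope hM (ε := fun j : ℕ => 1 / ((j : ℝ) + 1))
          (y := fun j => h (1 / ((j : ℝ) + 1)) * u * (h (1 / ((j : ℝ) + 1)))⁻¹ * u⁻¹)
          (fun j => M.mul_mem (hnorm _ (hhH _) u hu) (M.inv_mem hu)) hε
          tendsto_one_div_add_atTop_nhds_zero_nat ?_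
        -- y_j = exp(ε W) * exp(-ε uWu*)
        have hs1 := slope_exp W hε tendsto_one_div_add_atTop_nhds_zero_nat
        have hs2 := slope_exp (-((u : A) * W * star (u : A))) hε
          tendsto_one_div_add_atTop_nhds_zero_nat
        have hs3 : Tendsto (fun j : ℕ => NormedSpace.exp ((1 / ((j : ℝ) + 1)) •
            (-((u : A) * W * star (u : A))))) atTop (𝓝 1) := by
          have := ((continuous_exp_smul (-((u : A) * W * star (u : A)))).tendsto 0).comp
            tendsto_one_div_add_atTop_nhds_zero_nat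
          simpa [Function.comp_def] using this
        have hs4 := (hs1.mul hs3).add hs2
        rw [mul_one, ← sub_eq_add_neg] at hs4
        refine hs4.congr fun j => ?_
        have hskW : star W = -W := star_eq_neg_of_mem_oneParam (fun t => ⟨h t, hhH t, hh t⟩)
        have hval : ((h (1 / ((j : ℝ) + 1)) * u * (h (1 / ((j : ℝ) + 1)))⁻¹ * u⁻¹ : unitary A) : A)
            = NormedSpace.exp ((1 / ((j : ℝ) + 1)) • W) *
              NormedSpace.exp ((1 / ((j : ℝ) + 1)) • (-((u : A) * W * star (u : A)))) := by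
          have h1 : (1 / ((j : ℝ) + 1)) • (-((u : A) * W * star (u : A)))
              = (-(1 / ((j : ℝ) + 1))) • ((u : A) * W * star (u : A)) := by simp
          rw [h1, conj_exp, ← hh]
          have h2 : NormedSpace.exp ((-(1 / ((j : ℝ) + 1))) • W)
              = star ((h (1 / ((j : ℝ) + 1)) : unitary A) : A) := by
            rw [hh, star_exp', star_smul, hskW]
            simp
          rw [h2]
          have h3 : ((h (1 / ((j : ℝ) + 1)) * u * (h (1 / ((j : ℝ) + 1)))⁻¹ * u⁻¹ : unitary A) : A)
            = (h (1 / ((j : ℝ) + 1)) : A) * (u : A) * star (h (1 / ((j : ℝ) + 1)) : A) * star (u : A) := rfl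
          rw [h3]
          noncomm_ring
        rw [hval, smul_mul_assoc, ← smul_add]
        congr 1
        noncomm_ring
      have horth2 : W - (u : A) * W * star (u : A) ∈ B.orthogonal m :=
        Submodule.sub_mem _ hW horth
      have h0 := (Submodule.disjoint_def.mp hdisj) _ hdiff horth2
      rw [sub_eq_zero] at h0
      exact h0.symm
    have hWcomm : ∀ u ∈ M, (u : A) * W = W * (u : A) := by
      intro u hu
      have h1 := hWm u hu
      calc (u : A) * W = ((u : A) * W * star (u : A)) * (u : A) := by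
            rw [mul_assoc, Unitary.coe_star_mul_self, mul_one]
        _ = W * (u : A) := by rw [h1]
    -- exp (t W) ∈ C
    intro t
    obtain ⟨y, hyM, hye⟩ := hY t
    obtain ⟨w, hwH, hwe⟩ := hWH t
    have hwC : w ∈ C := by
      refine ⟨hwH, Subgroup.mem_centralizer_iff.mpr ?_⟩
      intro u hu
      apply Subtype.ext
      have h1 : Commute (u : A) W := hWcomm u hu
      have h2 : Commute (u : A) (NormedSpace.exp (t • W)) := by
        letI : NormedAlgebra ℚ A := NormedAlgebra.restrictScalars ℚ ℝ A
        exact (h1.smul_right t).exp_right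
      rw [← hwe] at h2
      exact h2
    refine ⟨y * w, ⟨y, hyM, w, hwC, rfl⟩, ?_⟩
    have hcommYW : Commute Y W := by
      -- derivative of exp(sY) W = W exp(sY)
      choose g hgM hg using hY
      have hε : ∀ j : ℕ, (0 : ℝ) < 1 / ((j : ℝ) + 1) := fun j => Nat.one_div_pos_of_nat
      have hs1 := slope_exp Y hε tendsto_one_div_add_atTop_nhds_zero_nat
      have hl := hs1.mul_const W
      have hr := hs1.const_mul W
      refine tendsto_nhds_unique hl (hr.congr fun j => ?_)
      have h1 := hWcomm (g (1 / ((j : ℝ) + 1))) (hgM _)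
      rw [hg] at h1
      rw [mul_smul_comm, smul_mul_assoc, mul_sub, sub_mul, h1, one_mul, mul_one]
    letI : NormedAlgebra ℚ A := NormedAlgebra.restrictScalars ℚ ℝ A
    rw [← hYW, smul_add, NormedSpace.exp_add_of_commute ((hcommYW.smul_left t).smul_right t),
      ← hye, ← hwe]
    rfl
  obtain ⟨V, hV, hVQ⟩ := exists_nhds_of_oneParam_subset hH hQcl hQH hexp
  -- Q is open in H
  have hopen : IsOpen ((Q.subgroupOf H : Subgroup H) : Set H) := by
    apply Subgroup.isOpen_of_mem_nhds (g := 1)
    rw [nhds_subtype_eq_comap, mem_comap]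
    exact ⟨V, hV, fun y hy => hVQ y hy y.2⟩
  have hclopen : IsClopen ((Q.subgroupOf H : Subgroup H) : Set H) :=
    ⟨Subgroup.isClosed_of_isOpen _ hopen, hopen⟩
  haveI : PreconnectedSpace H := isPreconnected_iff_preconnectedSpace.mp hconn
  have huniv := hclopen.eq_univ ⟨1, Subgroup.one_mem _⟩
  have hxQ : x ∈ Q := by
    have : (⟨x, hx⟩ : H) ∈ ((Q.subgroupOf H : Subgroup H) : Set H) := by
      rw [huniv]; exact Set.mem_univ _
    exact this
  obtain ⟨m, hm, c, hc, hmc⟩ := hxQ
  refine ⟨m, hm, fun m' hm' => ?_⟩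
  have h1 : m⁻¹ * x = c := by rw [← hmc]; group
  rw [h1]
  exact ((Subgroup.mem_centralizer_iff.mp hc.2) m' hm').symm

end Abstract

end Pool.Agent.MP55
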