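import Mathlib

/-!
Identity components of closed subgroups of topological groups.
-/

set_option autoImplicit false
set_option linter.unusedSectionVars false
set_option linter.style.haveILetI false

open Filter Topology

namespace Pool.Agent.MP55

section Comp

variable {K : Type*} [Group K] [TopologicalSpace K] [IsTopologicalGroup K]

/-- The identity component of a subgroup `N` of a topological group, as a subgroup of the
ambient group. -/
def idComp (N : Subgroup K) : Subgroup K where
  carrier := connectedComponentIn (N : Set K) 1
  one_mem' := mem_connectedComponentIn N.one_mem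
  mul_mem' := by
    intro a b ha hb
    have hp : IsPreconnected ((fun p : K × K => p.1 * p.2) ''
        ((connectedComponentIn (N : Set K) 1) ×ˢ (connectedComponentIn (N : Set K) 1))) :=
      (isPreconnected_connectedComponentIn.prod isPreconnected_connectedComponentIn).image _
        continuous_mul.continuousOn
    have h1 : (1 : K) ∈ ((fun p : K × K => p.1 * p.2) ''
        ((connectedComponentIn (N : Set K) 1) ×ˢ (connectedComponentIn (N : Set K) 1))) :=
      ⟨(1, 1), ⟨mem_connectedComponentIn N.one_mem, mem_connectedComponentIn N.one_mem⟩, by simp⟩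
    have hN : ((fun p : K × K => p.1 * p.2) ''
        ((connectedComponentIn (N : Set K) 1) ×ˢ (connectedComponentIn (N : Set K) 1))) ⊆ N := by
      rintro _ ⟨⟨x, y⟩, ⟨hx, hy⟩, rfl⟩
      exact N.mul_mem (connectedComponentIn_subset _ _ hx) (connectedComponentIn_subset _ _ hy)
    exact hp.subset_connectedComponentIn h1 hN ⟨(a, b), ⟨ha, hb⟩, rfl⟩
  inv_mem' := by
    intro a ha
    have hp : IsPreconnected ((fun x : K => x⁻¹) '' (connectedComponentIn (N : Set K) 1)) :=
      isPreconnected_connectedComponentIn.image _ continuous_inv.continuousOn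
    have h1 : (1 : K) ∈ ((fun x : K => x⁻¹) '' (connectedComponentIn (N : Set K) 1)) :=
      ⟨1, mem_connectedComponentIn N.one_mem, by simp⟩
    have hN : ((fun x : K => x⁻¹) '' (connectedComponentIn (N : Set K) 1)) ⊆ N := by
      rintro _ ⟨x, hx, rfl⟩
      exact N.inv_mem (connectedComponentIn_subset _ _ hx)
    exact hp.subset_connectedComponentIn h1 hN ⟨a, ha, rfl⟩

lemma idComp_le (N : Subgroup K) : idComp N ≤ N := connectedComponentIn_subset _ _

lemma isPreconnected_idComp (N : Subgroup K) : IsPreconnected (idComp N : Set K) :=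
  isPreconnected_connectedComponentIn

lemma isConnected_idComp (N : Subgroup K) : IsConnected (idComp N : Set K) :=
  ⟨⟨1, (idComp N).one_mem⟩, isPreconnected_idComp N⟩

lemma subset_idComp {N : Subgroup K} {S : Set K} (hS : IsPreconnected S) (h1 : (1 : K) ∈ S)
    (hSN : S ⊆ N) : S ⊆ idComp N :=
  hS.subset_connectedComponentIn h1 hSN

lemma idComp_mono {N M : Subgroup K} (h : N ≤ M) : idComp N ≤ idComp M :=
  subset_idComp (isPreconnected_idComp N) (idComp N).one_mem ((idComp_le N).trans h)

lemma isClosed_idComp {N : Subgroup K} (hN : IsClosed (N : Set K)) :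
    IsClosed (idComp N : Set K) := by
  apply isClosed_of_closure_subset
  exact subset_idComp (isPreconnected_idComp N).closure
    (subset_closure (idComp N).one_mem) (closure_minimal (idComp_le N) hN)

lemma conj_mem_idComp {N : Subgroup K} {k : K} (hk : ∀ n ∈ N, k * n * k⁻¹ ∈ N) {x : K}
    (hx : x ∈ idComp N) : k * x * k⁻¹ ∈ idComp N := by
  have hp : IsPreconnected ((fun x : K => k * x * k⁻¹) '' (idComp N : Set K)) :=
    (isPreconnected_idComp N).image _ (by fun_prop)
  refine subset_idComp hp ⟨1, (idComp N).one_mem, by simp⟩ ?_ ⟨x, hx, rfl⟩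
  rintro _ ⟨y, hy, rfl⟩
  exact hk y (idComp_le N hy)

instance idComp_normal (N : Subgroup K) [hN : N.Normal] : (idComp N).Normal where
  conj_mem := fun _ hn g => conj_mem_idComp (fun m hm => hN.conj_mem m hm g) hn

lemma idComp_of_isPreconnected {N : Subgroup K} (hN : IsPreconnected (N : Set K)) :
    idComp N = N :=
  le_antisymm (idComp_le N) (subset_idComp hN N.one_mem le_rfl)

lemma idComp_idComp (N : Subgroup K) : idComp (idComp N) = idComp N :=
  idComp_of_isPreconnected (isPreconnected_idComp N)

variable {K' : Type*} [Group K'] [TopologicalSpace K'] [IsTopologicalGroup K']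

/-- surjective continuous homomorphisms of compact groups map the identity component onto the
identity component -/
lemma exists_mem_connectedComponent_of_surjective [CompactSpace K] [T2Space K] [T2Space K']
    (f : K →* K') (hf : Continuous f) (hsurj : Function.Surjective f) {x : K'}
    (hx : x ∈ connectedComponent (1 : K')) : ∃ u ∈ connectedComponent (1 : K), f u = x := by
  have hquot : Topology.IsQuotientMap f := hf.isClosedMap.isQuotientMap hf hsurj
  have hopen : IsOpenMap f := (MonoidHom.isOpenQuotientMap_of_isQuotientMap hquot).isOpenMap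
  -- every open subgroup meets the fibre
  have hU : ∀ U : OpenSubgroup K, ((U : Set K) ∩ f ⁻¹' {x}).Nonempty := by
    intro U
    have ho : IsOpen ((U : Subgroup K).map f : Set K') := hopen _ U.isOpen
    have hcl : IsClopen ((U : Subgroup K).map f : Set K') :=
      ⟨Subgroup.isClosed_of_isOpen _ ho, ho⟩
    have := hcl.connectedComponent_subset (Subgroup.one_mem _) hx
    obtain ⟨u, hu, rfl⟩ := this
    exact ⟨u, hu, rfl⟩
  have hne : (⋂ U : OpenSubgroup K, ((U : Set K) ∩ f ⁻¹' {x})).Nonempty := by
    apply IsCompact.nonempty_iInter_of_directed_nonempty_isCompact_isClosed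
    · intro U V
      refine ⟨U ⊓ V, ?_, ?_⟩
      · rintro y ⟨hy, hy'⟩
        exact ⟨hy.1, hy'⟩
      · rintro y ⟨hy, hy'⟩
        exact ⟨hy.2, hy'⟩
    · exact hU
    · intro U
      exact (U.isClosed.inter (isClosed_singleton.preimage hf)).isCompact
    · intro U
      exact U.isClosed.inter (isClosed_singleton.preimage hf)
  obtain ⟨u, hu⟩ := hne
  rw [Set.mem_iInter] at hu
  refine ⟨u, ?_, (hu ⊤).2⟩
  rw [connectedComponent_eq_iInter_isClopen, Set.mem_iInter]
  rintro ⟨W, hW, hW1⟩
  obtain ⟨H, hH⟩ := IsTopologicalGroup.exist_openSubgroup_sub_clopen_nhds_of_one hW hW1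
  exact hH (hu H).1

lemma map_idComp [CompactSpace K] [T2Space K] [T2Space K']
    (f : K →* K') (hf : Continuous f) {N : Subgroup K} (hN : IsClosed (N : Set K)) :
    (idComp N).map f = idComp (N.map f) := by
  apply le_antisymm
  · refine subset_idComp ((isPreconnected_idComp N).image _ hf.continuousOn)
      (Subgroup.one_mem _) ?_
    exact Set.image_mono (idComp_le N)
  · intro x hx
    have hxN : x ∈ N.map f := idComp_le _ hx
    haveI : CompactSpace N := isCompact_iff_compactSpace.mp hN.isCompact
    let g : N →* N.map f := f.subgroupMap N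
    have hg : Continuous g := by
      rw [continuous_induced_rng]
      exact hf.comp continuous_subtype_val
    have hx' : (⟨x, hxN⟩ : N.map f) ∈ connectedComponent (1 : N.map f) := by
      have h1 : x ∈ connectedComponentIn (N.map f : Set K') 1 := hx
      rw [connectedComponentIn_eq_image (Subgroup.one_mem _)] at h1
      obtain ⟨y, hy, hyx⟩ := h1
      have : (⟨x, hxN⟩ : N.map f) = y := Subtype.ext hyx.symm
      rw [this]
      exact hy
    obtain ⟨u, hu, hgu⟩ := exists_mem_connectedComponent_of_surjective g hg
      (f.subgroupMap_surjective N) hx'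
    refine ⟨u, ?_, ?_⟩
    · change (u : K) ∈ connectedComponentIn (N : Set K) 1
      rw [connectedComponentIn_eq_image N.one_mem]
      exact ⟨u, hu, rfl⟩
    · exact congrArg Subtype.val hgu

end Comp

end Pool.Agent.MP55
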