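import Mathlib

/-!
# Peter-Weyl: continuous finite-dimensional unitary representations separate points
-/

open scoped ENNReal Topology
open MeasureTheory Module.End

set_option linter.unusedSectionVars false
set_option linter.overlappingInstances false
set_option linter.unusedVariables false

namespace Pool.Agent.Work.MP_55ec57_gt.PeterWeyl

section kernel

variable {K : Type*} [TopologicalSpace K] [CompactSpace K]
  {H : Type*} [NormedAddCommGroup H] [InnerProductSpace ℂ H] [CompleteSpace H]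

/-- The operator `g ↦ (y ↦ ⟪F y, g⟫)`. -/
noncomputable def kerOp (F : C(K, H)) : H →L[ℂ] C(K, ℂ) :=
  LinearMap.mkContinuous
    { toFun := fun g => ⟨fun y => inner ℂ (F y) g, by fun_prop⟩
      map_add' := fun g g' => by ext y; simp
      map_smul' := fun c g => by ext y; simp } ‖F‖ (by
        intro g
        refine (ContinuousMap.norm_le _ (by positivity)).2 fun y => ?_
        exact (norm_inner_le_norm _ _).trans
          (mul_le_mul_of_nonneg_right (F.norm_coe_le_norm y) (norm_nonneg _)))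

@[simp]
theorem kerOp_apply (F : C(K, H)) (g : H) (y : K) : kerOp F g y = inner ℂ (F y) g := rfl

theorem isCompactOperator_kerOp (F : C(K, H)) : IsCompactOperator (kerOp F) := by
  have hcl : IsClosed {f : H →L[ℂ] C(K, ℂ) | IsCompactOperator f} :=
    isClosed_setOfPred_isCompactOperator
  have hmem : kerOp F ∈ closure {f : H →L[ℂ] C(K, ℂ) | IsCompactOperator f} := by
    rw [Metric.mem_closure_iff]
    intro ε hε
    obtain ⟨t, htsub, htfin, htcov⟩ :=
      (isCompact_range F.continuous).finite_cover_balls (half_pos hε)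
    let V : Submodule ℂ H := Submodule.span ℂ t
    have hfin : FiniteDimensional ℂ V := FiniteDimensional.span_of_finite ℂ htfin
    refine ⟨kerOp F ∘L V.starProjection, ?_, ?_⟩
    · have h1 : IsCompactOperator (kerOp F ∘L V.subtypeL) :=
        isCompactOperator_of_locallyCompactSpace_rng _
      exact h1.comp_clm V.orthogonalProjectionOnto
    · rw [dist_eq_norm]
      refine lt_of_le_of_lt ?_ (half_lt_self hε)
      refine ContinuousLinearMap.opNorm_le_bound _ (half_pos hε).le fun g => ?_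
      refine (ContinuousMap.norm_le _ (by positivity)).2 fun y => ?_
      have hy : F y ∈ Set.range F := ⟨y, rfl⟩
      obtain ⟨v, hv, hyv⟩ := Set.mem_iUnion₂.1 (htcov hy)
      have hvV : v ∈ V := Submodule.subset_span hv
      have h2 : inner ℂ v (g - V.starProjection g) = 0 :=
        Submodule.inner_right_of_mem_orthogonal hvV (V.sub_starProjection_mem_orthogonal g)
      have h3 : (kerOp F - kerOp F ∘L V.starProjection) g y =
          inner ℂ (F y - v) (g - V.starProjection g) := by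
        rw [inner_sub_left, h2, sub_zero, inner_sub_right]
        rfl
      rw [h3]
      refine (norm_inner_le_norm _ _).trans ?_
      have h4 : ‖g - V.starProjection g‖ ≤ ‖g‖ := by
        have h6 : g - V.starProjection g = Vᗮ.starProjection g := by
          rw [Submodule.starProjection_orthogonal']
          rfl
        rw [h6]
        have h7 := Vᗮ.starProjection.le_opNorm g
        refine h7.trans ?_
        have h8 := Vᗮ.starProjection_norm_le
        calc ‖Vᗮ.starProjection‖ * ‖g‖ ≤ 1 * ‖g‖ :=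
              mul_le_mul_of_nonneg_right h8 (norm_nonneg _)
          _ = ‖g‖ := one_mul _
      have h5 : ‖F y - v‖ ≤ ε / 2 := by
        rw [← dist_eq_norm]
        exact (Metric.mem_ball.1 hyv).le
      exact mul_le_mul h5 h4 (norm_nonneg _) (half_pos hε).le
  rwa [hcl.closure_eq] at hmem

end kernel

section findim

variable {K : Type*} [Group K] [TopologicalSpace K]
  {H : Type*} [NormedAddCommGroup H] [InnerProductSpace ℂ H]

/-- Restriction of an isometry to an invariant subspace. -/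
noncomputable def res (E : Submodule ℂ H) (L : H →ₗᵢ[ℂ] H) (hL : ∀ v ∈ E, L v ∈ E) : E →ₗ[ℂ] E :=
  L.toLinearMap.restrict hL

theorem coe_res (E : Submodule ℂ H) (L : H →ₗᵢ[ℂ] H) (hL : ∀ v ∈ E, L v ∈ E) (v : E) :
    (res E L hL v : H) = L (v : H) := rfl

theorem star_res_mul (E : Submodule ℂ H) [FiniteDimensional ℂ E] (L : H →ₗᵢ[ℂ] H)
    (hL : ∀ v ∈ E, L v ∈ E) : star (res E L hL) * res E L hL = 1 := by
  ext1 u
  refine ext_inner_right ℂ fun w => ?_
  show inner ℂ (LinearMap.adjoint (res E L hL) (res E L hL u)) w = inner ℂ u w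
  rw [LinearMap.adjoint_inner_left, Submodule.coe_inner, coe_res, coe_res,
    LinearIsometry.inner_map_map]
  rfl

/-- A strongly continuous isometric action restricted to a finite-dimensional invariant subspace
gives a continuous unitary matrix representation. -/
theorem rep_of_finDim (E : Submodule ℂ H) [FiniteDimensional ℂ E] (L : K → H →ₗᵢ[ℂ] H)
    (hone : ∀ v, L 1 v = v) (hmul : ∀ a b v, L (a * b) v = L a (L b v))
    (hcont : ∀ v, Continuous fun c => L c v) (hinv : ∀ c, ∀ v ∈ E, L c v ∈ E)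
    (x : K) (v : H) (hv : v ∈ E) (hxv : L x v ≠ v) :
    ∃ (n : ℕ) (ρ : K →* Matrix.unitaryGroup (Fin n) ℂ), Continuous ρ ∧ ρ x ≠ 1 := by
  let b := stdOrthonormalBasis ℂ E
  let Φ : (E →ₗ[ℂ] E) ≃⋆ₐ[ℂ] Matrix _ _ ℂ := LinearMap.toMatrixOrthonormal b
  have hunit : ∀ c : K, Φ (res E (L c) (hinv c)) ∈ Matrix.unitaryGroup _ ℂ := by
    intro c
    rw [Matrix.mem_unitaryGroup_iff', ← map_star, ← map_mul, star_res_mul, map_one]
  have hres_one : res E (L 1) (hinv 1) = 1 := by
    ext1 u
    exact Subtype.ext (hone u)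
  have hres_mul : ∀ c d, res E (L (c * d)) (hinv (c * d)) =
      res E (L c) (hinv c) * res E (L d) (hinv d) := by
    intro c d
    ext1 u
    exact Subtype.ext (hmul c d u)
  let ρ : K →* Matrix.unitaryGroup (Fin (Module.finrank ℂ E)) ℂ :=
    { toFun := fun c => ⟨Φ (res E (L c) (hinv c)), hunit c⟩
      map_one' := by
        apply Subtype.ext
        show Φ (res E (L 1) (hinv 1)) = 1
        rw [hres_one, map_one]
      map_mul' := fun c d => by
        apply Subtype.ext
        show Φ (res E (L (c * d)) (hinv (c * d))) =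
          Φ (res E (L c) (hinv c)) * Φ (res E (L d) (hinv d))
        rw [hres_mul, map_mul] }
  refine ⟨_, ρ, ?_, ?_⟩
  · refine Continuous.subtype_mk ?_ _
    refine continuous_matrix fun i j => ?_
    have h1 : ∀ c : K, Φ (res E (L c) (hinv c)) i j = inner ℂ ((b i : H)) (L c ((b j : H))) := by
      intro c
      show LinearMap.toMatrixOrthonormal b (res E (L c) (hinv c)) i j = _
      rw [LinearMap.toMatrixOrthonormal_apply_apply, Submodule.coe_inner, coe_res]
    simp only [h1]
    exact continuous_const.inner (hcont _)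
  · intro hρ
    apply hxv
    have h1 : Φ (res E (L x) (hinv x)) = 1 := congrArg Subtype.val hρ
    have h2 : res E (L x) (hinv x) = 1 :=
      EquivLike.injective Φ (h1.trans (map_one Φ).symm)
    have h3 := congrArg (fun g : E →ₗ[ℂ] E => (g ⟨v, hv⟩ : H)) h2
    exact h3

end findim

section group

variable {K : Type*} [Group K] [TopologicalSpace K] [IsTopologicalGroup K] [CompactSpace K]
  [T2Space K] [MeasurableSpace K] [BorelSpace K]

variable (μ : Measure K) [μ.IsHaarMeasure] [μ.Regular]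

/-- Left translation on `L²`. -/
noncomputable def lt (c : K) : Lp ℂ 2 μ →ₗᵢ[ℂ] Lp ℂ 2 μ where
  toFun v := DomMulAct.mk c⁻¹ • v
  map_add' v w := smul_add _ _ _
  map_smul' a v := (smul_comm _ _ _)
  norm_map' v := DomMulAct.norm_smul_Lp _ _

theorem lt_apply (c : K) (v : Lp ℂ 2 μ) : lt μ c v = DomMulAct.mk c⁻¹ • v := rfl

theorem lt_one (v : Lp ℂ 2 μ) : lt μ 1 v = v := by
  rw [lt_apply, inv_one]
  exact one_smul _ v

theorem lt_mul (a b : K) (v : Lp ℂ 2 μ) : lt μ (a * b) v = lt μ a (lt μ b v) := by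
  rw [lt_apply, lt_apply, lt_apply, mul_inv_rev, smul_smul]
  rfl

theorem continuous_lt (v : Lp ℂ 2 μ) : Continuous fun c => lt μ c v := by
  have hp : Fact ((2 : ℝ≥0∞) ≠ ∞) := ⟨ENNReal.ofNat_ne_top⟩
  have : Continuous fun c : K => DomMulAct.mk c⁻¹ • v := by
    have h1 : Continuous fun c : K => DomMulAct.mk c⁻¹ :=
      DomMulAct.continuous_mk.comp continuous_inv
    exact h1.smul continuous_const
  exact this

/-- Left translate of a continuous function. -/
noncomputable def tr (c : K) (f : C(K, ℂ)) : C(K, ℂ) := ⟨fun z => f (c⁻¹ * z), by fun_prop⟩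

theorem lt_toLp (c : K) (f : C(K, ℂ)) :
    lt μ c (ContinuousMap.toLp 2 μ ℂ f) = ContinuousMap.toLp 2 μ ℂ (tr c f) := by
  rw [lt_apply]
  apply Lp.ext
  have h1 := DomMulAct.smul_Lp_ae_eq (DomMulAct.mk c⁻¹) (ContinuousMap.toLp 2 μ ℂ f)
  have h2 := ContinuousMap.coeFn_toLp (p := 2) (𝕜 := ℂ) μ f
  have h3 := ContinuousMap.coeFn_toLp (p := 2) (𝕜 := ℂ) μ (tr c f)
  have h4 := (measurePreserving_smul c⁻¹ μ).quasiMeasurePreserving.ae_eq_comp h2
  filter_upwards [h1, h3, h4] with z hz1 hz3 hz4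
  rw [hz1, hz3]
  exact hz4

/-- The family of left translates. -/
noncomputable def fam (f : C(K, ℂ)) : C(K, Lp ℂ 2 μ) :=
  (ContinuousMap.mk (ContinuousMap.toLp 2 μ ℂ)
    (ContinuousMap.toLp 2 μ ℂ : C(K, ℂ) →L[ℂ] Lp ℂ 2 μ).continuous).comp
    (ContinuousMap.curry ⟨fun p : K × K => f (p.1⁻¹ * p.2), by fun_prop⟩)

theorem fam_apply (f : C(K, ℂ)) (y : K) :
    fam μ f y = ContinuousMap.toLp 2 μ ℂ (tr y f) := rfl

theorem tr_tr (c y : K) (f : C(K, ℂ)) : tr c (tr y f) = tr (c * y) f := by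
  ext z
  simp [tr, mul_assoc]

theorem lt_fam (c y : K) (f : C(K, ℂ)) : lt μ c (fam μ f y) = fam μ f (c * y) := by
  rw [fam_apply, fam_apply, lt_toLp, tr_tr]

theorem kerOp_lt (f : C(K, ℂ)) (c : K) (v : Lp ℂ 2 μ) :
    kerOp (fam μ f) (lt μ c v) = tr c (kerOp (fam μ f) v) := by
  ext y
  show inner ℂ (fam μ f y) (lt μ c v) = inner ℂ (fam μ f (c⁻¹ * y)) v
  have h1 : fam μ f y = lt μ c (fam μ f (c⁻¹ * y)) := by
    rw [lt_fam, mul_inv_cancel_left]
  rw [h1, LinearIsometry.inner_map_map]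

/-- The convolution-type operator on `L²`. -/
noncomputable def T (f : C(K, ℂ)) : Lp ℂ 2 μ →L[ℂ] Lp ℂ 2 μ :=
  (ContinuousMap.toLp 2 μ ℂ : C(K, ℂ) →L[ℂ] Lp ℂ 2 μ) ∘L kerOp (fam μ f)

theorem T_apply (f : C(K, ℂ)) (v : Lp ℂ 2 μ) :
    T μ f v = ContinuousMap.toLp 2 μ ℂ (kerOp (fam μ f) v) := rfl

theorem isCompactOperator_T (f : C(K, ℂ)) : IsCompactOperator (T μ f) :=
  (isCompactOperator_kerOp (fam μ f)).clm_comp (ContinuousMap.toLp 2 μ ℂ)

theorem T_lt (f : C(K, ℂ)) (c : K) (v : Lp ℂ 2 μ) : T μ f (lt μ c v) = lt μ c (T μ f v) := by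
  rw [T_apply, T_apply, kerOp_lt, lt_toLp]

/-- The self-adjoint compact operator. -/
noncomputable def B (f : C(K, ℂ)) : Lp ℂ 2 μ →L[ℂ] Lp ℂ 2 μ :=
  ContinuousLinearMap.adjoint (T μ f) ∘L T μ f

theorem isCompactOperator_B (f : C(K, ℂ)) : IsCompactOperator (B μ f) :=
  (isCompactOperator_T μ f).clm_comp (ContinuousLinearMap.adjoint (T μ f))

theorem adjoint_T_lt (f : C(K, ℂ)) (c : K) (v : Lp ℂ 2 μ) :
    ContinuousLinearMap.adjoint (T μ f) (lt μ c v) =
      lt μ c (ContinuousLinearMap.adjoint (T μ f) v) := by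
  refine ext_inner_right ℂ fun w => ?_
  have hw : w = lt μ c (lt μ c⁻¹ w) := by
    rw [← lt_mul, mul_inv_cancel, lt_one]
  rw [ContinuousLinearMap.adjoint_inner_left]
  conv_lhs => rw [hw]
  conv_rhs => rw [hw]
  rw [T_lt, LinearIsometry.inner_map_map, LinearIsometry.inner_map_map,
    ContinuousLinearMap.adjoint_inner_left]

theorem B_lt (f : C(K, ℂ)) (c : K) (v : Lp ℂ 2 μ) : B μ f (lt μ c v) = lt μ c (B μ f v) := by
  show ContinuousLinearMap.adjoint (T μ f) (T μ f (lt μ c v)) = _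
  rw [T_lt, adjoint_T_lt]
  rfl

theorem B_symmetric (f : C(K, ℂ)) : (B μ f).IsSymmetric := by
  intro v w
  show inner ℂ (ContinuousLinearMap.adjoint (T μ f) (T μ f v)) w =
    inner ℂ v (ContinuousLinearMap.adjoint (T μ f) (T μ f w))
  rw [ContinuousLinearMap.adjoint_inner_left, ContinuousLinearMap.adjoint_inner_right]

theorem kerOp_eq_zero_of_B (f : C(K, ℂ)) (v : Lp ℂ 2 μ) (hv : B μ f v = 0) :
    kerOp (fam μ f) v = 0 := by
  have h1 : inner ℂ (T μ f v) (T μ f v) = 0 := by
    rw [← ContinuousLinearMap.adjoint_inner_left]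
    show inner ℂ (B μ f v) v = 0
    rw [hv, inner_zero_left]
  have h2 : T μ f v = 0 := inner_self_eq_zero.1 h1
  rw [T_apply] at h2
  exact ContinuousMap.toLp_injective μ (h2.trans (map_zero _).symm)

theorem exists_eigen (f : C(K, ℂ)) (x : K) (hf : f x ≠ f 1) :
    ∃ l : ℂ, l ≠ 0 ∧ ∃ v ∈ eigenspace (B μ f : Module.End ℂ (Lp ℂ 2 μ)) l, lt μ x v ≠ v := by
  by_contra hcon
  push Not at hcon
  apply hf
  let D : Lp ℂ 2 μ →L[ℂ] C(K, ℂ) :=
    kerOp (fam μ f) ∘L ((lt μ x).toContinuousLinearMap - ContinuousLinearMap.id ℂ _)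
  let W : Submodule ℂ (Lp ℂ 2 μ) := LinearMap.ker (D : Lp ℂ 2 μ →ₗ[ℂ] C(K, ℂ))
  have hWcl : IsClosed (W : Set (Lp ℂ 2 μ)) := D.isClosed_ker
  have hle : (⨆ l, eigenspace (B μ f : Module.End ℂ (Lp ℂ 2 μ)) l) ≤ W := by
    refine iSup_le fun l v hv => ?_
    show kerOp (fam μ f) (lt μ x v - v) = 0
    by_cases hl : l = 0
    · subst hl
      have h0 : B μ f v = 0 := by
        have := mem_eigenspace_iff.1 hv
        simpa using this
      have h1 := kerOp_eq_zero_of_B μ f v h0
      rw [map_sub, kerOp_lt, h1, sub_zero]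
      ext z
      rfl
    · rw [hcon l hl v hv, sub_self, map_zero]
  have htop := (Submodule.topologicalClosure_eq_top_iff).2
    (ContinuousLinearMap.orthogonalComplement_iSup_eigenspaces_eq_bot
      (isCompactOperator_B μ f) (B_symmetric μ f))
  have hW : W = ⊤ := by
    rw [eq_top_iff, ← htop]
    exact Submodule.topologicalClosure_minimal _ hle hWcl
  have hall : ∀ v, kerOp (fam μ f) (lt μ x v) = kerOp (fam μ f) v := by
    intro v
    have h1 : v ∈ W := by rw [hW]; trivial
    have h2 : kerOp (fam μ f) (lt μ x v - v) = 0 := h1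
    rw [map_sub] at h2
    exact sub_eq_zero.1 h2
  have hF : fam μ f x⁻¹ = fam μ f 1 := by
    refine ext_inner_right ℂ fun v => ?_
    have h1 := congrArg (fun h : C(K, ℂ) => h 1) (hall v)
    simp only [kerOp_lt] at h1
    have h2 : inner ℂ (fam μ f (x⁻¹ * 1)) v = inner ℂ (fam μ f 1) v := h1
    rwa [mul_one] at h2
  rw [fam_apply, fam_apply] at hF
  have h3 := ContinuousMap.toLp_injective μ hF
  have h4 := congrArg (fun h : C(K, ℂ) => h 1) h3
  simpa [tr] using h4

include μ in
theorem exists_rep (f : C(K, ℂ)) (x : K) (hf : f x ≠ f 1) :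
    ∃ (n : ℕ) (ρ : K →* Matrix.unitaryGroup (Fin n) ℂ), Continuous ρ ∧ ρ x ≠ 1 := by
  obtain ⟨l, hl, v, hv, hxv⟩ := exists_eigen μ f x hf
  have hfin : FiniteDimensional ℂ (eigenspace (B μ f : Module.End ℂ (Lp ℂ 2 μ)) l) :=
    ContinuousLinearMap.finite_dimensional_eigenspace (isCompactOperator_B μ f) l hl
  refine rep_of_finDim (eigenspace (B μ f : Module.End ℂ (Lp ℂ 2 μ)) l) (lt μ)
    (lt_one μ) (lt_mul μ) (continuous_lt μ) ?_ x v hv hxv
  intro c w hw
  rw [mem_eigenspace_iff] at hw ⊢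
  show B μ f (lt μ c w) = l • (lt μ c w)
  rw [B_lt]
  have h1 : B μ f w = l • w := hw
  rw [h1, map_smul]

end group

/-- **Peter-Weyl** (separation of points): in a compact Hausdorff group every `x ≠ 1` is moved by
some continuous finite-dimensional unitary representation. -/
theorem peter_weyl {K : Type*} [Group K] [TopologicalSpace K] [IsTopologicalGroup K]
    [CompactSpace K] [T2Space K] (x : K) (hx : x ≠ 1) :
    ∃ (n : ℕ) (ρ : K →* Matrix.unitaryGroup (Fin n) ℂ), Continuous ρ ∧ ρ x ≠ 1 := by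
  let _ : MeasurableSpace K := borel K
  have : BorelSpace K := ⟨rfl⟩
  obtain ⟨f, hf0, hf1, -⟩ := exists_continuous_zero_one_of_isClosed
    (isClosed_singleton (x := x)) (isClosed_singleton (x := (1 : K)))
    (Set.disjoint_singleton.2 hx)
  let F : C(K, ℂ) := ⟨fun z => (f z : ℂ), by fun_prop⟩
  refine exists_rep (Measure.haar : Measure K) F x ?_
  have h0 : f x = 0 := hf0 rfl
  have h1 : f 1 = 1 := hf1 rfl
  show ((f x : ℝ) : ℂ) ≠ ((f 1 : ℝ) : ℂ)
  rw [h0, h1]
  norm_num

end Pool.Agent.Work.MP_55ec57_gt.PeterWeyl
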