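import Mathlib
import Pool.Agent.Work.MP_55ec57_gt.Linear
import Pool.Agent.Work.MP_55ec57_gt.Centralizer

/-!
Finite dimensional unitary representations of topological groups.
-/

set_option autoImplicit false
set_option linter.unusedSectionVars false
set_option linter.style.haveILetI false

open Filter Topology NormedSpace
open scoped Matrix.Norms.L2Operator

namespace Pool.Agent.MP55

/-- A continuous finite dimensional unitary representation. -/
structure URep (K : Type*) [Group K] [TopologicalSpace K] where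
  n : ℕ
  ρ : K →* Matrix.unitaryGroup (Fin n) ℂ
  cont : Continuous ρ

section Form

variable {n : ℕ}

/-- the real Hilbert-Schmidt form on complex matrices -/
noncomputable def hsForm (n : ℕ) : LinearMap.BilinForm ℝ (Matrix (Fin n) (Fin n) ℂ) :=
  LinearMap.mk₂ ℝ (fun X Y => (Matrix.trace (star X * Y)).re)
    (by intro X Y Z; simp [add_mul, Matrix.trace_add])
    (by intro c X Y; simp [Matrix.trace_smul])
    (by intro X Y Z; simp [mul_add, Matrix.trace_add])
    (by intro c X Y; simp [Matrix.trace_smul])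

lemma hsForm_apply (X Y : Matrix (Fin n) (Fin n) ℂ) :
    hsForm n X Y = (Matrix.trace (star X * Y)).re := rfl

lemma hsForm_symm : (hsForm n).IsSymm := by
  constructor
  intro X Y
  simp only [hsForm_apply]
  have h : Matrix.trace (star Y * X) = star (Matrix.trace (star X * Y)) := by
    rw [← Matrix.trace_conjTranspose, ← Matrix.star_eq_conjTranspose, star_mul, star_star]
  rw [h]
  simp

lemma hsForm_pos (X : Matrix (Fin n) (Fin n) ℂ) (hX : X ≠ 0) : 0 < hsForm n X X := by
  rw [hsForm_apply]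
  have h1 : (Matrix.trace (star X * X)).re = ∑ i, ∑ j, ‖X j i‖ ^ 2 := by
    rw [Matrix.trace, Complex.re_sum]
    refine Finset.sum_congr rfl fun i _ => ?_
    rw [Matrix.diag_apply, Matrix.mul_apply, Complex.re_sum]
    refine Finset.sum_congr rfl fun j _ => ?_
    rw [Matrix.star_apply, Complex.star_def, ← Complex.normSq_eq_conj_mul_self,
      Complex.ofReal_re, Complex.normSq_eq_norm_sq]
  rw [h1]
  have h2 : ∃ i j, X j i ≠ 0 := by
    by_contra hcon
    push Not at hcon
    apply hX
    ext j i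
    exact hcon i j
  obtain ⟨i, j, hij⟩ := h2
  refine lt_of_lt_of_le ?_ (Finset.single_le_sum (f := fun i => ∑ j, ‖X j i‖ ^ 2)
    (fun i _ => Finset.sum_nonneg fun j _ => by positivity) (Finset.mem_univ i))
  refine lt_of_lt_of_le ?_ (Finset.single_le_sum (f := fun j => ‖X j i‖ ^ 2)
    (fun j _ => by positivity) (Finset.mem_univ j))
  have : 0 < ‖X j i‖ := norm_pos_iff.mpr hij
  positivity

lemma hsForm_inv (u : unitary (Matrix (Fin n) (Fin n) ℂ)) (X Y : Matrix (Fin n) (Fin n) ℂ) :
    hsForm n (u * X * star (u : Matrix (Fin n) (Fin n) ℂ))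
      (u * Y * star (u : Matrix (Fin n) (Fin n) ℂ)) = hsForm n X Y := by
  simp only [hsForm_apply]
  have h1 : star (u : Matrix (Fin n) (Fin n) ℂ) * (u : Matrix (Fin n) (Fin n) ℂ) = 1 :=
    Unitary.coe_star_mul_self u
  have h2 : star ((u : Matrix (Fin n) (Fin n) ℂ) * X * star (u : Matrix (Fin n) (Fin n) ℂ)) *
      ((u : Matrix (Fin n) (Fin n) ℂ) * Y * star (u : Matrix (Fin n) (Fin n) ℂ))
      = (u : Matrix (Fin n) (Fin n) ℂ) * (star X * Y * star (u : Matrix (Fin n) (Fin n) ℂ)) := by
    rw [star_mul, star_mul, star_star]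
    calc _ = (u : Matrix (Fin n) (Fin n) ℂ) * (star X *
          (star (u : Matrix (Fin n) (Fin n) ℂ) * (u : Matrix (Fin n) (Fin n) ℂ)) * Y *
          star (u : Matrix (Fin n) (Fin n) ℂ)) := by noncomm_ring
      _ = _ := by rw [h1, mul_one]
  rw [h2, Matrix.trace_mul_comm, mul_assoc, h1, mul_one]

/-- centraliser theorem for matrices -/
theorem matrix_exists_mul_centralizer {H M : Subgroup (Matrix.unitaryGroup (Fin n) ℂ)}
    (hH : IsClosed (H : Set (Matrix.unitaryGroup (Fin n) ℂ)))
    (hM : IsClosed (M : Set (Matrix.unitaryGroup (Fin n) ℂ))) (hMH : M ≤ H)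
    (hnorm : ∀ h ∈ H, ∀ m ∈ M, h * m * h⁻¹ ∈ M)
    (hconn : IsPreconnected (H : Set (Matrix.unitaryGroup (Fin n) ℂ)))
    {x : Matrix.unitaryGroup (Fin n) ℂ} (hx : x ∈ H) :
    ∃ m ∈ M, ∀ m' ∈ M, (m⁻¹ * x) * m' = m' * (m⁻¹ * x) :=
  exists_mul_centralizer (hsForm n) hsForm_symm hsForm_pos hsForm_inv hH hM hMH hnorm hconn hx

end Form

section Sum

variable {K : Type*} [Group K] [TopologicalSpace K]

/-- direct sums: there is a representation whose kernel is the intersection of two kernels -/
lemma exists_inf_ker (r s : URep K) : ∃ t : URep K, t.ρ.ker = r.ρ.ker ⊓ s.ρ.ker := by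
  let e : Fin r.n ⊕ Fin s.n ≃ Fin (r.n + s.n) := finSumFinEquiv
  let f : K → Matrix (Fin (r.n + s.n)) (Fin (r.n + s.n)) ℂ := fun k =>
    (Matrix.fromBlocks (r.ρ k : Matrix _ _ ℂ) 0 0 (s.ρ k : Matrix _ _ ℂ)).submatrix e.symm e.symm
  have hf1 : f 1 = 1 := by
    simp [f, Matrix.fromBlocks_one]
  have hfm : ∀ a b, f (a * b) = f a * f b := by
    intro a b
    simp only [f, map_mul]
    rw [Matrix.submatrix_mul_equiv, Matrix.fromBlocks_multiply]
    simp
  have hfu : ∀ k, f k ∈ Matrix.unitaryGroup (Fin (r.n + s.n)) ℂ := by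
    intro k
    rw [Matrix.mem_unitaryGroup_iff]
    have h1 : star (f k) = f k⁻¹ := by
      simp only [f, map_inv, Matrix.star_eq_conjTranspose, Matrix.conjTranspose_submatrix,
        Matrix.fromBlocks_conjTranspose, Matrix.conjTranspose_zero]
      rfl
    rw [h1, ← hfm, mul_inv_cancel, hf1]
  refine ⟨⟨r.n + s.n, ⟨⟨fun k => ⟨f k, hfu k⟩, Subtype.ext hf1⟩, fun a b => Subtype.ext (hfm a b)⟩,
    ?_⟩, ?_⟩
  · refine continuous_induced_rng.mpr ?_
    change Continuous f
    have h1 : Continuous fun k => (r.ρ k : Matrix (Fin r.n) (Fin r.n) ℂ) :=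
      continuous_subtype_val.comp r.cont
    have h2 : Continuous fun k => (s.ρ k : Matrix (Fin s.n) (Fin s.n) ℂ) :=
      continuous_subtype_val.comp s.cont
    exact (Continuous.matrix_fromBlocks h1 continuous_const continuous_const h2).matrix_submatrix _ _
  · ext k
    have h0 : ((1 : Matrix.unitaryGroup (Fin (r.n + s.n)) ℂ)) = ⟨f 1, hfu 1⟩ :=
      Subtype.ext hf1.symm
    change (⟨f k, hfu k⟩ : Matrix.unitaryGroup (Fin (r.n + s.n)) ℂ) = 1 ↔
      r.ρ k = 1 ∧ s.ρ k = 1
    rw [h0]
    constructor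
    · intro h
      have h := congrArg Subtype.val h
      have h1 : (f k).submatrix e e = (f 1).submatrix e e := by
        exact congrArg (fun m => Matrix.submatrix m e e) h
      simp only [f, Matrix.submatrix_submatrix, Equiv.symm_comp_self, Matrix.submatrix_id_id,
        Matrix.fromBlocks_inj] at h1
      have h2 : r.ρ k = r.ρ 1 := Subtype.ext h1.1
      have h3 : s.ρ k = s.ρ 1 := Subtype.ext h1.2.2.2
      rw [map_one] at h2 h3
      exact ⟨h2, h3⟩
    · rintro ⟨h1, h2⟩
      apply Subtype.ext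
      simp only [f, h1, h2, map_one]

end Sum

end Pool.Agent.MP55
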