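import Mathlib
import Pool.Agent.Work.MP_55ec57_gt.Linear
import Pool.Agent.Work.MP_55ec57_gt.Centralizer
import Pool.Agent.Work.MP_55ec57_gt.Components
import Pool.Agent.Work.MP_55ec57_gt.Rep
import Pool.Agent.Work.MP_55ec57_gt.PeterWeyl

/-!
Structure of compact groups through finite dimensional unitary representations.
-/

set_option autoImplicit false
set_option linter.unusedSectionVars false
set_option linter.style.haveILetI false

open Filter Topology NormedSpace
open scoped Matrix.Norms.L2Operator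

namespace Pool.Agent.MP55

section Lin

variable {A : Type*} [NormedRing A] [StarRing A] [CStarRing A] [NormedAlgebra ℝ A]
  [StarModule ℝ A] [FiniteDimensional ℝ A]

/-- elements of order dividing `n` near the identity are trivial -/
lemma eq_one_of_pow_eq_one (n : ℕ) (hn : n ≠ 0) (x : unitary A)
    (hx : x ^ n = 1) (hd : ‖(x : A) - 1‖ < 1 / n) : x = 1 := by
  by_contra hne
  have hpos : 0 < ‖(x : A) - 1‖ := by
    rw [norm_pos_iff, sub_ne_zero]
    exact fun h => hne (Subtype.ext h)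
  have hn0 : (0 : ℝ) < n := by exact_mod_cast Nat.pos_of_ne_zero hn
  have h1 : (∑ i ∈ Finset.range n, (x : A) ^ i) * ((x : A) - 1) = 0 := by
    rw [geom_sum_mul]
    have : ((x ^ n : unitary A) : A) = 1 := by rw [hx]; rfl
    push_cast at this
    rw [this, sub_self]
  have h2 : (n : ℝ) • ((x : A) - 1) = - ∑ i ∈ Finset.range n, ((x : A) ^ i - 1) * ((x : A) - 1) := by
    have h3 : ∑ i ∈ Finset.range n, ((x : A) ^ i - 1) * ((x : A) - 1)
        = (∑ i ∈ Finset.range n, (x : A) ^ i) * ((x : A) - 1) - (n : ℝ) • ((x : A) - 1) := by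
      simp only [sub_mul, one_mul, Finset.sum_sub_distrib, Finset.sum_mul, Finset.sum_const,
        Finset.card_range, ← Nat.cast_smul_eq_nsmul ℝ]
      rw [smul_sub]
    rw [h3, h1]
    simp
  have h4 : (n : ℝ) * ‖(x : A) - 1‖ ≤ ∑ i ∈ Finset.range n, (n : ℝ) * ‖(x : A) - 1‖ * ‖(x : A) - 1‖ := by
    calc (n : ℝ) * ‖(x : A) - 1‖ = ‖(n : ℝ) • ((x : A) - 1)‖ := by
          rw [norm_smul, Real.norm_eq_abs, abs_of_pos hn0]
      _ = ‖∑ i ∈ Finset.range n, ((x : A) ^ i - 1) * ((x : A) - 1)‖ := by rw [h2, norm_neg]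
      _ ≤ ∑ i ∈ Finset.range n, ‖((x : A) ^ i - 1) * ((x : A) - 1)‖ := norm_sum_le _ _
      _ ≤ _ := by
        refine Finset.sum_le_sum fun i hi => ?_
        refine (norm_mul_le _ _).trans ?_
        gcongr
        have h5 := norm_pow_sub_pow_le x 1 i
        simp only [one_pow, OneMemClass.coe_one] at h5
        push_cast at h5
        refine h5.trans ?_
        gcongr
        exact_mod_cast (Finset.mem_range.mp hi).le
  rw [Finset.sum_const, Finset.card_range, nsmul_eq_mul] at h4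
  have h6 : (n : ℝ) * ‖(x : A) - 1‖ * (n * ‖(x : A) - 1‖) < (n : ℝ) * ‖(x : A) - 1‖ * 1 := by
    apply mul_lt_mul_of_pos_left _ (by positivity)
    rw [lt_div_iff₀ hn0] at hd
    linarith
  nlinarith

lemma eq_one_of_preconnected_pow {S : Set (unitary A)} (hS : IsPreconnected S)
    (h1 : (1 : unitary A) ∈ S) (n : ℕ) (hn : n ≠ 0) (hpow : ∀ x ∈ S, x ^ n = 1) :
    ∀ x ∈ S, x = 1 := by
  by_contra hcon
  push Not at hcon
  obtain ⟨x, hxS, hx⟩ := hcon
  have hn0 : (0 : ℝ) < 1 / n := by
    have : (0 : ℝ) < n := by exact_mod_cast Nat.pos_of_ne_zero hn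
    positivity
  obtain ⟨y, hyS, hy1, hy2⟩ := hS (Metric.ball 1 (1 / n)) {1}ᶜ Metric.isOpen_ball
    isOpen_compl_singleton (fun y _ => by
      by_cases hy : y = 1
      · left; rw [hy]; exact Metric.mem_ball_self hn0
      · right; exact hy) ⟨1, h1, Metric.mem_ball_self hn0⟩ ⟨x, hxS, hx⟩
  apply hy2
  rw [Metric.mem_ball, Subtype.dist_eq, dist_eq_norm] at hy1
  exact eq_one_of_pow_eq_one n hn y (hpow y hyS) hy1

/-- a power of every element of a compact group lies in the identity component -/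
lemma exists_pow_mem_idComp {H : Subgroup (unitary A)} (hH : IsClosed (H : Set (unitary A))) :
    ∃ n : ℕ, n ≠ 0 ∧ ∀ x ∈ H, x ^ n ∈ idComp H := by
  haveI : CompleteSpace A := FiniteDimensional.complete ℝ A
  obtain ⟨V, hV, hVH⟩ := exists_nhds_of_oneParam_subset (H := H) (Q := idComp H) hH
    (isClosed_idComp hH) (idComp_le H) (by
      intro X hX t
      have hsk := star_eq_neg_of_mem_oneParam hX
      let φ : ℝ → unitary A := fun t => ⟨NormedSpace.exp (t • X), exp_smul_mem_unitary hsk t⟩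
      have hφ : Continuous φ := by
        rw [continuous_induced_rng]
        exact continuous_exp_smul X
      have hr : Set.range φ ⊆ H := by
        rintro _ ⟨s, rfl⟩
        obtain ⟨h, hh, he⟩ := hX s
        have : φ s = h := Subtype.ext he.symm
        rw [this]
        exact hh
      have h1 : (1 : unitary A) ∈ Set.range φ := ⟨0, Subtype.ext (by simp [φ])⟩
      exact ⟨φ t, subset_idComp (isPreconnected_range hφ) h1 hr ⟨t, rfl⟩, rfl⟩)
  haveI : CompactSpace H := isCompact_iff_compactSpace.mp hH.isCompact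
  let P : Subgroup H := (idComp H).subgroupOf H
  have hPo : IsOpen (P : Set H) := by
    apply Subgroup.isOpen_of_mem_nhds (g := 1)
    rw [nhds_subtype_eq_comap, mem_comap]
    exact ⟨V, hV, fun y hy => hVH y hy y.2⟩
  haveI hPn : P.Normal := by
    constructor
    intro x hx g
    exact conj_mem_idComp (fun n hn => H.mul_mem (H.mul_mem g.2 hn) (H.inv_mem g.2)) hx
  haveI : Finite (H ⧸ P) := Subgroup.quotient_finite_of_isOpen P hPo
  haveI : P.FiniteIndex := Subgroup.finiteIndex_of_finite_quotient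
  refine ⟨P.index, Subgroup.FiniteIndex.index_ne_zero, fun x hx => ?_⟩
  exact P.pow_index_mem (⟨x, hx⟩ : H)

end Lin

section Compact

universe u
variable {K : Type u} [Group K] [TopologicalSpace K] [IsTopologicalGroup K] [CompactSpace K]
  [T2Space K]

lemma exists_rep_ne_one {x : K} (hx : x ≠ 1) : ∃ r : URep K, r.ρ x ≠ 1 := by
  obtain ⟨n, ρ, hc, h⟩ := Pool.Agent.Work.MP_55ec57_gt.PeterWeyl.peter_weyl x hx
  exact ⟨⟨n, ρ, hc⟩, h⟩

lemma eq_one_of_forall_rep {x : K} (h : ∀ r : URep K, r.ρ x = 1) : x = 1 := by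
  by_contra hx
  obtain ⟨r, hr⟩ := exists_rep_ne_one hx
  exact hr (h r)

/-- the trivial representation -/
def trivRep (K : Type u) [Group K] [TopologicalSpace K] : URep K := ⟨0, 1, continuous_const⟩

lemma exists_rep_finite {F : Set K} (hF : F.Finite) :
    ∃ r : URep K, ∀ x ∈ F, r.ρ x = 1 → x = 1 := by
  induction F, hF using Set.Finite.induction_on with
  | empty => exact ⟨trivRep K, fun x hx => absurd hx (Set.notMem_empty x)⟩
  | @insert a s _ _ ih =>
    obtain ⟨r, hr⟩ := ih
    by_cases ha : a = 1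
    · refine ⟨r, ?_⟩
      intro x hx hx1
      rcases hx with rfl | hx
      · exact ha
      · exact hr x hx hx1
    · obtain ⟨s', hs'⟩ := exists_rep_ne_one ha
      obtain ⟨t, ht⟩ := exists_inf_ker r s'
      refine ⟨t, ?_⟩
      intro x hx hx1
      have hx2 : x ∈ r.ρ.ker ⊓ s'.ρ.ker := by rw [← ht]; exact hx1
      rcases hx with rfl | hx
      · exact absurd hx2.2 hs'
      · exact hr x hx hx2.1

/-- a closed subgroup with trivial identity component is totally disconnected -/
lemma isTotallyDisconnected_of_idComp {N : Subgroup K} (hN : idComp N = ⊥) :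
    IsTotallyDisconnected (N : Set K) := by
  intro S hSN hS x hx y hy
  have hp : IsPreconnected ((fun z => x⁻¹ * z) '' S) := hS.image _ (by fun_prop)
  have h1 : (1 : K) ∈ ((fun z => x⁻¹ * z) '' S) := ⟨x, hx, by simp⟩
  have h2 : ((fun z => x⁻¹ * z) '' S) ⊆ N := by
    rintro _ ⟨z, hz, rfl⟩
    exact N.mul_mem (N.inv_mem (hSN hx)) (hSN hz)
  have h3 := subset_idComp hp h1 h2 ⟨y, hy, rfl⟩
  rw [hN] at h3
  simp only [SetLike.mem_coe, Subgroup.mem_bot] at h3
  rw [inv_mul_eq_one] at h3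
  exact h3

lemma eq_one_of_preconnected_pow' {S : Set K} (hS : IsPreconnected S)
    (h1 : (1 : K) ∈ S) (n : ℕ) (hn : n ≠ 0) (hpow : ∀ x ∈ S, x ^ n = 1) :
    ∀ x ∈ S, x = 1 := by
  intro x hx
  apply eq_one_of_forall_rep
  intro r
  exact eq_one_of_preconnected_pow (hS.image _ r.cont.continuousOn) ⟨1, h1, map_one _⟩ n hn
    (by
      rintro _ ⟨y, hy, rfl⟩
      rw [← map_pow, hpow y hy, map_one]) _ ⟨x, hx, rfl⟩

/-- groups of finite exponent are totally disconnected -/
lemma idComp_eq_bot_of_pow {N : Subgroup K} (n : ℕ) (hn : n ≠ 0) (hpow : ∀ x ∈ N, x ^ n = 1) :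
    idComp N = ⊥ := by
  rw [eq_bot_iff]
  intro x hx
  rw [Subgroup.mem_bot]
  exact eq_one_of_preconnected_pow' (isPreconnected_idComp N) (idComp N).one_mem n hn
    (fun y hy => hpow y (idComp_le N hy)) x hx

/-- compact connected abelian groups are divisible -/
lemma exists_pow_eq {N : Subgroup K} (hN : IsClosed (N : Set K)) (hc : IsPreconnected (N : Set K))
    (hcomm : ∀ x ∈ N, ∀ y ∈ N, x * y = y * x) (n : ℕ) (hn : n ≠ 0) {x : K} (hx : x ∈ N) :
    ∃ y ∈ N, y ^ n = x := by
  letI : CommGroup N := { (inferInstance : Group N) with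
    mul_comm := fun a b => Subtype.ext (hcomm a a.2 b b.2) }
  haveI : CompactSpace N := isCompact_iff_compactSpace.mp hN.isCompact
  haveI : PreconnectedSpace N := isPreconnected_iff_preconnectedSpace.mp hc
  let P : Subgroup N := (powMonoidHom n : N →* N).range
  have hP : IsClosed (P : Set N) := by
    have h1 : (P : Set N) = Set.range (fun y : N => y ^ n) := rfl
    rw [h1]
    exact (isCompact_range (continuous_pow n)).isClosed
  haveI : T2Space (N ⧸ P) := by
    haveI : IsClosed (P : Set N) := hP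
    infer_instance
  have hall : ∀ z : N ⧸ P, z ^ n = 1 := by
    intro z
    obtain ⟨y, rfl⟩ := QuotientGroup.mk_surjective z
    rw [← QuotientGroup.mk_pow, QuotientGroup.eq_one_iff]
    exact ⟨y, rfl⟩
  have hpre : IsPreconnected (Set.univ : Set (N ⧸ P)) := by
    have h3 := isPreconnected_range (f := (QuotientGroup.mk : N → N ⧸ P))
      QuotientGroup.continuous_mk
    rwa [QuotientGroup.mk_surjective.range_eq] at h3
  have h2 := eq_one_of_preconnected_pow' (K := N ⧸ P) hpre (Set.mem_univ _) n hn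
    (fun z _ => hall z) (QuotientGroup.mk (⟨x, hx⟩ : N)) (Set.mem_univ _)
  rw [QuotientGroup.eq_one_iff] at h2
  obtain ⟨y, hy⟩ := h2
  exact ⟨y, y.2, congrArg Subtype.val hy⟩

lemma isClosed_map {N : Subgroup K} (hN : IsClosed (N : Set K)) (r : URep K) :
    IsClosed (N.map r.ρ : Set (Matrix.unitaryGroup (Fin r.n) ℂ)) :=
  (hN.isCompact.image r.cont).isClosed

/-- Theorem S. -/
theorem exists_mul_mem_centralizer {L M : Subgroup K} (hL : IsClosed (L : Set K))
    (hLc : IsPreconnected (L : Set K)) (hM : IsClosed (M : Set K)) (hML : M ≤ L)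
    (hnorm : ∀ l ∈ L, ∀ m ∈ M, l * m * l⁻¹ ∈ M) {x : K} (hx : x ∈ L) :
    ∃ m ∈ M, ∀ m' ∈ M, (m⁻¹ * x) * m' = m' * (m⁻¹ * x) := by
  let F : URep K → Set K := fun r => (M : Set K) ∩
    {m | ∀ m' ∈ M, r.ρ ((m⁻¹ * x) * m') = r.ρ (m' * (m⁻¹ * x))}
  have hFc : ∀ r, IsClosed (F r) := by
    intro r
    refine hM.inter ?_
    simp only [Set.ofPred_forall]
    refine isClosed_iInter fun m' => isClosed_iInter fun _ => ?_
    exact isClosed_eq (r.cont.comp (by fun_prop)) (r.cont.comp (by fun_prop))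
  have hne : (⋂ r, F r).Nonempty := by
    haveI : Nonempty (URep K) := ⟨trivRep K⟩
    apply IsCompact.nonempty_iInter_of_directed_nonempty_isCompact_isClosed
    · intro r s
      obtain ⟨t, ht⟩ := exists_inf_ker r s
      have key : ∀ a b : K, t.ρ a = t.ρ b → r.ρ a = r.ρ b ∧ s.ρ a = s.ρ b := by
        intro a b hab
        have h1 : a * b⁻¹ ∈ t.ρ.ker := by
          rw [MonoidHom.mem_ker, map_mul, hab, ← map_mul, mul_inv_cancel, map_one]
        rw [ht] at h1
        have h2 : r.ρ (a * b⁻¹) = 1 := h1.1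
        have h3 : s.ρ (a * b⁻¹) = 1 := h1.2
        rw [map_mul, map_inv, mul_inv_eq_one] at h2 h3
        exact ⟨h2, h3⟩
      exact ⟨t, fun m hm => ⟨hm.1, fun m' hm' => (key _ _ (hm.2 m' hm')).1⟩,
        fun m hm => ⟨hm.1, fun m' hm' => (key _ _ (hm.2 m' hm')).2⟩⟩
    · intro r
      obtain ⟨y, ⟨m, hm, rfl⟩, hy⟩ := matrix_exists_mul_centralizer (isClosed_map hL r) (isClosed_map hM r)
        (Subgroup.map_mono hML) (by
          rintro _ ⟨l, hl, rfl⟩ _ ⟨m, hm, rfl⟩
          exact ⟨l * m * l⁻¹, hnorm l hl m hm, by simp⟩) (hLc.image _ r.cont.continuousOn)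
        (x := r.ρ x) ⟨x, hx, rfl⟩
      refine ⟨m, hm, fun m' hm' => ?_⟩
      have := hy (r.ρ m') ⟨m', hm', rfl⟩
      simpa only [map_mul, map_inv] using this
    · exact fun r => (hFc r).isCompact
    · exact hFc
  obtain ⟨m, hm⟩ := hne
  rw [Set.mem_iInter] at hm
  refine ⟨m, (hm (trivRep K)).1, fun m' hm' => ?_⟩
  rw [← mul_inv_eq_one]
  apply eq_one_of_forall_rep
  intro r
  rw [map_mul, map_inv, mul_inv_eq_one]
  exact (hm r).2 m' hm'

/-- closed abelian normal subgroups of connected groups are central -/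
lemma central_of_abelian {L M : Subgroup K} (hL : IsClosed (L : Set K))
    (hLc : IsPreconnected (L : Set K)) (hM : IsClosed (M : Set K)) (hML : M ≤ L)
    (hnorm : ∀ l ∈ L, ∀ m ∈ M, l * m * l⁻¹ ∈ M) (hcomm : ∀ x ∈ M, ∀ y ∈ M, x * y = y * x) :
    ∀ x ∈ L, ∀ m ∈ M, x * m = m * x := by
  intro x hx m hm
  obtain ⟨m₀, hm₀, h⟩ := exists_mul_mem_centralizer hL hLc hM hML hnorm hx
  have h1 := h m hm
  have h2 : x = m₀ * (m₀⁻¹ * x) := by group
  rw [h2, mul_assoc, h1, ← mul_assoc, hcomm m₀ hm₀ m hm, mul_assoc]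

end Compact

end Pool.Agent.MP55
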