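import Mathlib
import Pool.Agent.Work.MP_55ec57_gt.Compact

/-!
If all closed totally disconnected normal subgroups of a compact group are finite, then every
closed abelian normal subgroup admits a faithful finite dimensional representation of the big group.
-/

set_option autoImplicit false
set_option linter.unusedSectionVars false
set_option linter.style.haveILetI false

open Filter Topology NormedSpace
open scoped Matrix.Norms.L2Operator

namespace Pool.Agent.MP55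

section

universe u
variable {K : Type u} [Group K] [TopologicalSpace K] [IsTopologicalGroup K] [CompactSpace K]
  [T2Space K]

lemma isClosed_ker (r : URep K) : IsClosed (r.ρ.ker : Set K) := by
  have : (r.ρ.ker : Set K) = r.ρ ⁻¹' {1} := by
    ext x; simp [MonoidHom.mem_ker]
  rw [this]
  exact isClosed_singleton.preimage r.cont

/-- minimal supplement -/
lemma exists_minimal_supplement {P C : Subgroup K} (hP : IsClosed (P : Set K))
    (hPn : P.Normal) (hC : IsClosed (C : Set K)) :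
    ∃ N : Subgroup K, N.Normal ∧ IsClosed (N : Set K) ∧ N ≤ P ∧
      (∀ x ∈ P, ∃ m ∈ N, m⁻¹ * x ∈ C) ∧
      ∀ N' : Subgroup K, N'.Normal → IsClosed (N' : Set K) → N' ≤ N →
        (∀ x ∈ P, ∃ m ∈ N', m⁻¹ * x ∈ C) → N' = N := by
  let S : Set (Set K) := {s | ∃ N : Subgroup K, (N : Set K) = s ∧ N.Normal ∧ IsClosed (N : Set K) ∧
    N ≤ P ∧ (∀ x ∈ P, ∃ m ∈ N, m⁻¹ * x ∈ C)}
  have hPS : (P : Set K) ∈ S := ⟨P, rfl, hPn, hP, le_rfl, fun x hx => ⟨x, hx, by simp [C.one_mem]⟩⟩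
  obtain ⟨s, hsP, hs⟩ := zorn_superset_nonempty S (by
    intro c hc hchain hcne
    have hc' : ∀ s ∈ c, ∃ N : Subgroup K, (N : Set K) = s ∧ N.Normal ∧ IsClosed (N : Set K) ∧
      N ≤ P ∧ (∀ x ∈ P, ∃ m ∈ N, m⁻¹ * x ∈ C) := fun s hs => hc hs
    choose! N hN using hc'
    -- the intersection
    let N₀ : Subgroup K := ⨅ s ∈ c, N s
    have hN₀mem : ∀ x, x ∈ N₀ ↔ ∀ s ∈ c, x ∈ s := by
      intro x
      simp only [N₀, Subgroup.mem_iInf]
      constructor
      · intro h s hs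
        have := h s hs
        rw [← SetLike.mem_coe, (hN s hs).1] at this
        exact this
      · intro h s hs
        rw [← SetLike.mem_coe, (hN s hs).1]
        exact h s hs
    have hN₀set : (N₀ : Set K) = ⋂ s ∈ c, s := by
      ext x
      rw [SetLike.mem_coe, hN₀mem]
      simp
    refine ⟨(N₀ : Set K), ⟨N₀, rfl, ?_, ?_, ?_, ?_⟩, ?_⟩
    · constructor
      intro x hx g
      rw [hN₀mem] at hx ⊢
      intro s hs
      have h1 := hx s hs
      rw [← (hN s hs).1, SetLike.mem_coe] at h1 ⊢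
      exact (hN s hs).2.1.conj_mem x h1 g
    · rw [hN₀set]
      refine isClosed_biInter fun s hs => ?_
      rw [← (hN s hs).1]
      exact (hN s hs).2.2.1
    · obtain ⟨s, hs⟩ := hcne
      intro x hx
      rw [hN₀mem] at hx
      have h1 := hx s hs
      rw [← (hN s hs).1, SetLike.mem_coe] at h1
      exact (hN s hs).2.2.2.1 h1
    · intro x hx
      have hne : (⋂ s : c, ((s : Set K) ∩ {m | m⁻¹ * x ∈ C})).Nonempty := by
        haveI : Nonempty c := hcne.to_subtype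
        have hcl : ∀ s : c, IsClosed ((s : Set K) ∩ {m | m⁻¹ * x ∈ C}) := by
          intro s
          refine IsClosed.inter ?_ ?_
          · rw [← (hN s s.2).1]
            exact (hN s s.2).2.2.1
          · exact hC.preimage (by fun_prop : Continuous fun m : K => m⁻¹ * x)
        apply IsCompact.nonempty_iInter_of_directed_nonempty_isCompact_isClosed
        · intro s t
          rcases hchain.total s.2 t.2 with h | h
          · exact ⟨s, le_rfl, Set.inter_subset_inter_left _ h⟩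
          · exact ⟨t, Set.inter_subset_inter_left _ h, le_rfl⟩
        · intro s
          obtain ⟨m, hm, hmx⟩ := (hN s s.2).2.2.2.2 x hx
          refine ⟨m, ?_, hmx⟩
          rw [← (hN s s.2).1]
          exact hm
        · exact fun s => (hcl s).isCompact
        · exact hcl
      obtain ⟨m, hm⟩ := hne
      rw [Set.mem_iInter] at hm
      refine ⟨m, ?_, ?_⟩
      · rw [hN₀mem]
        intro s hs
        exact (hm ⟨s, hs⟩).1
      · obtain ⟨s, hs⟩ := hcne
        exact (hm ⟨s, hs⟩).2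
    · intro s hs x hx
      rw [SetLike.mem_coe, hN₀mem] at hx
      exact hx s hs) (P : Set K) hPS
  obtain ⟨⟨N, hNs, hNn, hNc, hNP, hNsup⟩, hmin⟩ := hs
  refine ⟨N, hNn, hNc, hNP, hNsup, ?_⟩
  intro N' hN'n hN'c hN'N hN'sup
  have h1 := hmin (y := (N' : Set K)) ⟨N', rfl, hN'n, hN'c, hN'N.trans hNP, hN'sup⟩
    (by rw [← hNs]; exact hN'N)
  apply le_antisymm hN'N
  intro x hx
  exact h1 (by rw [← hNs]; exact hx)

/-- part (a) of Lemma A -/
lemma exists_rep_ker_inf_eq_idComp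
    (hfin : ∀ N : Subgroup K, N.Normal → IsClosed (N : Set K) → idComp N = ⊥ →
      (N : Set K).Finite)
    {B : Subgroup K} (hBn : B.Normal) (hBc : IsClosed (B : Set K))
    (hcomm : ∀ x ∈ B, ∀ y ∈ B, x * y = y * x) (r : URep K) :
    ∃ t : URep K, t.ρ.ker ⊓ B = idComp (r.ρ.ker ⊓ B) := by
  let P : Subgroup K := r.ρ.ker ⊓ B
  haveI hPn : P.Normal := inferInstance
  have hPc : IsClosed (P : Set K) := (isClosed_ker r).inter hBc
  have hPB : P ≤ B := inf_le_right
  let C : Subgroup K := idComp P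
  haveI hCn : C.Normal := inferInstance
  have hCc : IsClosed (C : Set K) := isClosed_idComp hPc
  have hCP : C ≤ P := idComp_le P
  obtain ⟨N, hNn, hNc, hNP, hNsup, hNmin⟩ := exists_minimal_supplement hPc hPn hCc
  have hNB : N ≤ B := hNP.trans hPB
  -- identity component of N is trivial
  have hN0 : idComp N = ⊥ := by
    rw [eq_bot_iff]
    intro x₀ hx₀
    rw [Subgroup.mem_bot]
    by_contra hx₀1
    obtain ⟨s, hs⟩ := exists_rep_ne_one hx₀1
    obtain ⟨n, hn0, hn⟩ := exists_pow_mem_idComp (isClosed_map hNc s)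
    have hn' : ∀ x ∈ N, ∃ y ∈ idComp N, s.ρ y = (s.ρ x) ^ n := by
      intro x hx
      have h1 := hn (s.ρ x) ⟨x, hx, rfl⟩
      rw [← map_idComp s.ρ s.cont hNc] at h1
      exact h1
    let N' : Subgroup K :=
      { carrier := {x | x ∈ N ∧ (s.ρ x) ^ n = 1}
        one_mem' := ⟨N.one_mem, by simp⟩
        mul_mem' := by
          rintro a b ⟨ha, ha'⟩ ⟨hb, hb'⟩
          refine ⟨N.mul_mem ha hb, ?_⟩
          have hab : Commute a b := hcomm a (hNB ha) b (hNB hb)
          rw [map_mul, (hab.map s.ρ).mul_pow, ha', hb', mul_one]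
        inv_mem' := by
          rintro a ⟨ha, ha'⟩
          refine ⟨N.inv_mem ha, ?_⟩
          rw [map_inv, inv_pow, ha', inv_one] }
    have hN'N : N' ≤ N := fun x hx => hx.1
    have hN'n : N'.Normal := by
      constructor
      rintro x ⟨hx, hx'⟩ g
      refine ⟨hNn.conj_mem x hx g, ?_⟩
      rw [map_mul, map_mul, map_inv, conj_pow, hx']
      simp
    have hN'c : IsClosed (N' : Set K) := by
      have h1 : (N' : Set K) = (N : Set K) ∩ {x | (s.ρ x) ^ n = 1} := rfl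
      rw [h1]
      refine hNc.inter ?_
      exact isClosed_eq (s.cont.pow n) continuous_const
    have hN'sup : ∀ x ∈ P, ∃ m ∈ N', m⁻¹ * x ∈ C := by
      intro x hx
      obtain ⟨m, hm, hmx⟩ := hNsup x hx
      obtain ⟨y, hy, hys⟩ := hn' m hm
      obtain ⟨z, hz, hzy⟩ := exists_pow_eq (isClosed_idComp hNc) (isPreconnected_idComp N)
        (fun a ha b hb => hcomm a (hNB (idComp_le N ha)) b (hNB (idComp_le N hb))) n hn0 hy
      have hzN : z ∈ N := idComp_le N hz
      have hzC : z ∈ C := idComp_mono hNP hz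
      have hzm : Commute z⁻¹ m := hcomm _ (hNB (N.inv_mem hzN)) _ (hNB hm)
      refine ⟨z⁻¹ * m, ⟨N.mul_mem (N.inv_mem hzN) hm, ?_⟩, ?_⟩
      · rw [← map_pow, hzm.mul_pow, map_mul, inv_pow, hzy, map_inv, hys, ← map_pow, inv_mul_cancel]
      · have h1 : (z⁻¹ * m)⁻¹ * x = m⁻¹ * x * z := by
          have h2 : Commute z x := hcomm z (hNB hzN) x (hPB hx)
          rw [mul_inv_rev, inv_inv, mul_assoc, h2.eq, mul_assoc]
        rw [h1]
        exact C.mul_mem hmx hzC
    have hN'eq := hNmin N' hN'n hN'c hN'N hN'sup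
    have hall : ∀ x ∈ idComp N, (s.ρ x) ^ n = 1 := by
      intro x hx
      have h1 : x ∈ N := idComp_le N hx
      rw [← hN'eq] at h1
      exact h1.2
    apply hs
    exact eq_one_of_preconnected_pow ((isPreconnected_idComp N).image _ s.cont.continuousOn)
      ⟨1, (idComp N).one_mem, map_one _⟩ n hn0 (by
        rintro _ ⟨x, hx, rfl⟩
        exact hall x hx) (s.ρ x₀) ⟨x₀, hx₀, rfl⟩
  have hNfin : (N : Set K).Finite := hfin N hNn hNc hN0
  -- the finite quotient P / C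
  haveI : T2Space (K ⧸ C) := by
    haveI : IsClosed (C : Set K) := hCc
    infer_instance
  let F : Set (K ⧸ C) := (QuotientGroup.mk : K → K ⧸ C) '' (P : Set K)
  have hF : F.Finite := by
    refine (hNfin.image (QuotientGroup.mk : K → K ⧸ C)).subset ?_
    rintro _ ⟨x, hx, rfl⟩
    obtain ⟨m, hm, hmx⟩ := hNsup x hx
    exact ⟨m, hm, QuotientGroup.eq.mpr hmx⟩
  obtain ⟨q, hq⟩ := exists_rep_finite hF
  let r₁ : URep K := ⟨q.n, q.ρ.comp (QuotientGroup.mk' C), q.cont.comp QuotientGroup.continuous_mk⟩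
  obtain ⟨t, ht⟩ := exists_inf_ker r r₁
  refine ⟨t, ?_⟩
  rw [ht]
  apply le_antisymm
  · rintro x ⟨⟨hx1, hx2⟩, hx3⟩
    have hxP : x ∈ P := ⟨hx1, hx3⟩
    have h1 : q.ρ (QuotientGroup.mk x) = 1 := hx2
    have h2 := hq (QuotientGroup.mk x) ⟨x, hxP, rfl⟩ h1
    exact (QuotientGroup.eq_one_iff x).mp h2
  · intro x hx
    have hxP : x ∈ P := hCP hx
    refine ⟨⟨hxP.1, ?_⟩, hxP.2⟩
    change q.ρ (QuotientGroup.mk x) = 1
    have h1 : (QuotientGroup.mk x : K ⧸ C) = 1 := (QuotientGroup.eq_one_iff x).mpr hx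
    rw [h1, map_one]

/-- Lemma A. -/
theorem exists_rep_faithful_on_abelian
    (hfin : ∀ N : Subgroup K, N.Normal → IsClosed (N : Set K) → idComp N = ⊥ →
      (N : Set K).Finite)
    {B : Subgroup K} (hBn : B.Normal) (hBc : IsClosed (B : Set K))
    (hcomm : ∀ x ∈ B, ∀ y ∈ B, x * y = y * x) :
    ∃ r : URep K, r.ρ.ker ⊓ B = ⊥ := by
  by_contra hcon
  push Not at hcon
  -- elements of order two
  let B2 : Subgroup K :=
    { carrier := {x | x ∈ B ∧ x ^ 2 = 1}
      one_mem' := ⟨B.one_mem, by simp⟩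
      mul_mem' := by
        rintro a b ⟨ha, ha'⟩ ⟨hb, hb'⟩
        refine ⟨B.mul_mem ha hb, ?_⟩
        have hab : Commute a b := hcomm a ha b hb
        rw [hab.mul_pow, ha', hb', mul_one]
      inv_mem' := by
        rintro a ⟨ha, ha'⟩
        exact ⟨B.inv_mem ha, by rw [inv_pow, ha', inv_one]⟩ }
  have hB2n : B2.Normal := by
    constructor
    rintro x ⟨hx, hx'⟩ g
    refine ⟨hBn.conj_mem x hx g, ?_⟩
    rw [conj_pow, hx']
    simp
  have hB2c : IsClosed (B2 : Set K) := by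
    have h1 : (B2 : Set K) = (B : Set K) ∩ {x | x ^ 2 = 1} := rfl
    rw [h1]
    exact hBc.inter (isClosed_eq (continuous_pow 2) continuous_const)
  have hB2f : (B2 : Set K).Finite :=
    hfin B2 hB2n hB2c (idComp_eq_bot_of_pow 2 two_ne_zero (fun x hx => hx.2))
  obtain ⟨r, hr⟩ := exists_rep_finite hB2f
  -- B₁
  obtain ⟨r₁, hr₁⟩ := exists_rep_ker_inf_eq_idComp hfin hBn hBc hcomm r
  set B₁ := idComp (r.ρ.ker ⊓ B) with hB₁
  have hB₁c : IsClosed (B₁ : Set K) := isClosed_idComp ((isClosed_ker r).inter hBc)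
  have hB₁r : B₁ ≤ r.ρ.ker ⊓ B := idComp_le _
  have hB₁ne : B₁ ≠ ⊥ := by
    rw [← hr₁]
    exact hcon r₁
  obtain ⟨⟨x₁, hx₁⟩, hx₁1'⟩ := Subgroup.ne_bot_iff_exists_ne_one.mp hB₁ne
  have hx₁1 : x₁ ≠ 1 := fun h => hx₁1' (Subtype.ext h)
  obtain ⟨s, hs⟩ := exists_rep_ne_one hx₁1
  obtain ⟨r₂, hr₂⟩ := exists_inf_ker r₁ s
  obtain ⟨r₃, hr₃⟩ := exists_rep_ker_inf_eq_idComp hfin hBn hBc hcomm r₂
  set B₃ := idComp (r₂.ρ.ker ⊓ B) with hB₃
  have hB₃c : IsClosed (B₃ : Set K) := isClosed_idComp ((isClosed_ker r₂).inter hBc)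
  have hB₃le : B₃ ≤ r₂.ρ.ker ⊓ B := idComp_le _
  have hB₃B₁ : B₃ ≤ B₁ := by
    intro x hx
    have h1 := hB₃le hx
    rw [← hr₁]
    refine ⟨?_, h1.2⟩
    have h2 : x ∈ r₂.ρ.ker := h1.1
    rw [hr₂] at h2
    exact h2.1
  -- the image of B₁ under r₃ is infinite
  have himg : (B₁.map r₃.ρ : Set (Matrix.unitaryGroup (Fin r₃.n) ℂ)).Infinite := by
    have hpre : IsPreconnected (B₁.map r₃.ρ : Set (Matrix.unitaryGroup (Fin r₃.n) ℂ)) :=
      (isPreconnected_idComp _).image _ r₃.cont.continuousOn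
    apply hpre.infinite_of_nontrivial
    refine ⟨1, Subgroup.one_mem _, r₃.ρ x₁, ⟨x₁, hx₁, rfl⟩, ?_⟩
    intro h1
    have h2 : x₁ ∈ r₃.ρ.ker ⊓ B := ⟨h1.symm, (hB₁r hx₁).2⟩
    rw [hr₃] at h2
    have h3 := (hB₃le h2).1
    rw [hr₂] at h3
    exact hs h3.2
  obtain ⟨_, ⟨x, hx, rfl⟩, hne, hsq⟩ := exists_involution (isClosed_map hB₁c r₃) himg
  have hxB : x ∈ B := (hB₁r hx).2
  have hx2 : x ^ 2 ∈ B₃ := by
    rw [← hr₃]
    refine ⟨?_, B.pow_mem hxB 2⟩
    change r₃.ρ (x ^ 2) = 1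
    rw [map_pow, hsq]
  obtain ⟨y, hy, hyx⟩ := exists_pow_eq hB₃c (isPreconnected_idComp _)
    (fun a ha b hb => hcomm a (hB₃le ha).2 b (hB₃le hb).2) 2 two_ne_zero hx2
  have hyB : y ∈ B := (hB₃le hy).2
  have hyB₁ : y ∈ B₁ := hB₃B₁ hy
  have hcyx : Commute y⁻¹ x := hcomm _ (B.inv_mem hyB) _ hxB
  have ht2 : (y⁻¹ * x) ^ 2 = 1 := by
    rw [hcyx.mul_pow, inv_pow, hyx, inv_mul_cancel]
  have htB₁ : y⁻¹ * x ∈ B₁ := B₁.mul_mem (B₁.inv_mem hyB₁) hx
  have ht1 : y⁻¹ * x = 1 :=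
    hr _ ⟨B.mul_mem (B.inv_mem hyB) hxB, ht2⟩ (hB₁r htB₁).1
  apply hne
  have h5 : x = y := (inv_mul_eq_one.mp ht1).symm
  rw [h5]
  have h6 : y ∈ r₃.ρ.ker ⊓ B := by rw [hr₃]; exact hy
  exact h6.1

end

end Pool.Agent.MP55
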