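import Mathlib
import Pool.Agent.Work.MP_55ec57_gt.Abelian

/-!
A countably compact group which is dense and essential in a compact group and has property Z
admits a faithful finite dimensional unitary representation.
-/

set_option autoImplicit false
set_option linter.unusedSectionVars false
set_option linter.style.haveILetI false

open Filter Topology NormedSpace
open scoped Matrix.Norms.L2Operator

namespace Pool.Agent.MP55

/-- the topology has a base of clopen sets -/
def HasClopenBase (X : Type*) [TopologicalSpace X] : Prop :=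
  ∃ B : Set (Set X), TopologicalSpace.IsTopologicalBasis B ∧ ∀ s ∈ B, IsClopen s

/-- property Z: every closed zero-dimensional subgroup is discrete -/
def PropertyZ (G : Type*) [Group G] [TopologicalSpace G] : Prop :=
  ∀ H : Subgroup G, IsClosed (H : Set G) → HasClopenBase H → DiscreteTopology H

section

universe u

variable {G : Type u} [Group G] [TopologicalSpace G] [IsTopologicalGroup G] [T2Space G]
  [CountablyCompactSpace G]

lemma finite_of_discrete_closed (H : Subgroup G) (hH : IsClosed (H : Set G))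
    (hd : DiscreteTopology H) : (H : Set G).Finite := by
  by_contra hinf
  have hcc : IsCountablyCompact (H : Set G) := hH.isCountablyCompact
  obtain ⟨a, haH, ha⟩ := hcc.exists_accPt_of_infinite Set.Subset.rfl hinf
  have h1 := (isDiscrete_iff_discreteTopology.mpr hd)
  rw [accPt_iff_nhds] at ha
  have h2 : ∃ U ∈ 𝓝 a, U ∩ (H : Set G) ⊆ {a} := by
    have h3 : ({⟨a, haH⟩} : Set H) ∈ 𝓝 (⟨a, haH⟩ : H) := (isOpen_discrete _).mem_nhds rfl
    rw [nhds_subtype_eq_comap, mem_comap] at h3
    obtain ⟨U, hU, hUs⟩ := h3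
    refine ⟨U, hU, ?_⟩
    rintro x ⟨hxU, hxH⟩
    have h4 : (⟨x, hxH⟩ : H) ∈ ({⟨a, haH⟩} : Set H) := hUs hxU
    exact congrArg Subtype.val h4
  obtain ⟨U, hU, hUs⟩ := h2
  obtain ⟨y, hy, hne⟩ := ha U hU
  exact hne (hUs hy)

variable {K : Type u} [Group K] [TopologicalSpace K] [IsTopologicalGroup K] [CompactSpace K]
  [T2Space K]

lemma finite_comap_of_idComp (hZ : PropertyZ G) {ι : G →* K} (hι : IsEmbedding ι)
    {T : Subgroup K} (hT : IsClosed (T : Set K)) (hT0 : idComp T = ⊥) :
    {g : G | ι g ∈ T}.Finite := by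
  let H : Subgroup G := T.comap ι
  have hHc : IsClosed (H : Set G) := hT.preimage hι.continuous
  haveI : CompactSpace T := isCompact_iff_compactSpace.mp hT.isCompact
  haveI : TotallyDisconnectedSpace T :=
    totallyDisconnectedSpace_subtype_iff.mpr (isTotallyDisconnected_of_idComp hT0)
  have hb : TopologicalSpace.IsTopologicalBasis {s : Set T | IsClopen s} := isTopologicalBasis_isClopen
  let j : H → T := fun h => ⟨ι h, h.2⟩
  have hj : IsInducing j := by
    have h1 : IsInducing (Subtype.val ∘ j) := by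
      have : (Subtype.val ∘ j) = ι ∘ (Subtype.val : H → G) := rfl
      rw [this]
      exact hι.isInducing.comp IsInducing.subtypeVal
    exact IsInducing.of_comp (by
      refine Continuous.subtype_mk (hι.continuous.comp continuous_subtype_val) _)
      continuous_subtype_val h1
  have hcl : HasClopenBase H := by
    refine ⟨_, hb.isInducing hj, ?_⟩
    rintro _ ⟨s, hs, rfl⟩
    exact hs.preimage hj.continuous
  exact finite_of_discrete_closed H hHc (hZ H hHc hcl)

/-- (1') -/
lemma exists_rep_of_finite {ι : G →* K}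
    (hess : ∀ N : Subgroup K, N.Normal → IsClosed (N : Set K) → (∀ g : G, ι g ∈ N → g = 1) → N = ⊥)
    (hinj : Function.Injective ι)
    {N : Subgroup K} (hNn : N.Normal) (hN : IsClosed (N : Set K)) (hf : {g : G | ι g ∈ N}.Finite) :
    ∃ r : URep K, r.ρ.ker ⊓ N = ⊥ := by
  obtain ⟨r, hr⟩ := exists_rep_finite (hf.image ι)
  refine ⟨r, hess _ inferInstance ((isClosed_ker r).inter hN) ?_⟩
  rintro g ⟨hg1, hg2⟩
  have h1 := hr (ι g) ⟨g, hg2, rfl⟩ hg1
  exact hinj (by rw [h1, map_one])

/-- A closed totally disconnected subgroup on which some representation is injective is finite. -/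
lemma finite_of_rep {N : Subgroup K} (hN : IsClosed (N : Set K)) (hN0 : idComp N = ⊥)
    {r : URep K} (hr : r.ρ.ker ⊓ N = ⊥) : (N : Set K).Finite := by
  have h1 : idComp (N.map r.ρ) = ⊥ := by
    rw [← map_idComp r.ρ r.cont hN, hN0, Subgroup.map_bot]
  have h2 : (N.map r.ρ : Set (Matrix.unitaryGroup (Fin r.n) ℂ)).Finite := by
    obtain ⟨n, hn, hpow⟩ := exists_pow_mem_idComp (isClosed_map hN r)
    apply finite_of_isTotallyDisconnected (isClosed_map hN r)
    exact isTotallyDisconnected_of_idComp h1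
  refine Set.Finite.of_finite_image h2 ?_
  intro x hx y hy hxy
  have h3 : x * y⁻¹ ∈ r.ρ.ker ⊓ N := by
    refine ⟨?_, N.mul_mem hx (N.inv_mem hy)⟩
    change r.ρ (x * y⁻¹) = 1
    rw [map_mul, hxy, ← map_mul, mul_inv_cancel, map_one]
  rw [hr, Subgroup.mem_bot] at h3
  exact mul_inv_eq_one.mp h3

/-- (1) -/
lemma finite_of_normal (hZ : PropertyZ G) {ι : G →* K} (hι : IsEmbedding ι)
    (hess : ∀ N : Subgroup K, N.Normal → IsClosed (N : Set K) → (∀ g : G, ι g ∈ N → g = 1) → N = ⊥)
    (N : Subgroup K) (hNn : N.Normal) (hN : IsClosed (N : Set K)) (hN0 : idComp N = ⊥) :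
    (N : Set K).Finite := by
  obtain ⟨r, hr⟩ := exists_rep_of_finite hess hι.injective hNn hN
    (finite_comap_of_idComp hZ hι hN hN0)
  exact finite_of_rep hN hN0 hr

/-- center of a subgroup as a subgroup of the ambient group -/
def zc (M : Subgroup K) : Subgroup K := M ⊓ Subgroup.centralizer (M : Set K)

lemma zc_normal {M : Subgroup K} (hM : M.Normal) : (zc M).Normal := by
  unfold zc
  haveI := hM
  infer_instance

lemma zc_closed {M : Subgroup K} (hM : IsClosed (M : Set K)) : IsClosed (zc M : Set K) :=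
  hM.inter (Set.isClosed_centralizer _)

lemma zc_comm {M : Subgroup K} : ∀ x ∈ zc M, ∀ y ∈ zc M, x * y = y * x := by
  intro x hx y hy
  exact (Subgroup.mem_centralizer_iff.mp hy.2) x hx.1

/-- the inductive step -/
lemma step (hZ : PropertyZ G) {ι : G →* K} (hι : IsEmbedding ι) (hd : DenseRange ι)
    (hess : ∀ N : Subgroup K, N.Normal → IsClosed (N : Set K) → (∀ g : G, ι g ∈ N → g = 1) → N = ⊥)
    (hnl : ∀ r : URep K, r.ρ.ker ≠ ⊥) (r₀ : URep K)
    (hr₀ : r₀.ρ.ker ⊓ zc (idComp (⊤ : Subgroup K)) = ⊥)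
    (r : URep K) (hr : r.ρ.ker ≤ r₀.ρ.ker) :
    ∃ (r' : URep K) (t : G), r'.ρ.ker ≤ r.ρ.ker ∧ ι t ∈ idComp r.ρ.ker ∧ ι t ∉ r'.ρ.ker ∧
      t ^ 2 = 1 ∧ ∀ x ∈ idComp r'.ρ.ker, x * ι t = ι t * x := by
  have hfin := finite_of_normal hZ hι hess
  set K₀ := idComp (⊤ : Subgroup K) with hK₀
  have hK₀c : IsClosed (K₀ : Set K) := isClosed_idComp isClosed_univ
  set L := idComp r.ρ.ker with hL
  have hLc : IsClosed (L : Set K) := isClosed_idComp (isClosed_ker r)
  haveI hLn : L.Normal := inferInstance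
  have hLr : L ≤ r.ρ.ker := idComp_le _
  have hLK₀ : L ≤ K₀ := idComp_mono le_top
  -- L is not trivial
  have hLne : L ≠ ⊥ := by
    intro h
    have h1 := hfin r.ρ.ker inferInstance (isClosed_ker r) h
    obtain ⟨s, hs⟩ := exists_rep_finite h1
    obtain ⟨t, ht⟩ := exists_inf_ker r s
    apply hnl t
    rw [ht, eq_bot_iff]
    rintro x ⟨hx1, hx2⟩
    exact hs x hx1 hx2
  obtain ⟨⟨x₀, hx₀⟩, hx₀1'⟩ := Subgroup.ne_bot_iff_exists_ne_one.mp hLne
  have hx₀1 : x₀ ≠ 1 := fun h => hx₀1' (Subtype.ext h)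
  obtain ⟨s, hs⟩ := exists_rep_ne_one hx₀1
  let M : Subgroup K := L ⊓ s.ρ.ker
  haveI hMn : M.Normal := inferInstance
  have hMc : IsClosed (M : Set K) := hLc.inter (isClosed_ker s)
  let C : Subgroup K := L ⊓ Subgroup.centralizer (M : Set K)
  haveI hCn : C.Normal := inferInstance
  have hCc : IsClosed (C : Set K) := hLc.inter (Set.isClosed_centralizer _)
  -- C is not trivial
  have hCne : C ≠ ⊥ := by
    intro h
    obtain ⟨m, hm, hmx⟩ := exists_mul_mem_centralizer hLc (isPreconnected_idComp _) hMc inf_le_left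
      (fun l _ m hm => hMn.conj_mem m hm l) hx₀
    have h1 : m⁻¹ * x₀ ∈ C := by
      refine ⟨L.mul_mem (L.inv_mem hm.1) hx₀, Subgroup.mem_centralizer_iff.mpr ?_⟩
      intro m' hm'
      exact (hmx m' hm').symm
    rw [h, Subgroup.mem_bot, inv_mul_eq_one] at h1
    rw [← h1] at hs
    exact hs hm.2
  -- s is injective on C
  have hzM : ∀ z ∈ C, s.ρ z = 1 → z = 1 := by
    intro z hz hsz
    have hzM : z ∈ zc M := ⟨⟨hz.1, hsz⟩, hz.2⟩
    have h1 : z ∈ zc K₀ := by
      refine ⟨hLK₀ hz.1, Subgroup.mem_centralizer_iff.mpr ?_⟩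
      intro x hx
      exact central_of_abelian hK₀c (isPreconnected_idComp _) (zc_closed hMc)
        (inf_le_left.trans (inf_le_left.trans hLK₀))
        (fun l _ m hm => (zc_normal hMn).conj_mem m hm l) zc_comm x hx z hzM
    have h2 : z ∈ r₀.ρ.ker ⊓ zc K₀ := ⟨hr (hLr hz.1), h1⟩
    rw [hr₀] at h2
    exact h2
  -- D
  let D : Subgroup G := C.comap ι
  have hDc : IsClosed (D : Set G) := hCc.preimage hι.continuous
  have hDinf : (D : Set G).Infinite := by
    intro hDf
    apply hCne
    apply hess C hCn hCc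
    intro g hg
    -- the finite normal subgroup ι D
    have hfinset : (ι '' (D : Set G)).Finite := hDf.image ι
    have hconj : ∀ k : K, ∀ d ∈ ι '' (D : Set G), k * d * k⁻¹ ∈ ι '' (D : Set G) := by
      intro k d hd'
      have hcl : IsClosed {k : K | k * d * k⁻¹ ∈ ι '' (D : Set G)} :=
        hfinset.isClosed.preimage (by fun_prop : Continuous fun k : K => k * d * k⁻¹)
      have hsub : Set.range ι ⊆ {k : K | k * d * k⁻¹ ∈ ι '' (D : Set G)} := by
        rintro _ ⟨a, rfl⟩
        obtain ⟨b, hb, rfl⟩ := hd'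
        refine ⟨a * b * a⁻¹, ?_, by simp⟩
        change ι (a * b * a⁻¹) ∈ C
        rw [map_mul, map_mul, map_inv]
        exact hCn.conj_mem _ hb _
      have h2 : closure (Set.range ι) ⊆ {k : K | k * d * k⁻¹ ∈ ι '' (D : Set G)} :=
        closure_minimal hsub hcl
      rw [hd.closure_range] at h2
      exact h2 (Set.mem_univ k)
    have hgD : ι g ∈ ι '' (D : Set G) := ⟨g, hg, rfl⟩
    have hcent : ∀ k ∈ K₀, k * ι g * k⁻¹ = ι g := by
      intro k hk
      have hp : IsPreconnected ((fun k : K => k * ι g * k⁻¹) '' (K₀ : Set K)) :=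
        (isPreconnected_idComp _).image _ (by fun_prop)
      have hfin' : ((fun k : K => k * ι g * k⁻¹) '' (K₀ : Set K)).Finite := by
        refine hfinset.subset ?_
        rintro _ ⟨k, _, rfl⟩
        exact hconj k _ hgD
      have hss : ((fun k : K => k * ι g * k⁻¹) '' (K₀ : Set K)).Subsingleton := by
        by_contra hns
        exact hp.infinite_of_nontrivial (Set.not_subsingleton_iff.mp hns) hfin'
      have := hss ⟨k, hk, rfl⟩ ⟨1, K₀.one_mem, rfl⟩
      simpa using this
    have h3 : ι g ∈ zc K₀ := by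
      refine ⟨hLK₀ hg.1, Subgroup.mem_centralizer_iff.mpr ?_⟩
      intro k hk
      have := hcent k hk
      rw [mul_inv_eq_iff_eq_mul] at this
      exact this
    have h4 : ι g ∈ r₀.ρ.ker ⊓ zc K₀ := ⟨hr (hLr hg.1), h3⟩
    rw [hr₀, Subgroup.mem_bot] at h4
    exact hι.injective (by rw [h4, map_one])
  -- image of D
  let Hs : Subgroup (Matrix.unitaryGroup (Fin s.n) ℂ) := D.map (s.ρ.comp ι)
  have hHsc : IsClosed (Hs : Set (Matrix.unitaryGroup (Fin s.n) ℂ)) := by
    have h1 : IsCountablyCompact (D : Set G) := hDc.isCountablyCompact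
    have h2 : IsCountablyCompact (Hs : Set (Matrix.unitaryGroup (Fin s.n) ℂ)) :=
      h1.image (s.cont.comp hι.continuous)
    exact h2.isSeqCompact.isCompact.isClosed
  have hHsinf : (Hs : Set (Matrix.unitaryGroup (Fin s.n) ℂ)).Infinite := by
    refine hDinf.image ?_
    intro a ha b hb hab
    have h1 : ι (a * b⁻¹) ∈ C := D.mul_mem ha (D.inv_mem hb)
    have h2 : s.ρ (ι (a * b⁻¹)) = 1 := by
      have hab' : s.ρ (ι a) = s.ρ (ι b) := hab
      rw [map_mul, map_inv, map_mul, map_inv, hab', mul_inv_cancel]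
    have h3 := hzM _ h1 h2
    have h4 : a * b⁻¹ = 1 := hι.injective (by rw [h3, map_one])
    exact mul_inv_eq_one.mp h4
  obtain ⟨_, ⟨t, ht, rfl⟩, hne, hsq⟩ := exists_involution hHsc hHsinf
  have htC : ι t ∈ C := ht
  have hne' : s.ρ (ι t) ≠ 1 := hne
  have hsq' : s.ρ (ι t) ^ 2 = 1 := hsq
  have ht2 : t ^ 2 = 1 := by
    apply hι.injective
    rw [map_one, map_pow]
    apply hzM _ (C.pow_mem htC 2)
    rw [map_pow, hsq']
  obtain ⟨r', hr'⟩ := exists_inf_ker r s
  refine ⟨r', t, ?_, htC.1, ?_, ht2, ?_⟩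
  · rw [hr']; exact inf_le_left
  · rw [hr']
    intro h
    exact hne' h.2
  · intro x hx
    have hxL : x ∈ L := idComp_mono (by rw [hr']; exact inf_le_left) hx
    have hxs : x ∈ s.ρ.ker := by
      have := idComp_le _ hx
      rw [hr'] at this
      exact this.2
    exact (Subgroup.mem_centralizer_iff.mp htC.2) x ⟨hxL, hxs⟩

/-- The completion has a faithful finite dimensional unitary representation. -/
theorem exists_faithful (hZ : PropertyZ G) {ι : G →* K} (hι : IsEmbedding ι) (hd : DenseRange ι)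
    (hess : ∀ N : Subgroup K, N.Normal → IsClosed (N : Set K) → (∀ g : G, ι g ∈ N → g = 1) →
      N = ⊥) :
    ∃ r : URep K, r.ρ.ker = ⊥ := by
  by_contra hnl
  push Not at hnl
  have hfin := finite_of_normal hZ hι hess
  have hK₀c : IsClosed (idComp (⊤ : Subgroup K) : Set K) := isClosed_idComp isClosed_univ
  obtain ⟨r₀, hr₀⟩ := exists_rep_faithful_on_abelian hfin
    (zc_normal (inferInstance : (idComp (⊤ : Subgroup K)).Normal)) (zc_closed hK₀c) zc_comm
  have hstep : ∀ r : {r : URep K // r.ρ.ker ≤ r₀.ρ.ker}, ∃ (r' : {r : URep K // r.ρ.ker ≤ r₀.ρ.ker})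
      (t : G), r'.1.ρ.ker ≤ r.1.ρ.ker ∧ ι t ∈ idComp r.1.ρ.ker ∧ ι t ∉ r'.1.ρ.ker ∧
      t ^ 2 = 1 ∧ ∀ x ∈ idComp r'.1.ρ.ker, x * ι t = ι t * x := by
    intro r
    obtain ⟨r', t, h1, h2, h3, h4, h5⟩ := step hZ hι hd hess hnl r₀ hr₀ r.1 r.2
    exact ⟨⟨r', h1.trans r.2⟩, t, h1, h2, h3, h4, h5⟩
  choose next tt hnext htmem htnot htsq htcomm using hstep
  let R : ℕ → {r : URep K // r.ρ.ker ≤ r₀.ρ.ker} := fun j =>
    Nat.rec ⟨r₀, le_rfl⟩ (fun _ r => next r) j
  have hR : ∀ j, R (j + 1) = next (R j) := fun j => rfl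
  let t : ℕ → G := fun j => tt (R j)
  have hRanti : Antitone fun j => (R j).1.ρ.ker := by
    refine antitone_nat_of_succ_le fun j => ?_
    rw [hR]
    exact hnext _
  have htinj : Function.Injective t := by
    have key : ∀ i j, i < j → t i ≠ t j := by
      intro i j hij heq
      have h1 : ι (t j) ∈ (R j).1.ρ.ker := idComp_le _ (htmem (R j))
      have h2 : ι (t j) ∈ (R (i + 1)).1.ρ.ker := hRanti hij h1
      rw [← heq] at h2
      rw [hR] at h2
      exact htnot (R i) h2
    intro i j hij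
    rcases lt_trichotomy i j with h | h | h
    · exact absurd hij (key i j h)
    · exact h
    · exact absurd hij.symm (key j i h)
  have htcomm' : ∀ i j, ι (t i) * ι (t j) = ι (t j) * ι (t i) := by
    have key : ∀ i j, i < j → ι (t j) * ι (t i) = ι (t i) * ι (t j) := by
      intro i j hij
      have h1 : ι (t j) ∈ idComp (R j).1.ρ.ker := htmem (R j)
      have h2 : ι (t j) ∈ idComp (R (i + 1)).1.ρ.ker := idComp_mono (hRanti hij) h1
      rw [hR] at h2
      exact htcomm (R i) _ h2
    intro i j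
    rcases lt_trichotomy i j with h | h | h
    · exact (key i j h).symm
    · rw [h]
    · exact key j i h
  -- the elementary abelian group
  let T₀ : Subgroup K := Subgroup.closure (Set.range fun j => ι (t j))
  have hT₀comm : ∀ x y : T₀, x * y = y * x := by
    have : IsMulCommutative T₀ := Subgroup.isMulCommutative_closure (by
      rintro _ ⟨i, rfl⟩ _ ⟨j, rfl⟩
      exact htcomm' i j)
    intro x y
    exact mul_comm' x y
  let T : Subgroup K := T₀.topologicalClosure
  have hTc : IsClosed (T : Set K) := T₀.isClosed_topologicalClosure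
  have hT₀sq : ∀ x ∈ T₀, x ^ 2 = 1 := by
    intro x hx
    induction hx using Subgroup.closure_induction with
    | mem x hx =>
      obtain ⟨j, rfl⟩ := hx
      change ι (t j) ^ 2 = 1
      rw [← map_pow, htsq (R j), map_one]
    | one => simp
    | mul x y hx hy hx' hy' =>
      have hxy : Commute x y := congrArg Subtype.val (hT₀comm ⟨x, hx⟩ ⟨y, hy⟩)
      rw [hxy.mul_pow, hx', hy', mul_one]
    | inv x hx hx' => rw [inv_pow, hx', inv_one]
  have hTsq : ∀ x ∈ T, x ^ 2 = 1 := by
    have hcl : IsClosed {x : K | x ^ 2 = 1} := isClosed_eq (continuous_pow 2) continuous_const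
    exact fun x hx => closure_minimal hT₀sq hcl hx
  have hT0 : idComp T = ⊥ := idComp_eq_bot_of_pow 2 two_ne_zero hTsq
  have hfinT := finite_comap_of_idComp hZ hι hTc hT0
  have hsub : Set.range t ⊆ {g : G | ι g ∈ T} := by
    rintro _ ⟨j, rfl⟩
    exact T₀.le_topologicalClosure (Subgroup.subset_closure ⟨j, rfl⟩)
  exact Set.infinite_range_of_injective htinj (hfinT.subset hsub)

end

end Pool.Agent.MP55
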