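import Mathlib
import Pool.Agent.Work.MP_55ec57_gt.Main
import Pool.Agent.Work.MP_55ec57_gt.Completion

/-!
Countably compact minimal groups with property Z are compact and have a faithful finite
dimensional unitary representation.
-/

set_option autoImplicit false
set_option linter.unusedSectionVars false
set_option linter.style.haveILetI false

open Filter Topology

namespace Pool.Agent.MP55

universe u

/-- A topological group `G` is minimal if every continuous group isomorphism from `G` onto a
Hausdorff topological group is a homeomorphism. -/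
def IsMinimalGroup (G : Type u) [Group G] [TopologicalSpace G] : Prop :=
  ∀ (H : Type u) [Group H] [TopologicalSpace H] [IsTopologicalGroup H] [T2Space H] (f : G ≃* H),
    Continuous f → IsHomeomorph f

variable {G : Type u} [Group G] [TopologicalSpace G] [IsTopologicalGroup G] [T2Space G]

/-- minimal dense subgroups are essential -/
lemma essential_of_minimal (hmin : IsMinimalGroup G)
    {K : Type u} [Group K] [TopologicalSpace K] [IsTopologicalGroup K] [CompactSpace K]
    [T2Space K] {ι : G →* K} (hι : IsEmbedding ι) (hd : DenseRange ι)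
    (N : Subgroup K) (hNn : N.Normal) (hN : IsClosed (N : Set K))
    (htriv : ∀ g : G, ι g ∈ N → g = 1) : N = ⊥ := by
  haveI : T2Space (K ⧸ N) := by
    haveI : IsClosed (N : Set K) := hN
    infer_instance
  let q : G →* K ⧸ N := (QuotientGroup.mk' N).comp ι
  have hq : Continuous q := QuotientGroup.continuous_mk.comp hι.continuous
  have hqinj : Function.Injective q := by
    rw [injective_iff_map_eq_one]
    intro g hg
    exact htriv g ((QuotientGroup.eq_one_iff _).mp hg)
  let f : G ≃* q.range := MonoidHom.ofInjective hqinj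
  have hf : Continuous f := by
    rw [continuous_induced_rng]
    exact hq
  have hhomeo := hmin q.range f hf
  rw [eq_bot_iff]
  intro n hn
  rw [Subgroup.mem_bot]
  -- filter on G converging to n
  haveI : NeBot (comap ι (𝓝 n)) :=
    (IsDenseInducing.mk hι.isInducing hd).comap_nhds_neBot n
  have h1 : Tendsto ι (comap ι (𝓝 n)) (𝓝 n) := tendsto_comap
  have h2 : Tendsto q (comap ι (𝓝 n)) (𝓝 1) := by
    have h3 : Tendsto (fun k : K => (QuotientGroup.mk k : K ⧸ N)) (𝓝 n) (𝓝 (QuotientGroup.mk n)) :=
      QuotientGroup.continuous_mk.tendsto n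
    have h4 : (QuotientGroup.mk n : K ⧸ N) = 1 := (QuotientGroup.eq_one_iff n).mpr hn
    rw [h4] at h3
    exact h3.comp h1
  have h5 : Tendsto f (comap ι (𝓝 n)) (𝓝 (f 1)) := by
    rw [nhds_subtype_eq_comap, tendsto_comap_iff]
    have h6 : ((f 1 : q.range) : K ⧸ N) = 1 := by rw [map_one]; rfl
    rw [h6]
    exact h2
  have h7 : Tendsto (fun g : G => g) (comap ι (𝓝 n)) (𝓝 1) := by
    have h8 := hhomeo.isEmbedding.isInducing
    rw [h8.tendsto_nhds_iff]
    exact h5
  have h9 : Tendsto ι (comap ι (𝓝 n)) (𝓝 1) := by
    have h10 := (hι.continuous.tendsto 1).comp h7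
    rw [map_one] at h10
    exact h10
  exact tendsto_nhds_unique h1 h9

theorem compact_and_faithful [CountablyCompactSpace G] (hmin : IsMinimalGroup G)
    (hZ : PropertyZ G) :
    CompactSpace G ∧ ∃ (n : ℕ) (ρ : G →* Matrix.unitaryGroup (Fin n) ℂ), Continuous ρ ∧
      Function.Injective ρ := by
  obtain ⟨K, _, _, _, _, _, ι, hι, hd⟩ :=
    Pool.Agent.Work.MP_55ec57_gt.Completion.completion_of_countablyCompact G
  obtain ⟨r, hr⟩ := exists_faithful hZ hι hd
    (fun N hNn hN ht => essential_of_minimal hmin hι hd N hNn hN ht)
  have hrinj : Function.Injective r.ρ := (MonoidHom.ker_eq_bot_iff _).mp hr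
  have hc : Continuous (r.ρ.comp ι) := r.cont.comp hι.continuous
  have hcl : IsClosed (Set.range (r.ρ.comp ι)) := by
    have h1 : IsCountablyCompact (Set.univ : Set G) := CountablyCompactSpace.isCountablyCompact_univ
    have h2 : IsCountablyCompact (Set.range (r.ρ.comp ι)) := by
      rw [← Set.image_univ]
      exact h1.image hc
    open scoped Matrix.Norms.L2Operator in
    exact h2.isSeqCompact.isCompact.isClosed
  have hsurj : Function.Surjective ι := by
    have h3 : IsClosed (Set.range ι) := by
      have h4 : Set.range ι = r.ρ ⁻¹' (Set.range (r.ρ.comp ι)) := by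
        ext k
        constructor
        · rintro ⟨g, rfl⟩
          exact ⟨g, rfl⟩
        · rintro ⟨g, hg⟩
          exact ⟨g, hrinj hg⟩
      rw [h4]
      exact hcl.preimage r.cont
    intro k
    have h5 : k ∈ closure (Set.range ι) := hd k
    rw [h3.closure_eq] at h5
    exact h5
  have hhomeo : G ≃ₜ K := hι.toHomeomorphOfSurjective hsurj
  refine ⟨hhomeo.symm.compactSpace, r.n, r.ρ.comp ι, hc, hrinj.comp hι.injective⟩

end Pool.Agent.MP55
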