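import Mathlib

set_option linter.unusedSectionVars false
set_option linter.style.haveILetI false

open scoped ContDiff Manifold Topology
open NormedSpace Filter Set

namespace Pool.Agent.Work.MP_55ec57_gt.LieStructure

section Algebra

variable {𝔸 : Type*} [NormedRing 𝔸] [NormedAlgebra ℝ 𝔸] [CompleteSpace 𝔸]

lemma exp_add_smul' (X : 𝔸) (s t : ℝ) : exp ((s + t) • X) = exp (s • X) * exp (t • X) := by
  letI := NormedAlgebra.restrictScalars ℚ ℝ 𝔸
  rw [add_smul]
  exact exp_add_of_commute ((Commute.refl X).smul_left s |>.smul_right t)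

lemma exp_zero' : exp (0 : 𝔸) = 1 := by
  letI := NormedAlgebra.restrictScalars ℚ ℝ 𝔸
  exact exp_zero

lemma exp_nat_smul (X : 𝔸) (k : ℕ) (t : ℝ) : exp ((k * t) • X) = exp (t • X) ^ k := by
  induction k with
  | zero => simp
  | succ k ih =>
    have : ((k + 1 : ℕ) : ℝ) * t = k * t + t := by push_cast; ring
    rw [this, exp_add_smul', ih, pow_succ]

lemma exp_mul_exp_neg (X : 𝔸) : exp X * exp (-X) = 1 := by
  have := exp_add_smul' X 1 (-1)
  simpa [exp_zero'] using this.symm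

lemma exp_neg_mul_exp (X : 𝔸) : exp (-X) * exp X = 1 := by
  have := exp_add_smul' X (-1) 1
  simpa [exp_zero'] using this.symm

/-- A compact (or bounded closed) multiplicative submonoid of `𝔸`, closed under inverses. -/
structure IsCpt (H : Set 𝔸) : Prop where
  closed : IsClosed H
  bdd : Bornology.IsBounded H
  one : (1 : 𝔸) ∈ H
  mul : ∀ {x y}, x ∈ H → y ∈ H → x * y ∈ H
  inv : ∀ {x y}, x ∈ H → x * y = 1 → y ∈ H

/-- The Lie algebra. -/
def lieSet (H : Set 𝔸) : Set 𝔸 := {X | ∀ t : ℝ, exp (t • X) ∈ H}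

lemma IsCpt.pow {H : Set 𝔸} (h : IsCpt H) {x : 𝔸} (hx : x ∈ H) (k : ℕ) : x ^ k ∈ H := by
  induction k with
  | zero => simpa using h.one
  | succ k ih => rw [pow_succ]; exact h.mul ih hx

lemma pow_sub_pow_eq (a b : 𝔸) (k : ℕ) :
    a ^ k - b ^ k = ∑ i ∈ Finset.range k, a ^ i * (a - b) * b ^ (k - 1 - i) := by
  induction k with
  | zero => simp
  | succ k ih =>
    have h1 : a ^ (k + 1) - b ^ (k + 1) = (a ^ k - b ^ k) * b + a ^ k * (a - b) := by
      rw [pow_succ, pow_succ, mul_sub, sub_mul]; abel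
    rw [h1, ih, Finset.sum_range_succ, Finset.sum_mul]
    congr 1
    · apply Finset.sum_congr rfl
      intro i hi
      have hi' := Finset.mem_range.1 hi
      rw [mul_assoc, ← pow_succ]
      congr 2
      omega
    · simp

lemma norm_pow_sub_pow_le {a b : 𝔸} {M N : ℝ} (k : ℕ) (ha : ∀ i, ‖a ^ i‖ ≤ M)
    (hb : ∀ i ≤ k, ‖b ^ i‖ ≤ N) : ‖a ^ k - b ^ k‖ ≤ k * (M * ‖a - b‖ * N) := by
  rw [pow_sub_pow_eq]
  refine (norm_sum_le _ _).trans ?_
  have hM : 0 ≤ M := (norm_nonneg _).trans (ha 0)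
  have : ∀ i ∈ Finset.range k, ‖a ^ i * (a - b) * b ^ (k - 1 - i)‖ ≤ M * ‖a - b‖ * N := by
    intro i _
    refine (norm_mul_le _ _).trans ?_
    refine mul_le_mul ((norm_mul_le _ _).trans ?_) (hb _ (by omega)) (norm_nonneg _) (by positivity)
    exact mul_le_mul_of_nonneg_right (ha i) (norm_nonneg _)
  refine (Finset.sum_le_sum this).trans ?_
  simp

lemma continuous_exp_smul (X : 𝔸) : Continuous (fun s : ℝ => exp (s • X)) :=
  continuous_iff_continuousAt.2 fun s => (hasDerivAt_exp_smul_const (𝕂 := ℝ) X s).continuousAt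

lemma exp_smul_sub_one_div (X : 𝔸) :
    Tendsto (fun s : ℝ => s⁻¹ • (exp (s • X) - 1)) (𝓝[≠] 0) (𝓝 X) := by
  have h := hasDerivAt_exp_smul_const (𝕂 := ℝ) X 0
  rw [hasDerivAt_iff_tendsto_slope_zero] at h
  simpa [exp_zero'] using h

/-- The key lemma. -/
lemma mem_lieSet_of_tendsto {H : Set 𝔸} (h : IsCpt H) {ι : Type*} {l : Filter ι} [l.NeBot]
    {y : ι → 𝔸} {ε : ι → ℝ} (hy : ∀ᶠ j in l, y j ∈ H) (hε : Tendsto ε l (𝓝[>] 0)) {X : 𝔸}
    (hX : Tendsto (fun j => (ε j)⁻¹ • (y j - 1)) l (𝓝 X)) : X ∈ lieSet H := by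
  -- first nonnegative times
  have hpos : ∀ t : ℝ, 0 ≤ t → exp (t • X) ∈ H := by
    intro t ht
    set k : ι → ℕ := fun j => ⌊t / ε j⌋₊ with hk
    obtain ⟨M, hM⟩ := h.bdd.exists_norm_le
    have hε0 : Tendsto ε l (𝓝 0) := hε.mono_right nhdsWithin_le_nhds
    have hεpos : ∀ᶠ j in l, 0 < ε j := hε.eventually self_mem_nhdsWithin
    have hε0' : Tendsto ε l (𝓝[≠] 0) := hε.mono_right (nhdsWithin_mono _ fun x hx => ne_of_gt hx)
    -- k j * ε j → t
    have hkε : Tendsto (fun j => (k j : ℝ) * ε j) l (𝓝 t) := by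
      have h1 : ∀ᶠ j in l, t - ε j ≤ (k j : ℝ) * ε j := by
        filter_upwards [hεpos] with j hj
        have := Nat.lt_floor_add_one (t / ε j)
        rw [div_lt_iff₀ hj] at this
        simp only [hk]
        nlinarith
      have h2 : ∀ᶠ j in l, (k j : ℝ) * ε j ≤ t := by
        filter_upwards [hεpos] with j hj
        have := Nat.floor_le (div_nonneg ht hj.le)
        rw [le_div_iff₀ hj] at this
        exact this
      refine tendsto_of_tendsto_of_tendsto_of_le_of_le' ?_ tendsto_const_nhds h1 h2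
      simpa using tendsto_const_nhds.sub hε0
    -- compare with exp
    have hexp : Tendsto (fun j => exp (((k j : ℝ) * ε j) • X)) l (𝓝 (exp (t • X))) := by
      exact ((continuous_exp_smul X).tendsto t).comp hkε
    have hdiff : Tendsto (fun j => (ε j)⁻¹ • (y j - exp (ε j • X))) l (𝓝 0) := by
      have h1 := (exp_smul_sub_one_div X).comp hε0'
      have h2 := hX.sub h1
      rw [sub_self] at h2
      refine h2.congr fun j => ?_
      simp only [Function.comp]
      rw [← smul_sub]; congr 1; abel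
    have hclose : Tendsto (fun j => y j ^ k j - exp (((k j : ℝ) * ε j) • X)) l (𝓝 0) := by
      rw [tendsto_zero_iff_norm_tendsto_zero]
      obtain ⟨N, hNb⟩ := (isCompact_Icc (a := (0 : ℝ)) (b := t)).exists_bound_of_continuousOn
        (continuous_exp_smul X).continuousOn
      have hb : ∀ᶠ j in l, ‖y j ^ k j - exp (((k j : ℝ) * ε j) • X)‖ ≤
          ((k j : ℝ) * ε j) * (M * N) * ‖(ε j)⁻¹ • (y j - exp (ε j • X))‖ := by
        filter_upwards [hy, hεpos] with j hyj hj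
        rw [exp_nat_smul]
        have hN : ∀ i ≤ k j, ‖exp (ε j • X) ^ i‖ ≤ N := by
          intro i hi
          rw [← exp_nat_smul]
          apply hNb
          refine ⟨by positivity, ?_⟩
          have h3 := Nat.floor_le (div_nonneg ht hj.le)
          rw [le_div_iff₀ hj] at h3
          have h4 : (i : ℝ) ≤ k j := by exact_mod_cast hi
          calc (i : ℝ) * ε j ≤ (k j : ℝ) * ε j := mul_le_mul_of_nonneg_right h4 hj.le
            _ ≤ t := h3
        have h5 := norm_pow_sub_pow_le (k j) (fun i => hM _ (h.pow hyj i)) hN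
        refine h5.trans (le_of_eq ?_)
        rw [norm_smul, Real.norm_of_nonneg (by positivity)]
        field_simp
      refine squeeze_zero' (Eventually.of_forall fun j => norm_nonneg _) hb ?_
      have h6 := (hkε.mul_const (M * N)).mul hdiff.norm
      simpa using h6
    have hlim : Tendsto (fun j => y j ^ k j) l (𝓝 (exp (t • X))) := by
      have := hclose.add hexp
      simpa using this
    exact h.closed.mem_of_tendsto hlim (hy.mono fun j hj => h.pow hj _)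
  intro t
  rcases le_total 0 t with ht | ht
  · exact hpos t ht
  · refine h.inv (hpos (-t) (by linarith)) ?_
    have := exp_mul_exp_neg ((-t) • X)
    simpa using this

end Algebra


section Sub

variable {𝔸 : Type*} [NormedRing 𝔸] [NormedAlgebra ℝ 𝔸] [CompleteSpace 𝔸]

/-- The Lie algebra as a real subspace. -/
def lieSub (H : Set 𝔸) (h : IsCpt H) : Submodule ℝ 𝔸 where
  carrier := lieSet H
  zero_mem' := by
    intro t
    simpa [exp_zero'] using h.one
  smul_mem' := by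
    intro c X hX t
    rw [smul_smul]
    exact hX _
  add_mem' := by
    intro X Y hX hY
    have hd : HasDerivAt (fun s : ℝ => exp (s • X) * exp (s • Y)) (X + Y) 0 := by
      have h1 := hasDerivAt_exp_smul_const (𝕂 := ℝ) X 0
      have h2 := hasDerivAt_exp_smul_const (𝕂 := ℝ) Y 0
      have h3 := h1.fun_mul h2
      simpa [exp_zero'] using h3
    rw [hasDerivAt_iff_tendsto_slope_zero] at hd
    have hd' : Tendsto (fun s : ℝ => s⁻¹ • (exp (s • X) * exp (s • Y) - 1)) (𝓝[>] 0) (𝓝 (X + Y)) := by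
      refine (hd.mono_left (nhdsWithin_mono _ fun x hx => ne_of_gt hx)).congr fun s => ?_
      simp [exp_zero']
    exact mem_lieSet_of_tendsto h (Eventually.of_forall fun s => h.mul (hX s) (hY s))
      tendsto_id hd'

@[simp] lemma mem_lieSub {H : Set 𝔸} (h : IsCpt H) {X : 𝔸} : X ∈ lieSub H h ↔ X ∈ lieSet H := Iff.rfl

lemma contDiff_exp' : ContDiff ℝ ω (exp : 𝔸 → 𝔸) := by
  rw [contDiff_omega_iff_analyticOnNhd]
  intro x _
  exact NormedSpace.exp_analytic x

/-- The local model map. -/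
noncomputable def Phi (π : 𝔸 →L[ℝ] 𝔸) (Z : 𝔸) : 𝔸 := exp (π Z) * exp (Z - π Z)

lemma contDiff_Phi (π : 𝔸 →L[ℝ] 𝔸) : ContDiff ℝ ω (Phi π) :=
  (contDiff_exp'.comp π.contDiff).mul (contDiff_exp'.comp (contDiff_id.sub π.contDiff))

lemma hasFDerivAt_Phi (π : 𝔸 →L[ℝ] 𝔸) :
    HasFDerivAt (Phi π) ((ContinuousLinearEquiv.refl ℝ 𝔸 : 𝔸 ≃L[ℝ] 𝔸) : 𝔸 →L[ℝ] 𝔸) 0 := by
  have he : HasFDerivAt (exp : 𝔸 → 𝔸) (1 : 𝔸 →L[ℝ] 𝔸) 0 := (hasStrictFDerivAt_exp_zero).hasFDerivAt
  have h1 : HasFDerivAt (fun Z => exp (π Z)) ((1 : 𝔸 →L[ℝ] 𝔸).comp π) 0 := by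
    apply HasFDerivAt.comp (g := (exp : 𝔸 → 𝔸))
    · simpa using he
    · exact π.hasFDerivAt
  have h2 : HasFDerivAt (fun Z => exp (Z - π Z))
      ((1 : 𝔸 →L[ℝ] 𝔸).comp (ContinuousLinearMap.id ℝ 𝔸 - π)) 0 := by
    apply HasFDerivAt.comp (g := (exp : 𝔸 → 𝔸)) (f := fun Z => Z - π Z)
    · simpa using he
    · exact (hasFDerivAt_id _).sub π.hasFDerivAt
  have h3 := h1.mul' h2
  refine h3.congr_fderiv ?_
  ext Z
  simp [exp_zero']

lemma Phi_zero (π : 𝔸 →L[ℝ] 𝔸) : Phi π 0 = 1 := by simp [Phi, exp_zero']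

lemma Phi_eq_exp {π : 𝔸 →L[ℝ] 𝔸} {Z : 𝔸} (h : π Z = Z) : Phi π Z = exp Z := by
  simp [Phi, h, exp_zero']

/-- The local inverse of the model map. -/
noncomputable def eloc (π : 𝔸 →L[ℝ] 𝔸) : OpenPartialHomeomorph 𝔸 𝔸 :=
  (contDiff_Phi π).contDiffAt.toOpenPartialHomeomorph (Phi π) (hasFDerivAt_Phi π) (by simp)

lemma eloc_coe (π : 𝔸 →L[ℝ] 𝔸) : (eloc π : 𝔸 → 𝔸) = Phi π := rfl

lemma zero_mem_source (π : 𝔸 →L[ℝ] 𝔸) : (0 : 𝔸) ∈ (eloc π).source :=
  ContDiffAt.mem_toOpenPartialHomeomorph_source _ _ _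

lemma one_mem_target (π : 𝔸 →L[ℝ] 𝔸) : (1 : 𝔸) ∈ (eloc π).target := by
  have := (eloc π).map_source (zero_mem_source π)
  rwa [eloc_coe, Phi_zero] at this

lemma eloc_symm_one (π : 𝔸 →L[ℝ] 𝔸) : (eloc π).symm 1 = 0 := by
  have := (eloc π).left_inv (zero_mem_source π)
  rwa [eloc_coe, Phi_zero] at this

lemma contDiffAt_eloc_symm (π : 𝔸 →L[ℝ] 𝔸) : ContDiffAt ℝ ω (eloc π).symm 1 := by
  have := (contDiff_Phi π).contDiffAt.to_localInverse (hasFDerivAt_Phi π) (n := ω) (by simp)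
  rwa [Phi_zero] at this

/-- Near `1`, the points of `H` have local coordinates in the Lie algebra. -/
lemma eventually_mem_lieSet [FiniteDimensional ℝ 𝔸] {H : Set 𝔸} (h : IsCpt H) {π : 𝔸 →L[ℝ] 𝔸}
    (hπ : ∀ Z, π Z ∈ lieSet H) (hπ' : ∀ Z ∈ lieSet H, π Z = Z) :
    ∀ᶠ y in 𝓝 (1 : 𝔸), y ∈ H → π ((eloc π).symm y) = (eloc π).symm y := by
  by_contra hcon
  rw [not_eventually] at hcon
  -- a sequence of bad points
  have hnhds : ∀ᶠ y in 𝓝 (1 : 𝔸), y ∈ (eloc π).target := (eloc π).open_target.mem_nhds (one_mem_target π)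
  have hfr : ∃ᶠ y in 𝓝 (1 : 𝔸), (y ∈ H ∧ π ((eloc π).symm y) ≠ (eloc π).symm y) ∧ y ∈ (eloc π).target :=
    (hcon.mono (by intro y hy; push Not at hy; exact hy)).and_eventually hnhds
  obtain ⟨y, hylim, hy⟩ := exists_seq_forall_of_frequently hfr
  set Z : ℕ → 𝔸 := fun j => (eloc π).symm (y j) with hZ
  have hZlim : Tendsto Z atTop (𝓝 0) := by
    have h1 : ContinuousAt (eloc π).symm 1 := (contDiffAt_eloc_symm π).continuousAt
    have h2 := h1.tendsto.comp hylim
    rwa [eloc_symm_one] at h2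
  set Y : ℕ → 𝔸 := fun j => Z j - π (Z j) with hY
  have hYne : ∀ j, Y j ≠ 0 := by
    intro j hj
    exact (hy j).1.2 (sub_eq_zero.1 hj).symm
  have hYlim : Tendsto Y atTop (𝓝 0) := by
    have := hZlim.sub ((π.continuous.tendsto 0).comp hZlim)
    simpa using this
  have hππ : ∀ W, π (π W) = π W := fun W => hπ' _ (hπ W)
  have hπY : ∀ j, π (Y j) = 0 := by
    intro j
    simp [hY, hππ]
  -- exp (Y j) ∈ H
  have hexpY : ∀ j, exp (Y j) ∈ H := by
    intro j
    have h1 : exp (π (Z j)) * exp (Y j) = y j := by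
      have := (eloc π).right_inv (hy j).2
      rw [eloc_coe] at this
      exact this
    have h2 : exp (Y j) = exp (-(π (Z j))) * y j := by
      rw [← h1, ← mul_assoc, exp_neg_mul_exp, one_mul]
    rw [h2]
    have h3 : exp (-(π (Z j))) ∈ H := by
      have := hπ (Z j) (-1)
      simpa using this
    exact h.mul h3 (hy j).1.1
  -- normalise
  have hfin : FiniteDimensional ℝ 𝔸 := inferInstance
  have : ProperSpace 𝔸 := FiniteDimensional.proper ℝ 𝔸
  set u : ℕ → 𝔸 := fun j => ‖Y j‖⁻¹ • Y j with hu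
  have hu1 : ∀ j, u j ∈ Metric.sphere (0 : 𝔸) 1 := by
    intro j
    simp [hu, norm_smul, inv_mul_cancel₀ (norm_ne_zero_iff.2 (hYne j))]
  obtain ⟨X, hX, φ, hφ, hφlim⟩ := (isCompact_sphere (0 : 𝔸) 1).tendsto_subseq hu1
  have hXlie : X ∈ lieSet H := by
    refine mem_lieSet_of_tendsto h (l := atTop) (y := fun j => exp (Y (φ j)))
      (ε := fun j => ‖Y (φ j)‖) (Eventually.of_forall fun j => hexpY _) ?_ ?_
    · rw [tendsto_nhdsWithin_iff]
      refine ⟨?_, Eventually.of_forall fun j => norm_pos_iff.2 (hYne _)⟩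
      have := (hYlim.comp hφ.tendsto_atTop).norm
      simpa using this
    · have he : HasFDerivAt (exp : 𝔸 → 𝔸) (1 : 𝔸 →L[ℝ] 𝔸) 0 :=
        (hasStrictFDerivAt_exp_zero (𝕂 := ℝ)).hasFDerivAt
      rw [hasFDerivAt_iff_tendsto] at he
      have h1 := he.comp (hYlim.comp hφ.tendsto_atTop)
      have h2 : Tendsto (fun j => ‖Y (φ j)‖⁻¹ • (exp (Y (φ j)) - 1) - u (φ j)) atTop (𝓝 0) := by
        rw [tendsto_zero_iff_norm_tendsto_zero]
        refine h1.congr fun j => ?_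
        simp only [Function.comp, exp_zero', sub_zero, hu]
        rw [← smul_sub, norm_smul, norm_inv, norm_norm]
        rfl
      have h3 := h2.add hφlim
      simp only [Function.comp, sub_add_cancel, zero_add] at h3
      exact h3
  have hπX : π X = 0 := by
    have h1 : Tendsto (fun j => π (u (φ j))) atTop (𝓝 (π X)) := (π.continuous.tendsto X).comp hφlim
    have h2 : ∀ j, π (u (φ j)) = 0 := by
      intro j; simp [hu, hπY]
    simp only [h2] at h1
    exact tendsto_nhds_unique h1 tendsto_const_nhds |>.symm ▸ rfl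
  have hX0 : X = 0 := by rw [← hπ' X hXlie, hπX]
  rw [hX0] at hX
  simp at hX

end Sub


section Local

variable {𝔸 : Type*} [NormedRing 𝔸] [NormedAlgebra ℝ 𝔸] [CompleteSpace 𝔸] [FiniteDimensional ℝ 𝔸]

/-- The data of an exponential chart near `1`: `J : E → 𝔸` parametrises the Lie algebra, `L` is
the logarithmic coordinate, defined and analytic on the open neighbourhood `W` of `1`. -/
structure ExpChart (H : Set 𝔸) (E : Type*) [NormedAddCommGroup E] [NormedSpace ℝ E] where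
  J : E →L[ℝ] 𝔸
  L : 𝔸 → E
  W : Set 𝔸
  r : ℝ
  r_pos : 0 < r
  W_open : IsOpen W
  one_mem : (1 : 𝔸) ∈ W
  L_smooth : ContDiffOn ℝ ω L W
  exp_mem_H : ∀ X, exp (J X) ∈ H
  exp_mem_W : ∀ X ∈ Metric.ball (0 : E) r, exp (J X) ∈ W
  L_exp : ∀ X ∈ Metric.ball (0 : E) r, L (exp (J X)) = X
  L_mem : ∀ y ∈ W, y ∈ H → L y ∈ Metric.ball (0 : E) r
  exp_L : ∀ y ∈ W, y ∈ H → exp (J (L y)) = y

lemma exists_expChart {H : Set 𝔸} (h : IsCpt H) : ∃ d : ℕ,
    Nonempty (ExpChart H (EuclideanSpace ℝ (Fin d))) := by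
  classical
  refine ⟨Module.finrank ℝ (lieSub H h), ?_⟩
  set 𝔥 := lieSub H h with h𝔥
  -- the parametrisation
  set e : 𝔥 ≃L[ℝ] EuclideanSpace ℝ (Fin (Module.finrank ℝ 𝔥)) := toEuclidean with he
  set J : EuclideanSpace ℝ (Fin (Module.finrank ℝ 𝔥)) →L[ℝ] 𝔸 :=
    𝔥.subtypeL.comp (e.symm : EuclideanSpace ℝ (Fin (Module.finrank ℝ 𝔥)) →L[ℝ] 𝔥) with hJ
  have hJmem : ∀ X, J X ∈ lieSet H := fun X => (e.symm X).2
  -- a left inverse
  have hex := LinearMap.exists_leftInverse_of_injective 𝔥.subtype (Submodule.ker_subtype 𝔥)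
  set q : 𝔸 →ₗ[ℝ] 𝔥 := hex.choose with hq
  have hqspec : q ∘ₗ 𝔥.subtype = LinearMap.id := hex.choose_spec
  have hq' : ∀ Z : 𝔥, q Z = Z := fun Z => by
    have := congrArg (fun f => f Z) hqspec
    simpa using this
  set P : 𝔸 →L[ℝ] EuclideanSpace ℝ (Fin (Module.finrank ℝ 𝔥)) :=
    (e : 𝔥 →L[ℝ] EuclideanSpace ℝ (Fin (Module.finrank ℝ 𝔥))).comp (LinearMap.toContinuousLinearMap q)
    with hP
  set π : 𝔸 →L[ℝ] 𝔸 := J.comp P with hπdef
  have hPJ : ∀ X, P (J X) = X := by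
    intro X
    simp [hP, hJ, hq']
  have hJP : ∀ Z ∈ lieSet H, J (P Z) = Z := by
    intro Z hZ
    have h1 : q Z = ⟨Z, hZ⟩ := hq' ⟨Z, hZ⟩
    simp [hP, hJ, h1]
  have hπ : ∀ Z, π Z ∈ lieSet H := fun Z => hJmem _
  have hπ' : ∀ Z ∈ lieSet H, π Z = Z := fun Z hZ => hJP Z hZ
  have hexpJ : ∀ X, Phi π (J X) = exp (J X) := fun X => Phi_eq_exp (hπ' _ (hJmem X))
  -- a neighbourhood on which everything is fine
  have hev1 := eventually_mem_lieSet h hπ hπ'
  have hev2 : ∀ᶠ y in 𝓝 (1 : 𝔸), ContDiffAt ℝ ω (eloc π).symm y :=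
    (contDiffAt_eloc_symm π).eventually (by simp)
  have hev3 : ∀ᶠ y in 𝓝 (1 : 𝔸), y ∈ (eloc π).target :=
    (eloc π).open_target.mem_nhds (one_mem_target π)
  obtain ⟨W0, hW0, hW0o, hW01⟩ := eventually_nhds_iff.1 (hev1.and (hev2.and hev3))
  -- the radius
  have hevr : ∀ᶠ X in 𝓝 (0 : EuclideanSpace ℝ (Fin (Module.finrank ℝ 𝔥))),
      J X ∈ (eloc π).source ∧ exp (J X) ∈ W0 := by
    have hc1 : Tendsto J (𝓝 0) (𝓝 0) := by
      have := J.continuous.tendsto 0
      rwa [map_zero] at this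
    have hc2 : Tendsto (fun X => exp (J X)) (𝓝 0) (𝓝 1) := by
      have h1 : Tendsto (exp : 𝔸 → 𝔸) (𝓝 0) (𝓝 (exp 0)) :=
        (contDiff_exp'.continuous (𝕜 := ℝ)).tendsto 0
      rw [exp_zero'] at h1
      exact h1.comp hc1
    exact (hc1.eventually ((eloc π).open_source.mem_nhds (zero_mem_source π))).and
      (hc2.eventually (hW0o.mem_nhds hW01))
  obtain ⟨r, hr, hrsub⟩ := Metric.eventually_nhds_iff_ball.1 hevr
  set W : Set 𝔸 := W0 ∩ {y | P ((eloc π).symm y) ∈ Metric.ball 0 r} with hW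
  have hsymm_exp : ∀ X ∈ Metric.ball (0 : EuclideanSpace ℝ (Fin (Module.finrank ℝ 𝔥))) r,
      (eloc π).symm (exp (J X)) = J X := by
    intro X hX
    have := (eloc π).left_inv (hrsub X hX).1
    rwa [eloc_coe, hexpJ] at this
  have hWopen : IsOpen W := by
    rw [isOpen_iff_mem_nhds]
    rintro y ⟨hy1, hy2⟩
    have hc : ContinuousAt (fun y => P ((eloc π).symm y)) y :=
      P.continuous.continuousAt.comp (hW0 y hy1).2.1.continuousAt
    exact inter_mem (hW0o.mem_nhds hy1) (hc.preimage_mem_nhds (Metric.isOpen_ball.mem_nhds hy2))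
  refine ⟨⟨J, fun y => P ((eloc π).symm y), W, r, hr, hWopen, ?_, ?_, ?_, ?_, ?_, ?_, ?_⟩⟩
  · refine ⟨hW01, ?_⟩
    change P ((eloc π).symm 1) ∈
      Metric.ball (0 : EuclideanSpace ℝ (Fin (Module.finrank ℝ 𝔥))) r
    rw [eloc_symm_one, map_zero]
    exact Metric.mem_ball_self hr
  · intro y hy
    exact (P.contDiff.contDiffAt.comp y (hW0 y hy.1).2.1).contDiffWithinAt
  · intro X
    have := hJmem X 1
    simpa using this
  · intro X hX
    refine ⟨(hrsub X hX).2, ?_⟩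
    change P ((eloc π).symm (exp (J X))) ∈
      Metric.ball (0 : EuclideanSpace ℝ (Fin (Module.finrank ℝ 𝔥))) r
    rw [hsymm_exp X hX, hPJ]
    exact hX
  · intro X hX
    change P ((eloc π).symm (exp (J X))) = X
    rw [hsymm_exp X hX, hPJ]
  · intro y hy _
    exact hy.2
  · intro y hy hyH
    have h1 : π ((eloc π).symm y) = (eloc π).symm y := (hW0 y hy.1).1 hyH
    have h2 := (eloc π).right_inv (hW0 y hy.1).2.2
    rw [eloc_coe, Phi_eq_exp h1] at h2
    change exp (π ((eloc π).symm y)) = y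
    rw [h1, h2]

end Local


section Charts

variable {𝔸 : Type*} [NormedRing 𝔸] [NormedAlgebra ℝ 𝔸] [CompleteSpace 𝔸] [FiniteDimensional ℝ 𝔸]
  {K : Type*} [Group K] [TopologicalSpace K] [IsTopologicalGroup K] [CompactSpace K]
  {E : Type*} [NormedAddCommGroup E] [NormedSpace ℝ E]
  (ρ : K →* 𝔸) (hρ : Continuous ρ) (hinj : Function.Injective ρ)

include hρ in
lemma isCpt_range : IsCpt (range ρ) := by
  have hc : IsCompact (range ρ) := isCompact_range hρ
  refine ⟨hc.isClosed, hc.isBounded, ⟨1, map_one ρ⟩, ?_, ?_⟩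
  · rintro _ _ ⟨a, rfl⟩ ⟨b, rfl⟩; exact ⟨a * b, map_mul ρ a b⟩
  · rintro _ y ⟨a, rfl⟩ hy
    refine ⟨a⁻¹, ?_⟩
    have h1 : ρ a⁻¹ * ρ a = 1 := by rw [← map_mul, inv_mul_cancel, map_one]
    calc ρ a⁻¹ = ρ a⁻¹ * (ρ a * y) := by rw [hy, mul_one]
      _ = y := by rw [← mul_assoc, h1, one_mul]

include hρ hinj in
lemma isEmbedding_rho : Topology.IsEmbedding ρ := (hρ.isClosedEmbedding hinj).isEmbedding

lemma rho_inv_mul (g k : K) : ρ (g⁻¹ * k) = ρ g⁻¹ * ρ k := map_mul ρ _ _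

lemma rho_mul_rho_inv (g : K) : ρ g * ρ g⁻¹ = 1 := by rw [← map_mul, mul_inv_cancel, map_one]

lemma rho_inv_mul_rho (g : K) : ρ g⁻¹ * ρ g = 1 := by rw [← map_mul, inv_mul_cancel, map_one]

/-- The group element with image `exp (J X)`. -/
noncomputable def psi (c : ExpChart (range ρ) E) (X : E) : K := (c.exp_mem_H X).choose

lemma rho_psi (c : ExpChart (range ρ) E) (X : E) : ρ (psi ρ c X) = exp (c.J X) :=
  (c.exp_mem_H X).choose_spec

lemma continuous_exp_J (c : ExpChart (range ρ) E) : Continuous (fun X => exp (c.J X)) :=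
  (contDiff_exp'.continuous (𝕜 := ℝ)).comp c.J.continuous

/-- The chart about `g`. -/
noncomputable def chart (c : ExpChart (range ρ) E) (g : K) : OpenPartialHomeomorph K E where
  toFun k := c.L (ρ (g⁻¹ * k))
  invFun X := g * psi ρ c X
  source := {k | ρ (g⁻¹ * k) ∈ c.W}
  target := Metric.ball 0 c.r
  map_source' k hk := c.L_mem _ hk ⟨_, rfl⟩
  map_target' X hX := by
    change ρ (g⁻¹ * (g * psi ρ c X)) ∈ c.W
    rw [inv_mul_cancel_left, rho_psi]
    exact c.exp_mem_W X hX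
  left_inv' k hk := by
    have h1 := c.exp_L _ hk ⟨_, rfl⟩
    have h2 : psi ρ c (c.L (ρ (g⁻¹ * k))) = g⁻¹ * k := by
      apply hinj
      rw [rho_psi, h1]
    rw [h2, mul_inv_cancel_left]
  right_inv' X hX := by
    rw [inv_mul_cancel_left, rho_psi]
    exact c.L_exp X hX
  open_source := c.W_open.preimage (hρ.comp (continuous_const.mul continuous_id))
  open_target := Metric.isOpen_ball
  continuousOn_toFun := by
    apply c.L_smooth.continuousOn.comp
    · exact (hρ.comp (continuous_const.mul continuous_id)).continuousOn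
    · intro k hk; exact hk
  continuousOn_invFun := by
    apply Continuous.continuousOn
    refine continuous_const.mul ?_
    rw [(isEmbedding_rho ρ hρ hinj).continuous_iff]
    refine (continuous_exp_J ρ c).congr fun X => ?_
    simp [rho_psi]

lemma one_mem_chart (c : ExpChart (range ρ) E) (g : K) : g ∈ (chart ρ hρ hinj c g).source := by
  change ρ (g⁻¹ * g) ∈ c.W
  rw [inv_mul_cancel, map_one]
  exact c.one_mem

/-- The charted space structure. -/
@[reducible] noncomputable def charted (c : ExpChart (range ρ) E) : ChartedSpace E K where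
  atlas := range (chart ρ hρ hinj c)
  chartAt := chart ρ hρ hinj c
  mem_chart_source := one_mem_chart ρ hρ hinj c
  chart_mem_atlas g := ⟨g, rfl⟩

lemma contDiff_expJ (c : ExpChart (range ρ) E) : ContDiff ℝ ω (fun X => exp (c.J X)) :=
  contDiff_exp'.comp c.J.contDiff

lemma isManifold_charted (c : ExpChart (range ρ) E) :
    letI := charted ρ hρ hinj c
    IsManifold 𝓘(ℝ, E) ω K := by
  letI := charted ρ hρ hinj c
  apply isManifold_of_contDiffOn
  rintro _ _ ⟨g, rfl⟩ ⟨g', rfl⟩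
  simp only [modelWithCornersSelf_coe, modelWithCornersSelf_coe_symm, preimage_id, range_id,
    inter_univ, Function.comp_id, Function.id_comp]
  have hF : ContDiffOn ℝ ω (fun X => c.L (ρ g'⁻¹ * (ρ g * exp (c.J X))))
      {X | ρ g'⁻¹ * (ρ g * exp (c.J X)) ∈ c.W} := by
    apply c.L_smooth.comp (t := c.W)
    · exact (contDiff_const.mul (contDiff_const.mul (contDiff_expJ ρ c))).contDiffOn
    · intro X hX; exact hX
  refine (hF.mono ?_).congr ?_
  · intro X hX
    have h2 : ρ (g'⁻¹ * (g * psi ρ c X)) ∈ c.W := hX.2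
    rwa [map_mul, map_mul, rho_psi] at h2
  · intro X hX
    change c.L (ρ (g'⁻¹ * (g * psi ρ c X))) = _
    rw [map_mul, map_mul, rho_psi]

lemma contMDiff_rho (c : ExpChart (range ρ) E) :
    letI := charted ρ hρ hinj c
    ContMDiff 𝓘(ℝ, E) 𝓘(ℝ, 𝔸) ω ρ := by
  letI := charted ρ hρ hinj c
  haveI := isManifold_charted ρ hρ hinj c
  intro x
  rw [contMDiffAt_iff_source]
  have h1 : ContMDiffWithinAt 𝓘(ℝ, E) 𝓘(ℝ, 𝔸) ω (fun X => ρ x * exp (c.J X))
      (range 𝓘(ℝ, E)) (extChartAt 𝓘(ℝ, E) x x) :=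
    (contDiff_const.mul (contDiff_expJ ρ c)).contMDiff.contMDiffAt.contMDiffWithinAt
  refine h1.congr ?_ ?_
  · intro X _
    change ρ (x * psi ρ c X) = _
    rw [map_mul, rho_psi]
  · change ρ (x * psi ρ c (extChartAt 𝓘(ℝ, E) x x)) = _
    rw [map_mul, rho_psi]

lemma contMDiffAt_of_rho (c : ExpChart (range ρ) E)
    {E' : Type*} [NormedAddCommGroup E'] [NormedSpace ℝ E'] {H' : Type*} [TopologicalSpace H']
    {I' : ModelWithCorners ℝ E' H'} {M : Type*} [TopologicalSpace M] [ChartedSpace H' M]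
    {f : M → K} {x : M} (hf : ContinuousAt f x) (hρf : ContMDiffAt I' 𝓘(ℝ, 𝔸) ω (ρ ∘ f) x) :
    letI := charted ρ hρ hinj c
    ContMDiffAt I' 𝓘(ℝ, E) ω f x := by
  letI := charted ρ hρ hinj c
  rw [contMDiffAt_iff_target]
  refine ⟨hf, ?_⟩
  have hL : ContDiffAt ℝ ω (fun y => c.L (ρ (f x)⁻¹ * y)) (ρ (f x)) := by
    have h1 : ContDiffAt ℝ ω c.L (ρ (f x)⁻¹ * ρ (f x)) := by
      rw [rho_inv_mul_rho]
      exact c.L_smooth.contDiffAt (c.W_open.mem_nhds c.one_mem)
    exact h1.comp (ρ (f x)) (contDiffAt_const.mul contDiffAt_id)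
  have h2 : ContMDiffAt I' 𝓘(ℝ, E) ω ((fun y => c.L (ρ (f x)⁻¹ * y)) ∘ (ρ ∘ f)) x :=
    hL.contMDiffAt.comp x hρf
  refine h2.congr_of_eventuallyEq (Eventually.of_forall fun z => ?_)
  change c.L (ρ ((f x)⁻¹ * f z)) = c.L (ρ (f x)⁻¹ * ρ (f z))
  rw [map_mul]

lemma lieGroup_charted (c : ExpChart (range ρ) E) :
    letI := charted ρ hρ hinj c
    LieGroup 𝓘(ℝ, E) ω K := by
  letI := charted ρ hρ hinj c
  haveI := isManifold_charted ρ hρ hinj c
  have hρs := contMDiff_rho ρ hρ hinj c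
  haveI : ContMDiffMul 𝓘(ℝ, E) ω K := by
    refine ⟨?_⟩
    intro p
    apply contMDiffAt_of_rho ρ hρ hinj c continuous_mul.continuousAt
    have h1 : ContMDiffAt (𝓘(ℝ, E).prod 𝓘(ℝ, E)) 𝓘(ℝ, 𝔸) ω (fun p : K × K => ρ p.1 * ρ p.2) p := by
      have h2 : ContMDiffAt (𝓘(ℝ, E).prod 𝓘(ℝ, E)) 𝓘(ℝ, 𝔸 × 𝔸) ω
          (fun p : K × K => (ρ p.1, ρ p.2)) p :=
        (hρs.contMDiffAt.comp p contMDiffAt_fst).prodMk_space
          (hρs.contMDiffAt.comp p contMDiffAt_snd)
      exact (contDiff_mul (𝕜 := ℝ) (𝔸 := 𝔸) (n := ω)).contMDiff.contMDiffAt.comp p h2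
    refine h1.congr_of_eventuallyEq (Eventually.of_forall fun z => ?_)
    simp
  refine ⟨?_⟩
  intro x
  apply contMDiffAt_of_rho ρ hρ hinj c continuous_inv.continuousAt
  let u : 𝔸ˣ := ⟨ρ x, ρ x⁻¹, rho_mul_rho_inv ρ x, rho_inv_mul_rho ρ x⟩
  have h1 : ContDiffAt ℝ ω Ring.inverse (ρ x) := contDiffAt_ringInverse ℝ u
  have h2 : ContMDiffAt 𝓘(ℝ, E) 𝓘(ℝ, 𝔸) ω (Ring.inverse ∘ ρ) x :=
    h1.contMDiffAt.comp x hρs.contMDiffAt
  refine h2.congr_of_eventuallyEq (Eventually.of_forall fun z => ?_)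
  let v : 𝔸ˣ := ⟨ρ z, ρ z⁻¹, rho_mul_rho_inv ρ z, rho_inv_mul_rho ρ z⟩
  change ρ z⁻¹ = Ring.inverse (v : 𝔸)
  rw [Ring.inverse_unit]
  rfl

end Charts

/-- A compact group with a continuous injective homomorphism into (the multiplicative monoid of)
a finite-dimensional real algebra is a real analytic Lie group. -/
theorem lieGroup_of_injective {𝔸 : Type*} [NormedRing 𝔸] [NormedAlgebra ℝ 𝔸]
    [FiniteDimensional ℝ 𝔸] {K : Type*} [Group K] [TopologicalSpace K] [IsTopologicalGroup K]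
    [CompactSpace K] (ρ : K →* 𝔸) (hρ : Continuous ρ) (hinj : Function.Injective ρ) :
    ∃ (d : ℕ) (_ : ChartedSpace (EuclideanSpace ℝ (Fin d)) K),
      LieGroup 𝓘(ℝ, EuclideanSpace ℝ (Fin d)) ω K := by
  haveI : CompleteSpace 𝔸 := FiniteDimensional.complete ℝ 𝔸
  obtain ⟨d, ⟨c⟩⟩ := exists_expChart (isCpt_range ρ hρ)
  exact ⟨d, charted ρ hρ hinj c, lieGroup_charted ρ hρ hinj c⟩

/-- A compact group with a faithful continuous finite-dimensional unitary representation is a real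
analytic Lie group. -/
theorem lieGroup_of_faithful {K : Type*} [Group K] [TopologicalSpace K] [IsTopologicalGroup K]
    [CompactSpace K] (n : ℕ) (ρ : K →* Matrix.unitaryGroup (Fin n) ℂ) (hρ : Continuous ρ)
    (hinj : Function.Injective ρ) :
    ∃ (d : ℕ) (_ : ChartedSpace (EuclideanSpace ℝ (Fin d)) K),
      LieGroup (modelWithCornersSelf ℝ (EuclideanSpace ℝ (Fin d))) ω K := by
  letI := Matrix.linftyOpNormedRing (n := Fin n) (α := ℂ)
  letI : NormedAlgebra ℝ (Matrix (Fin n) (Fin n) ℂ) := Matrix.linftyOpNormedAlgebra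
  exact lieGroup_of_injective
    (ρ := ((Matrix.unitaryGroup (Fin n) ℂ).subtype.comp ρ : K →* Matrix (Fin n) (Fin n) ℂ))
    (continuous_subtype_val.comp hρ) (Subtype.val_injective.comp hinj)

end Pool.Agent.Work.MP_55ec57_gt.LieStructure
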